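import Pool.Agent.H559.EG.Stm

set_option autoImplicit false

/-! # Task H559-EG-AP (helper97): the fundamental lemma in an arithmetic progression -/

open Finset

namespace Pool.Agent.H559.EG

namespace Ap

/-- the number of the `m` with `Q m + r ≤ t` -/
def A (Q r t : ℕ) : ℕ := (t + (Q - r)) / Q

theorem lt_A {Q r : ℕ} (hQ : 0 < Q) (hr : r < Q) (m t : ℕ) : m < A Q r t ↔ Q * m + r ≤ t := by
  unfold A
  rw [Nat.lt_iff_add_one_le, Nat.le_div_iff_mul_le hQ, add_mul, one_mul, mul_comm m Q]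
  omega

theorem A_real {Q r : ℕ} (hQ : 0 < Q) (hr : r < Q) (k y : ℕ) :
    A Q r k ≤ A Q r (k + y) ∧ |((A Q r (k + y) - A Q r k : ℕ) : ℝ) - (y : ℝ) / Q| ≤ 1 := by
  have hQ' : (0 : ℝ) < Q := by exact_mod_cast hQ
  have h1 : A Q r k ≤ A Q r (k + y) := Nat.div_le_div_right (by omega)
  refine ⟨h1, ?_⟩
  have a1 : A Q r k * Q ≤ k + (Q - r) := Nat.div_mul_le_self _ _
  have a2 : k + (Q - r) < A Q r k * Q + Q := Nat.lt_div_mul_add hQ
  have b1 : A Q r (k + y) * Q ≤ k + y + (Q - r) := Nat.div_mul_le_self _ _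
  have b2 : k + y + (Q - r) < A Q r (k + y) * Q + Q := Nat.lt_div_mul_add hQ
  have a1' : (A Q r k : ℝ) * Q ≤ (k : ℝ) + ((Q - r : ℕ) : ℝ) := by exact_mod_cast a1
  have a2' : (k : ℝ) + ((Q - r : ℕ) : ℝ) < (A Q r k : ℝ) * Q + Q := by exact_mod_cast a2
  have b1' : (A Q r (k + y) : ℝ) * Q ≤ (k : ℝ) + y + ((Q - r : ℕ) : ℝ) := by exact_mod_cast b1
  have b2' : (k : ℝ) + y + ((Q - r : ℕ) : ℝ) < (A Q r (k + y) : ℝ) * Q + Q := by
    exact_mod_cast b2
  rw [Nat.cast_sub h1, abs_le]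
  constructor
  · rw [neg_le_sub_iff_le_add, div_le_iff₀ hQ']
    nlinarith
  · rw [sub_le_iff_le_add, ← sub_le_iff_le_add', le_div_iff₀ hQ']
    nlinarith

/-- the classes of the quotients -/
def Om' (Q r : ℕ) (Om : ℕ → Finset ℕ) (p : ℕ) : Finset ℕ :=
  (range p).filter (fun u => (Q * (u + (p - 1)) + r) % p ∈ Om p)

theorem mod_eq {Q r p m : ℕ} (hp : 0 < p) :
    (Q * ((m + 1) % p + (p - 1)) + r) % p = (Q * m + r) % p := by
  have h1 : (m + 1) % p + (p - 1) ≡ m + p [MOD p] := by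
    have h2 : (m + 1) % p + (p - 1) ≡ (m + 1) + (p - 1) [MOD p] :=
      (Nat.mod_modEq (m + 1) p).add_right _
    have h3 : (m + 1) + (p - 1) = m + p := by omega
    rwa [h3] at h2
  have h4 : m + p ≡ m [MOD p] := by
    unfold Nat.ModEq
    exact Nat.add_mod_right m p
  exact ((h1.trans h4).mul_left Q).add_right r

theorem mem_iff {Q r p m : ℕ} {Om : ℕ → Finset ℕ} (hp : 0 < p) :
    (m + 1) % p ∈ Om' Q r Om p ↔ (Q * m + r) % p ∈ Om p := by
  unfold Om'
  rw [mem_filter, mod_eq hp, mem_range]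
  exact ⟨fun h => h.2, fun h => ⟨Nat.mod_lt _ hp, h⟩⟩

theorem card_eq {Q r p : ℕ} {Om : ℕ → Finset ℕ} (hp : p.Prime) (hsub : Om p ⊆ range p)
    (hQ : p ∣ Q → Om p = ∅) : (Om' Q r Om p).card = (Om p).card := by
  by_cases h : p ∣ Q
  · have h1 := hQ h
    have h2 : Om' Q r Om p = ∅ := by
      unfold Om'
      rw [h1]
      exact filter_false_of_mem fun u _ => notMem_empty _
    rw [h1, h2]
  · set f : ℕ → ℕ := fun u => (Q * (u + (p - 1)) + r) % p with hf
    have hcop : Nat.Coprime p Q := (Nat.Prime.coprime_iff_not_dvd hp).2 h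
    have hmaps : Set.MapsTo f (range p : Finset ℕ) (range p : Finset ℕ) := by
      intro u _
      exact mem_coe.2 (mem_range.2 (Nat.mod_lt _ hp.pos))
    have hinj : Set.InjOn f (range p : Finset ℕ) := by
      intro u hu v hv huv
      have hu' := mem_range.1 (mem_coe.1 hu)
      have hv' := mem_range.1 (mem_coe.1 hv)
      have h1 : Q * (u + (p - 1)) + r ≡ Q * (v + (p - 1)) + r [MOD p] := huv
      have h2 : Q * (u + (p - 1)) ≡ Q * (v + (p - 1)) [MOD p] := Nat.ModEq.add_right_cancel' r h1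
      have h3 : u + (p - 1) ≡ v + (p - 1) [MOD p] := Nat.ModEq.cancel_left_of_coprime hcop h2
      have h4 : u ≡ v [MOD p] := Nat.ModEq.add_right_cancel' _ h3
      have h5 : u % p = v % p := h4
      rwa [Nat.mod_eq_of_lt hu', Nat.mod_eq_of_lt hv'] at h5
    have hsurj : Set.SurjOn f (range p : Finset ℕ) (range p : Finset ℕ) :=
      surjOn_of_injOn_of_card_le f hmaps hinj le_rfl
    have himg : (Om' Q r Om p).image f = Om p := by
      ext w
      rw [mem_image]
      constructor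
      · rintro ⟨u, hu, rfl⟩
        unfold Om' at hu
        exact (mem_filter.1 hu).2
      · intro hw
        obtain ⟨u, hu, huw⟩ := hsurj (mem_coe.2 (hsub hw))
        refine ⟨u, ?_, huw⟩
        unfold Om'
        rw [mem_filter]
        refine ⟨mem_coe.1 hu, ?_⟩
        have h6 : (Q * (u + (p - 1)) + r) % p = w := huw
        rw [h6]
        exact hw
    rw [← himg, card_image_of_injOn]
    refine hinj.mono ?_
    intro u hu
    unfold Om' at hu
    exact mem_coe.2 (mem_filter.1 (mem_coe.1 hu)).1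

theorem count_eq {Q r T : ℕ} {Om : ℕ → Finset ℕ} (hQ : 0 < Q) (hr : r < Q) (k y : ℕ) :
    ((Ioc k (k + y)).filter (fun n => n % Q = r ∧ ∀ p ≤ T, p.Prime → n % p ∉ Om p)).card =
      ((Ioc (A Q r k) (A Q r k + (A Q r (k + y) - A Q r k))).filter
        (fun m => ∀ p ≤ T, p.Prime → m % p ∉ Om' Q r Om p)).card := by
  have hA := (A_real hQ hr k y).1
  rw [Nat.add_sub_cancel' hA]
  refine card_nbij' (fun n => n / Q + 1) (fun m => Q * (m - 1) + r) ?_ ?_ ?_ ?_
  · intro n hn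
    rw [mem_coe, mem_filter, mem_Ioc] at hn
    obtain ⟨⟨h1, h2⟩, h3, h4⟩ := hn
    have h5 : Q * (n / Q) + r = n := by
      rw [← h3]
      exact Nat.div_add_mod n Q
    have h6 := lt_A hQ hr (n / Q) k
    have h7 := lt_A hQ hr (n / Q) (k + y)
    rw [h5] at h6 h7
    rw [mem_coe, mem_filter, mem_Ioc]
    refine ⟨⟨?_, ?_⟩, fun p hp hpp => ?_⟩
    · show A Q r k < n / Q + 1
      by_contra hcon
      have := h6.1 (by omega)
      omega
    · have := h7.2 h2
      show n / Q + 1 ≤ A Q r (k + y)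
      omega
    · rw [mem_iff hpp.pos, h5]
      exact h4 p hp hpp
  · intro m hm
    rw [mem_coe, mem_filter, mem_Ioc] at hm
    obtain ⟨⟨h1, h2⟩, h4⟩ := hm
    have h3 : m - 1 + 1 = m := by omega
    have h6 := lt_A hQ hr (m - 1) k
    have h7 := lt_A hQ hr (m - 1) (k + y)
    rw [mem_coe, mem_filter, mem_Ioc]
    refine ⟨⟨?_, ?_⟩, ?_, fun p hp hpp => ?_⟩
    · show k < Q * (m - 1) + r
      by_contra hcon
      have := h6.2 (by omega)
      omega
    · exact h7.1 (by omega)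
    · show (Q * (m - 1) + r) % Q = r
      rw [Nat.mul_add_mod]
      exact Nat.mod_eq_of_lt hr
    · have h8 := h4 p hp hpp
      rw [← h3, mem_iff hpp.pos] at h8
      exact h8
  · intro n hn
    rw [mem_coe, mem_filter] at hn
    show Q * (n / Q + 1 - 1) + r = n
    rw [Nat.add_sub_cancel, ← hn.2.1]
    exact Nat.div_add_mod n Q
  · intro m hm
    rw [mem_coe, mem_filter, mem_Ioc] at hm
    show (Q * (m - 1) + r) / Q + 1 = m
    rw [Nat.mul_add_div hQ, Nat.div_eq_of_lt hr]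
    omega

end Ap

open Ap in
theorem t_ap : S_ap := by
  intro κ ε hε
  obtain ⟨B, K, hK, hflg⟩ := Pool.Agent.T2H32.GB.flg κ ε hε
  refine ⟨B, K + 1 + ε, by positivity, ?_⟩
  intro T Q r Om hQ hr hOm k y
  have h1 := hflg T (Om' Q r Om) (fun p hp hpp => ⟨by
    unfold Om'
    exact filter_subset _ _, by
    rw [card_eq hpp (hOm p hp hpp).1 (hOm p hp hpp).2.2]
    exact (hOm p hp hpp).2.1⟩) (A Q r k) (A Q r (k + y) - A Q r k)
  rw [← count_eq hQ hr k y] at h1
  have h2 : ∏ p ∈ (range (T + 1)).filter Nat.Prime, (1 - ((Om' Q r Om p).card : ℝ) / p) =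
      ∏ p ∈ (range (T + 1)).filter Nat.Prime, (1 - ((Om p).card : ℝ) / p) := by
    refine prod_congr rfl fun p hp => ?_
    rw [mem_filter, mem_range] at hp
    have h3 := hOm p (by omega) hp.2
    rw [card_eq hp.2 h3.1 h3.2.2]
  rw [h2] at h1
  set W := ∏ p ∈ (range (T + 1)).filter Nat.Prime, (1 - ((Om p).card : ℝ) / p) with hW
  have h4 : ∀ p ∈ (range (T + 1)).filter Nat.Prime, 0 ≤ 1 - ((Om p).card : ℝ) / p ∧
      1 - ((Om p).card : ℝ) / p ≤ 1 := by
    intro p hp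
    rw [mem_filter, mem_range] at hp
    have h3 := hOm p (by omega) hp.2
    have h5 : (Om p).card ≤ p := by
      have := card_le_card h3.1
      rwa [card_range] at this
    have h5' : ((Om p).card : ℝ) ≤ p := by exact_mod_cast h5
    have hp0 : (0 : ℝ) < p := by exact_mod_cast hp.2.pos
    have h6 : ((Om p).card : ℝ) / p ≤ 1 := by
      rw [div_le_one hp0]
      exact h5'
    have h7 : 0 ≤ ((Om p).card : ℝ) / p := by positivity
    constructor <;> linarith
  have hW0 : 0 ≤ W := prod_nonneg fun p hp => (h4 p hp).1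
  have hW1 : W ≤ 1 := prod_le_one (fun p hp => (h4 p hp).1) fun p hp => (h4 p hp).2
  have h8 := (A_real hQ hr k y).2
  set Y : ℝ := ((A Q r (k + y) - A Q r k : ℕ) : ℝ) with hY
  set N : ℝ := (((Ioc k (k + y)).filter
    (fun n => n % Q = r ∧ ∀ p ≤ T, p.Prime → n % p ∉ Om p)).card : ℝ) with hN
  have h9 : |(Y - (y : ℝ) / Q) * W| ≤ 1 := by
    rw [abs_mul, abs_of_nonneg hW0]
    exact mul_le_one₀ h8 hW0 hW1
  have h10 : (1 : ℝ) ≤ ((T : ℝ) + 1) ^ B := one_le_pow₀ (by
    have : (0 : ℝ) ≤ T := Nat.cast_nonneg T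
    linarith)
  have h11 : Y * W ≤ (y : ℝ) / Q * W + 1 := by
    have := (abs_le.1 h9).2
    nlinarith
  have h12 : N - (y : ℝ) / Q * W = (N - Y * W) + (Y - (y : ℝ) / Q) * W := by ring
  rw [h12]
  refine (abs_add_le _ _).trans ?_
  have h13 : ε * (Y * W) ≤ ε * ((y : ℝ) / Q * W) + ε := by
    have := mul_le_mul_of_nonneg_left h11 hε.le
    linarith
  have h14 : 1 + ε ≤ (1 + ε) * ((T : ℝ) + 1) ^ B := by
    have : 0 ≤ 1 + ε := by linarith
    nlinarith
  have h15 : (K + 1 + ε) * ((T : ℝ) + 1) ^ B =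
      K * ((T : ℝ) + 1) ^ B + (1 + ε) * ((T : ℝ) + 1) ^ B := by ring
  rw [h15]
  linarith

end Pool.Agent.H559.EG
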