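import Pool.Agent.H559.EG.Stm

/-!
# Rough numbers times smooth numbers with few primes (helper597 for helper559)
-/

set_option autoImplicit false

open Finset MeasureTheory ProbabilityTheory Filter Topology

namespace Pool.Agent.H559.EG

namespace Cnt

/-! ### The decomposition -/

theorem decomp (E : Finset ℕ) (n : ℕ) (hn : 1 ≤ n) : ∃ e ρ : ℕ, 1 ≤ e ∧ 1 ≤ ρ ∧ n = e * ρ ∧
    (∀ p : ℕ, p.Prime → p ∣ e → p ∈ E) ∧ ∀ p : ℕ, p.Prime → p ∣ ρ → p ∉ E := by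
  induction n using Nat.strong_induction_on with
  | _ n ih =>
    rcases Nat.eq_or_lt_of_le hn with h1 | h1
    · subst h1
      refine ⟨1, 1, le_rfl, le_rfl, rfl, ?_, ?_⟩
      · intro p hp hd
        exact absurd (Nat.dvd_one.1 hd) hp.one_lt.ne'
      · intro p hp hd
        exact absurd (Nat.dvd_one.1 hd) hp.one_lt.ne'
    · have hpr : (Nat.minFac n).Prime := Nat.minFac_prime h1.ne'
      obtain ⟨m, hm⟩ := Nat.minFac_dvd n
      have hm1 : 1 ≤ m := by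
        rcases Nat.eq_zero_or_pos m with h0 | h0
        · rw [h0, mul_zero] at hm
          omega
        · exact h0
      have hmn : m < n := by
        conv_rhs => rw [hm]
        have := hpr.two_le
        nlinarith
      obtain ⟨e, ρ, he, hρ, heq, h2, h3⟩ := ih m hmn hm1
      by_cases hE : Nat.minFac n ∈ E
      · refine ⟨Nat.minFac n * e, ρ, Nat.mul_pos hpr.pos he, hρ, ?_, ?_, h3⟩
        · conv_lhs => rw [hm, heq]
          rw [mul_assoc]
        · intro p hp hd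
          rcases (hp.dvd_mul).1 hd with h4 | h4
          · rw [(Nat.prime_dvd_prime_iff_eq hp hpr).1 h4]
            exact hE
          · exact h2 p hp h4
      · refine ⟨e, Nat.minFac n * ρ, he, Nat.mul_pos hpr.pos hρ, ?_, h2, ?_⟩
        · conv_lhs => rw [hm, heq]
          ring
        · intro p hp hd
          rcases (hp.dvd_mul).1 hd with h4 | h4
          · rw [(Nat.prime_dvd_prime_iff_eq hp hpr).1 h4]
            exact hE
          · exact h3 p hp h4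

/-- the numbers without prime factors `≤ y` -/
def rough (y t : ℕ) : Finset ℕ := (Icc 1 t).filter (fun n => ∀ p ≤ y, p.Prime → ¬ p ∣ n)

open Classical in
/-- the numbers composed of the primes of `E` -/
noncomputable def smooth (E : Finset ℕ) (g : ℕ) : Finset ℕ :=
  (Icc 1 g).filter (fun e => ∀ p : ℕ, p.Prime → p ∣ e → p ∈ E)

theorem mem_smooth {E : Finset ℕ} {g e : ℕ} :
    e ∈ smooth E g ↔ (1 ≤ e ∧ e ≤ g) ∧ ∀ p : ℕ, p.Prime → p ∣ e → p ∈ E := by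
  unfold smooth
  simp only [Finset.mem_filter, Finset.mem_Icc]

theorem card_le (y g : ℕ) (E A : Finset ℕ)
    (hA : ∀ n ∈ A, (1 ≤ n ∧ n ≤ g) ∧ ∀ p ≤ y, p.Prime → p ∣ n → p ∈ E) :
    A.card ≤ ∑ e ∈ smooth E g, (rough y (g / e)).card := by
  have hsub : A ⊆ (smooth E g).biUnion (fun e => (rough y (g / e)).image (fun r => e * r)) := by
    intro n hn
    obtain ⟨⟨h1, h2⟩, h3⟩ := hA n hn
    obtain ⟨e, ρ, he, hρ, heq, h4, h5⟩ := decomp E n h1
    rw [mem_biUnion]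
    refine ⟨e, mem_smooth.2 ⟨⟨he, ?_⟩, h4⟩, ?_⟩
    · calc e ≤ e * ρ := Nat.le_mul_of_pos_right e hρ
        _ = n := heq.symm
        _ ≤ g := h2
    · rw [mem_image]
      refine ⟨ρ, ?_, heq.symm⟩
      unfold rough
      rw [mem_filter, mem_Icc]
      refine ⟨⟨hρ, ?_⟩, ?_⟩
      · rw [Nat.le_div_iff_mul_le he, mul_comm, ← heq]
        exact h2
      · intro p hp hpp hd
        refine h5 p hpp hd (h3 p hp hpp ?_)
        rw [heq]
        exact hd.mul_left e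
  refine (card_le_card hsub).trans (card_biUnion_le.trans ?_)
  exact sum_le_sum fun e _ => card_image_le

/-! ### Euler products -/

theorem inv_le_exp {x c : ℝ} (h0 : 0 ≤ x) (hx : x ≤ c) (hc : c ≤ 1 / 2) :
    (1 - x)⁻¹ ≤ Real.exp (2 * c) := by
  have h1 : (1 - x)⁻¹ ≤ 1 + 2 * x := by
    rw [inv_le_iff_one_le_mul₀ (by linarith)]
    nlinarith
  have h2 := Real.add_one_le_exp (2 * c)
  linarith

theorem euler (f : ℕ →* ℝ) (hf0 : ∀ n, 0 ≤ f n) (hf1 : ∀ p : ℕ, p.Prime → f p < 1)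
    (E : Finset ℕ) (hE : ∀ p ∈ E, p.Prime) (c : ℝ) (hc : ∀ p ∈ E, f p ≤ c) (hc2 : c ≤ 1 / 2)
    (g : ℕ) : ∑ e ∈ smooth E g, f e ≤ Real.exp (2 * c * E.card) := by
  have h1 := (EulerProduct.summable_and_hasSum_factoredNumbers_prod_filter_prime_geometric
    (f := f) (fun {p} hp => by
      rw [Real.norm_eq_abs, abs_of_nonneg (hf0 p)]
      exact hf1 p hp) E).2
  have h2 : HasSum ((Nat.factoredNumbers E : Set ℕ).indicator f)
      (∏ p ∈ E with p.Prime, (1 - f p)⁻¹) := hasSum_subtype_iff_indicator.1 h1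
  have h3 : ∑ e ∈ smooth E g, f e ≤ ∏ p ∈ E with p.Prime, (1 - f p)⁻¹ := by
    have h4 := sum_le_hasSum (smooth E g)
      (fun i _ => Set.indicator_nonneg (fun n _ => hf0 n) i) h2
    refine le_trans (le_of_eq ?_) h4
    refine sum_congr rfl fun e he => ?_
    rw [Set.indicator_of_mem]
    exact Nat.mem_factoredNumbers'.2 (mem_smooth.1 he).2
  refine h3.trans ?_
  have h5 : E.filter (fun p => p.Prime) = E := filter_true_of_mem hE
  rw [h5]
  calc ∏ p ∈ E, (1 - f p)⁻¹ ≤ ∏ _p ∈ E, Real.exp (2 * c) := by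
        refine prod_le_prod (fun p hp => ?_) (fun p hp => inv_le_exp (hf0 p) (hc p hp) hc2)
        have := hf1 p (hE p hp)
        exact inv_nonneg.2 (by linarith)
    _ = Real.exp (2 * c * E.card) := by
        rw [prod_const, ← Real.exp_nat_mul]
        congr 1
        ring

/-- `1 / n` -/
noncomputable def f1 : ℕ →* ℝ where
  toFun n := (n : ℝ)⁻¹
  map_one' := by simp
  map_mul' m n := by
    push_cast
    rw [mul_inv]

/-- `1 / √n` -/
noncomputable def f2 : ℕ →* ℝ where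
  toFun n := (√(n : ℝ))⁻¹
  map_one' := by simp
  map_mul' m n := by
    push_cast
    rw [Real.sqrt_mul (Nat.cast_nonneg m), mul_inv]

theorem f1_apply (n : ℕ) : f1 n = (n : ℝ)⁻¹ := rfl

theorem f2_apply (n : ℕ) : f2 n = (√(n : ℝ))⁻¹ := rfl

theorem sum_f1 {E : Finset ℕ} {w : ℝ} (hw : 2 ≤ w) (hE : ∀ p ∈ E, p.Prime ∧ w < p) (g : ℕ) :
    ∑ e ∈ smooth E g, (e : ℝ)⁻¹ ≤ Real.exp (2 * w⁻¹ * E.card) := by
  refine euler f1 (fun n => ?_) (fun p hp => ?_) E (fun p hp => (hE p hp).1) w⁻¹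
    (fun p hp => ?_) ?_ g
  · rw [f1_apply]; positivity
  · rw [f1_apply]
    have : (1 : ℝ) < p := by exact_mod_cast hp.one_lt
    exact inv_lt_one_of_one_lt₀ this
  · rw [f1_apply]
    exact inv_anti₀ (by linarith) (hE p hp).2.le
  · rw [one_div]
    exact inv_anti₀ (by norm_num) hw

theorem sum_f2 {E : Finset ℕ} {w : ℝ} (hw : 4 ≤ w) (hE : ∀ p ∈ E, p.Prime ∧ w < p) (g : ℕ) :
    ∑ e ∈ smooth E g, (√(e : ℝ))⁻¹ ≤ Real.exp (2 * (√w)⁻¹ * E.card) := by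
  have hw2 : 2 ≤ √w := by
    rw [show (2 : ℝ) = √4 by rw [show (4 : ℝ) = 2 ^ 2 by norm_num]; simp]
    exact Real.sqrt_le_sqrt hw
  refine euler f2 (fun n => ?_) (fun p hp => ?_) E (fun p hp => (hE p hp).1) (√w)⁻¹
    (fun p hp => ?_) ?_ g
  · rw [f2_apply]; positivity
  · rw [f2_apply]
    have : (1 : ℝ) < p := by exact_mod_cast hp.one_lt
    refine inv_lt_one_of_one_lt₀ ?_
    rw [show (1 : ℝ) = √1 by simp]
    exact Real.sqrt_lt_sqrt (by norm_num) this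
  · rw [f2_apply]
    exact inv_anti₀ (by linarith) (Real.sqrt_le_sqrt (hE p hp).2.le)
  · rw [one_div]
    exact inv_anti₀ (by norm_num) hw2

/-- the number of the primes of `E` -/
theorem card_E {E : Finset ℕ} {w G : ℝ} (hw : 1 < w) (hG : 0 < G)
    (hE : ∀ p ∈ E, p.Prime ∧ w < p) (hprod : ∏ p ∈ E, (p : ℝ) ≤ G ^ 2) :
    (E.card : ℝ) * Real.log w ≤ 2 * Real.log G := by
  have h1 : w ^ E.card ≤ G ^ 2 := by
    calc w ^ E.card = ∏ _p ∈ E, w := by rw [prod_const]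
      _ ≤ ∏ p ∈ E, (p : ℝ) := prod_le_prod (fun p _ => by linarith) (fun p hp => (hE p hp).2.le)
      _ ≤ G ^ 2 := hprod
  have h2 := Real.log_le_log (pow_pos (by linarith) _) h1
  rw [Real.log_pow, Real.log_pow] at h2
  exact_mod_cast h2

/-! ### The pointwise bound -/

theorem rough_card_le (y t : ℕ) : (rough y t).card ≤ t := by
  unfold rough
  refine (card_filter_le _ _).trans ?_
  simp

theorem pointwise {K ε : ℝ} {g T₁ : ℕ} (hg1 : 1 ≤ g) (hε : 0 < ε)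
    (hlog : 0 < Real.log g) (hT : (T₁ : ℝ) ≤ √(g : ℝ) - 1)
    (hcub : (g : ℝ) ^ (1 / 3 : ℝ) ≤ √(g : ℝ) - 1)
    (h1 : ∀ y : ℕ, (g : ℝ) ≤ K * (y : ℝ) ^ 2 →
      ((rough y g).card : ℝ) ≤ (1 + ε / 2) * g / Real.log g)
    (h2 : ∀ t : ℕ, T₁ ≤ t → ∀ y : ℕ, (t : ℝ) ≤ K * (y : ℝ) ^ 2 →
      ((rough y t).card : ℝ) ≤ (1 + 1) * t / Real.log t)
    (y : ℕ) (hy : (g : ℝ) ≤ K * (y : ℝ) ^ 2) (e : ℕ) (he : 1 ≤ e) :
    ((rough y (g / e)).card : ℝ) ≤ (if e = 1 then (1 + ε / 2) * ((g : ℝ) / Real.log g) -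
      6 * ((g : ℝ) / Real.log g) else 0) + 6 * ((g : ℝ) / Real.log g) * (e : ℝ)⁻¹ +
      (g : ℝ) ^ (3 / 4 : ℝ) * (√(e : ℝ))⁻¹ := by
  have hg0 : (0 : ℝ) < g := by exact_mod_cast hg1
  have he0 : (0 : ℝ) < e := by exact_mod_cast he
  have hG : 0 ≤ (g : ℝ) / Real.log g := (div_pos hg0 hlog).le
  have hdiv : ((g / e : ℕ) : ℝ) ≤ (g : ℝ) / e := Nat.cast_div_le
  have hthird : 0 ≤ (g : ℝ) ^ (3 / 4 : ℝ) * (√(e : ℝ))⁻¹ := by positivity
  by_cases h : e = 1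
  · subst h
    rw [if_pos rfl, Nat.div_one]
    have h3 := h1 y hy
    have h4 : (1 + ε / 2) * (g : ℝ) / Real.log g = (1 + ε / 2) * ((g : ℝ) / Real.log g) := by ring
    rw [h4] at h3
    have h5 : 6 * ((g : ℝ) / Real.log g) * ((1 : ℕ) : ℝ)⁻¹ = 6 * ((g : ℝ) / Real.log g) := by simp
    rw [h5]
    linarith
  · rw [if_neg h, zero_add]
    rcases le_or_gt (e : ℝ) (√(g : ℝ)) with hle | hgt
    · -- small `e`
      have h3 : √(g : ℝ) ≤ (g : ℝ) / e := by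
        rw [le_div_iff₀ he0]
        calc √(g : ℝ) * e ≤ √(g : ℝ) * √(g : ℝ) :=
              mul_le_mul_of_nonneg_left hle (Real.sqrt_nonneg _)
          _ = g := Real.mul_self_sqrt hg0.le
      have h4 : (g : ℝ) / e - 1 < ((g / e : ℕ) : ℝ) := by
        have h5 : (g : ℝ) / e < ((g / e : ℕ) : ℝ) + 1 := by
          rw [div_lt_iff₀ he0]
          have h6 : g < (g / e + 1) * e := by
            have := Nat.lt_mul_div_succ g (by omega : 0 < e)
            rw [mul_comm]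
            exact this
          exact_mod_cast h6
        linarith
      have h5 : √(g : ℝ) - 1 ≤ ((g / e : ℕ) : ℝ) := by linarith
      have h6 : T₁ ≤ g / e := by exact_mod_cast hT.trans h5
      have h7 : ((g / e : ℕ) : ℝ) ≤ K * (y : ℝ) ^ 2 := by
        refine le_trans ?_ hy
        exact_mod_cast Nat.div_le_self g e
      have h8 := h2 (g / e) h6 y h7
      have h9 : (g : ℝ) ^ (1 / 3 : ℝ) ≤ ((g / e : ℕ) : ℝ) := hcub.trans h5
      have h10 : Real.log g / 3 ≤ Real.log ((g / e : ℕ) : ℝ) := by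
        have h11 := Real.log_le_log (Real.rpow_pos_of_pos hg0 _) h9
        rw [Real.log_rpow hg0] at h11
        linarith
      have h11 : 0 < Real.log g / 3 := by positivity
      have h12 : (1 + 1) * ((g / e : ℕ) : ℝ) / Real.log ((g / e : ℕ) : ℝ) ≤
          6 * ((g : ℝ) / Real.log g) * (e : ℝ)⁻¹ := by
        rw [div_le_iff₀ (h11.trans_le h10)]
        have h13 : 6 * ((g : ℝ) / Real.log g) * (e : ℝ)⁻¹ * (Real.log g / 3) =
            2 * ((g : ℝ) / e) := by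
          field_simp
          ring
        have h14 : 6 * ((g : ℝ) / Real.log g) * (e : ℝ)⁻¹ * (Real.log g / 3) ≤
            6 * ((g : ℝ) / Real.log g) * (e : ℝ)⁻¹ * Real.log ((g / e : ℕ) : ℝ) :=
          mul_le_mul_of_nonneg_left h10 (by positivity)
        rw [h13] at h14
        linarith
      linarith
    · -- large `e`
      have h3 : ((rough y (g / e)).card : ℝ) ≤ ((g / e : ℕ) : ℝ) := by
        exact_mod_cast rough_card_le y (g / e)
      have h4 : (g : ℝ) / e ≤ (g : ℝ) ^ (3 / 4 : ℝ) * (√(e : ℝ))⁻¹ := by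
        have hse : 0 < √(e : ℝ) := Real.sqrt_pos.2 he0
        have h5 : (g : ℝ) ^ (1 / 4 : ℝ) ≤ √(e : ℝ) := by
          have h6 : (g : ℝ) ^ (1 / 4 : ℝ) = √(√(g : ℝ)) := by
            rw [Real.sqrt_eq_rpow, Real.sqrt_eq_rpow, ← Real.rpow_mul hg0.le]
            norm_num
          rw [h6]
          exact Real.sqrt_le_sqrt hgt.le
        have h7 : (g : ℝ) = (g : ℝ) ^ (3 / 4 : ℝ) * (g : ℝ) ^ (1 / 4 : ℝ) := by
          rw [← Real.rpow_add hg0]
          norm_num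
        rw [div_le_iff₀ he0]
        have h8 : (g : ℝ) ^ (3 / 4 : ℝ) * (√(e : ℝ))⁻¹ * e = (g : ℝ) ^ (3 / 4 : ℝ) * √(e : ℝ) := by
          have h9 : (e : ℝ) = √(e : ℝ) * √(e : ℝ) := (Real.mul_self_sqrt he0.le).symm
          calc (g : ℝ) ^ (3 / 4 : ℝ) * (√(e : ℝ))⁻¹ * e
              = (g : ℝ) ^ (3 / 4 : ℝ) * (√(e : ℝ))⁻¹ * (√(e : ℝ) * √(e : ℝ)) := by rw [← h9]
            _ = (g : ℝ) ^ (3 / 4 : ℝ) * √(e : ℝ) := by
                field_simp
        rw [h8]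
        calc (g : ℝ) = (g : ℝ) ^ (3 / 4 : ℝ) * (g : ℝ) ^ (1 / 4 : ℝ) := h7
          _ ≤ (g : ℝ) ^ (3 / 4 : ℝ) * √(e : ℝ) :=
              mul_le_mul_of_nonneg_left h5 (Real.rpow_nonneg hg0.le _)
      have h5 : 0 ≤ 6 * ((g : ℝ) / Real.log g) * (e : ℝ)⁻¹ := by positivity
      linarith

/-- the bound for one `g` -/
theorem one_g {K ε : ℝ} {g T₁ : ℕ} (hg1 : 1 ≤ g) (hε : 0 < ε)
    (hT : (T₁ : ℝ) ≤ √(g : ℝ) - 1) (hcub : (g : ℝ) ^ (1 / 3 : ℝ) ≤ √(g : ℝ) - 1)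
    (h1 : ∀ y : ℕ, (g : ℝ) ≤ K * (y : ℝ) ^ 2 →
      ((rough y g).card : ℝ) ≤ (1 + ε / 2) * g / Real.log g)
    (h2 : ∀ t : ℕ, T₁ ≤ t → ∀ y : ℕ, (t : ℝ) ≤ K * (y : ℝ) ^ 2 →
      ((rough y t).card : ℝ) ≤ (1 + 1) * t / Real.log t)
    (hw : 4 ≤ Real.log g / 2)
    (hc1 : 6 * (Real.exp (8 / Real.log (Real.log g / 2)) - 1) ≤ ε / 4)
    (hc2 : 32 ≤ √(Real.log g / 2) * Real.log (Real.log g / 2))
    (hc3 : (g : ℝ) ^ (7 / 8 : ℝ) ≤ ε / 4 * ((g : ℝ) / Real.log g))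
    (y : ℕ) (hy : (g : ℝ) ≤ K * (y : ℝ) ^ 2) (E : Finset ℕ)
    (hE : ∀ p ∈ E, p.Prime ∧ Real.log g / 2 < p) (hprod : ∏ p ∈ E, (p : ℝ) ≤ (g : ℝ) ^ 2)
    (A : Finset ℕ) (hA : ∀ n ∈ A, (1 ≤ n ∧ n ≤ g) ∧ ∀ p ≤ y, p.Prime → p ∣ n → p ∈ E) :
    (A.card : ℝ) ≤ (1 + ε) * g / Real.log g := by
  obtain ⟨w, hwdef⟩ : ∃ w, w = Real.log g / 2 := ⟨_, rfl⟩
  rw [← hwdef] at hw hc1 hc2 hE
  have hg0 : (0 : ℝ) < g := by exact_mod_cast hg1
  have hlog : 0 < Real.log g := by linarith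
  have hG : 0 ≤ (g : ℝ) / Real.log g := (div_pos hg0 hlog).le
  have hw0 : 0 < w := by linarith
  have hlw : 0 < Real.log w := Real.log_pos (by linarith)
  have hsw : 0 < √w := Real.sqrt_pos.2 hw0
  have hcard := card_E (by linarith : (1 : ℝ) < w) hg0 hE hprod
  have hcard2 : (E.card : ℝ) ≤ 4 * w / Real.log w := by
    rw [le_div_iff₀ hlw]
    linarith
  have hs1 : ∑ e ∈ smooth E g, (e : ℝ)⁻¹ ≤ Real.exp (8 / Real.log w) := by
    refine (sum_f1 (by linarith) hE g).trans (Real.exp_le_exp.2 ?_)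
    calc 2 * w⁻¹ * (E.card : ℝ) ≤ 2 * w⁻¹ * (4 * w / Real.log w) :=
          mul_le_mul_of_nonneg_left hcard2 (by positivity)
      _ = 8 / Real.log w := by
          field_simp
          norm_num
  have hs2 : ∑ e ∈ smooth E g, (√(e : ℝ))⁻¹ ≤ (g : ℝ) ^ (1 / 8 : ℝ) := by
    refine (sum_f2 hw hE g).trans ?_
    rw [Real.rpow_def_of_pos hg0]
    refine Real.exp_le_exp.2 ?_
    have h3 : Real.log g = 2 * w := by rw [hwdef]; ring
    rw [h3]
    calc 2 * (√w)⁻¹ * (E.card : ℝ) ≤ 2 * (√w)⁻¹ * (4 * w / Real.log w) :=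
          mul_le_mul_of_nonneg_left hcard2 (by positivity)
      _ ≤ 2 * w * (1 / 8) := by
          have h4 : 2 * (√w)⁻¹ * (4 * w / Real.log w) = 8 * w / (√w * Real.log w) := by
            field_simp
            norm_num
          rw [h4, div_le_iff₀ (by positivity)]
          nlinarith [mul_le_mul_of_nonneg_left hc2 hw0.le]
  have h1mem : 1 ∈ smooth E g := by
    rw [mem_smooth]
    refine ⟨⟨le_rfl, hg1⟩, fun p hp hd => ?_⟩
    exact absurd (Nat.dvd_one.1 hd) hp.one_lt.ne'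
  have hsum : (A.card : ℝ) ≤ ∑ e ∈ smooth E g, ((rough y (g / e)).card : ℝ) := by
    exact_mod_cast card_le y g E A hA
  refine hsum.trans ?_
  calc ∑ e ∈ smooth E g, ((rough y (g / e)).card : ℝ)
      ≤ ∑ e ∈ smooth E g, ((if e = 1 then (1 + ε / 2) * ((g : ℝ) / Real.log g) -
        6 * ((g : ℝ) / Real.log g) else 0) + 6 * ((g : ℝ) / Real.log g) * (e : ℝ)⁻¹ +
        (g : ℝ) ^ (3 / 4 : ℝ) * (√(e : ℝ))⁻¹) :=
        sum_le_sum fun e he => pointwise hg1 hε hlog hT hcub h1 h2 y hy e (mem_smooth.1 he).1.1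
    _ = ((1 + ε / 2) * ((g : ℝ) / Real.log g) - 6 * ((g : ℝ) / Real.log g)) +
        6 * ((g : ℝ) / Real.log g) * ∑ e ∈ smooth E g, (e : ℝ)⁻¹ +
        (g : ℝ) ^ (3 / 4 : ℝ) * ∑ e ∈ smooth E g, (√(e : ℝ))⁻¹ := by
        rw [sum_add_distrib, sum_add_distrib, ← mul_sum, ← mul_sum, sum_ite_eq' (smooth E g) 1,
          if_pos h1mem]
    _ ≤ ((1 + ε / 2) * ((g : ℝ) / Real.log g) - 6 * ((g : ℝ) / Real.log g)) +
        6 * ((g : ℝ) / Real.log g) * Real.exp (8 / Real.log w) +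
        (g : ℝ) ^ (3 / 4 : ℝ) * (g : ℝ) ^ (1 / 8 : ℝ) := by
        have a1 := mul_le_mul_of_nonneg_left hs1 (by positivity : 0 ≤ 6 * ((g : ℝ) / Real.log g))
        have a2 := mul_le_mul_of_nonneg_left hs2 (by positivity : 0 ≤ (g : ℝ) ^ (3 / 4 : ℝ))
        linarith
    _ = (1 + ε / 2) * ((g : ℝ) / Real.log g) +
        (6 * (Real.exp (8 / Real.log w) - 1)) * ((g : ℝ) / Real.log g) + (g : ℝ) ^ (7 / 8 : ℝ) := by
        have : (g : ℝ) ^ (3 / 4 : ℝ) * (g : ℝ) ^ (1 / 8 : ℝ) = (g : ℝ) ^ (7 / 8 : ℝ) := by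
          rw [← Real.rpow_add hg0]
          norm_num
        rw [this]
        ring
    _ ≤ (1 + ε / 2) * ((g : ℝ) / Real.log g) + ε / 4 * ((g : ℝ) / Real.log g) +
        ε / 4 * ((g : ℝ) / Real.log g) := by
        have a1 := mul_le_mul_of_nonneg_right hc1 hG
        linarith
    _ = (1 + ε) * g / Real.log g := by ring

end Cnt

open Cnt in
theorem t_cnt (h : S_phi) : S_cnt := by
  intro K ε hK hε
  have hph : ∀ᶠ g : ℕ in atTop, ∀ y : ℕ, (g : ℝ) ≤ K * (y : ℝ) ^ 2 →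
      ((rough y g).card : ℝ) ≤ (1 + ε / 2) * g / Real.log g := h K (ε / 2) hK (by positivity)
  obtain ⟨T₁, hT₁⟩ := eventually_atTop.1 (h K 1 hK one_pos)
  have hlogt : Tendsto (fun g : ℕ => Real.log (g : ℝ)) atTop atTop :=
    Real.tendsto_log_atTop.comp tendsto_natCast_atTop_atTop
  have hwt : Tendsto (fun g : ℕ => Real.log (g : ℝ) / 2) atTop atTop :=
    hlogt.atTop_div_const (by norm_num)
  have hlwt : Tendsto (fun g : ℕ => Real.log (Real.log (g : ℝ) / 2)) atTop atTop :=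
    Real.tendsto_log_atTop.comp hwt
  have hsqt : Tendsto (fun g : ℕ => √(Real.log (g : ℝ) / 2)) atTop atTop :=
    Real.tendsto_sqrt_atTop.comp hwt
  have c1 : ∀ᶠ g : ℕ in atTop, 6 * (Real.exp (8 / Real.log (Real.log g / 2)) - 1) ≤ ε / 4 := by
    have h1 : Tendsto (fun g : ℕ => 8 / Real.log (Real.log (g : ℝ) / 2)) atTop (𝓝 0) :=
      hlwt.const_div_atTop 8
    have h2 : Tendsto (fun g : ℕ => 6 * (Real.exp (8 / Real.log (Real.log (g : ℝ) / 2)) - 1))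
        atTop (𝓝 (6 * (Real.exp 0 - 1))) :=
      ((Real.continuous_exp.continuousAt.tendsto.comp h1).sub_const 1).const_mul 6
    rw [Real.exp_zero, sub_self, mul_zero] at h2
    exact h2.eventually_le_const (by positivity)
  have c2 : ∀ᶠ g : ℕ in atTop, 32 ≤ √(Real.log g / 2) * Real.log (Real.log g / 2) :=
    (hsqt.atTop_mul_atTop₀ hlwt).eventually_ge_atTop 32
  have c3 : ∀ᶠ g : ℕ in atTop, (g : ℝ) ^ (7 / 8 : ℝ) ≤ ε / 4 * ((g : ℝ) / Real.log g) := by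
    have h1 := (isLittleO_log_rpow_atTop (show (0 : ℝ) < 1 / 8 by norm_num)).def
      (show (0 : ℝ) < ε / 4 by positivity)
    have h2 := tendsto_natCast_atTop_atTop (R := ℝ) |>.eventually h1
    filter_upwards [h2, eventually_ge_atTop 2] with g h3 hg
    have hg0 : (0 : ℝ) < g := by
      have : 0 < g := by omega
      exact_mod_cast this
    have hg1 : (1 : ℝ) < g := by
      have : 1 < g := by omega
      exact_mod_cast this
    have hl : 0 < Real.log g := Real.log_pos hg1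
    rw [Real.norm_eq_abs, Real.norm_eq_abs, abs_of_pos hl,
      abs_of_pos (Real.rpow_pos_of_pos hg0 _)] at h3
    rw [← mul_div_assoc, le_div_iff₀ hl]
    calc (g : ℝ) ^ (7 / 8 : ℝ) * Real.log g
        ≤ (g : ℝ) ^ (7 / 8 : ℝ) * (ε / 4 * (g : ℝ) ^ (1 / 8 : ℝ)) :=
          mul_le_mul_of_nonneg_left h3 (Real.rpow_nonneg hg0.le _)
      _ = ε / 4 * ((g : ℝ) ^ (7 / 8 : ℝ) * (g : ℝ) ^ (1 / 8 : ℝ)) := by ring
      _ = ε / 4 * g := by
          rw [← Real.rpow_add hg0]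
          norm_num
  have c4 : ∀ᶠ g : ℕ in atTop, (T₁ : ℝ) ≤ √(g : ℝ) - 1 := by
    have h1 : Tendsto (fun g : ℕ => √(g : ℝ)) atTop atTop :=
      Real.tendsto_sqrt_atTop.comp tendsto_natCast_atTop_atTop
    filter_upwards [h1.eventually_ge_atTop ((T₁ : ℝ) + 1)] with g hg
    linarith
  have c5 : ∀ᶠ g : ℕ in atTop, (g : ℝ) ^ (1 / 3 : ℝ) ≤ √(g : ℝ) - 1 := by
    have h1 : Tendsto (fun g : ℕ => (g : ℝ) ^ (1 / 6 : ℝ)) atTop atTop :=
      (tendsto_rpow_atTop (by norm_num)).comp tendsto_natCast_atTop_atTop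
    filter_upwards [h1.eventually_ge_atTop 2, eventually_ge_atTop 1] with g hg hg1
    have hg0 : (0 : ℝ) < g := by exact_mod_cast hg1
    have e1 : √(g : ℝ) = (g : ℝ) ^ (1 / 6 : ℝ) * (g : ℝ) ^ (1 / 3 : ℝ) := by
      rw [Real.sqrt_eq_rpow, ← Real.rpow_add hg0]
      norm_num
    have e2 : 1 ≤ (g : ℝ) ^ (1 / 3 : ℝ) :=
      Real.one_le_rpow (by exact_mod_cast hg1) (by norm_num)
    rw [e1]
    nlinarith
  filter_upwards [hph, c1, c2, c3, c4, c5, hwt.eventually_ge_atTop 4, eventually_ge_atTop 1]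
    with g g1 g2 g3 g4 g5 g6 g7 g8
  intro y hy E hE hprod
  refine one_g (T₁ := T₁) g8 hε g5 g6 g1 (fun t ht y hy => hT₁ t ht y hy) g7 g2 g3 g4 y hy E hE
    hprod _ ?_
  intro n hn
  rw [mem_filter, mem_Icc] at hn
  exact hn

end Pool.Agent.H559.EG
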