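import Pool.Agent.H559.EG.Stm

set_option autoImplicit false

/-! # The upper bound for the triples (`S_det3`) -/

open Finset MeasureTheory ProbabilityTheory Filter Topology
open Pool.Agent.T2H32.BF (Model V V_pos V_anti V_ratio mertens pnt cnt Surv)
open Pool.Agent.H559.BS (TT)
open Pool.Agent.H559.IX (R0 Lim)

namespace Pool.Agent.H559.EG

namespace Det3

theorem card_shift (p h a : ℕ) (hp : 0 < p) (hh : h < p) :
    ((range p).filter (fun u => (u + a) % p = h)).card = 1 := by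
  rw [Finset.card_eq_one]
  refine ⟨(h + (p - a % p)) % p, ?_⟩
  have hlt : (h + (p - a % p)) % p < p := Nat.mod_lt _ hp
  have hmod : ((h + (p - a % p)) % p + a) % p = h := by
    rw [Nat.mod_add_mod]
    have h1 := Nat.mod_lt a hp
    have h2 : h + (p - a % p) + a = h + p * (1 + a / p) := by
      have h3 := Nat.mod_add_div a p
      have h4 : p * (1 + a / p) = p + p * (a / p) := by ring
      omega
    rw [h2, Nat.add_mul_mod_self_left, Nat.mod_eq_of_lt hh]
  ext u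
  rw [Finset.mem_filter, Finset.mem_range, Finset.mem_singleton]
  constructor
  · rintro ⟨h1, h2⟩
    have h3 : u + a ≡ (h + (p - a % p)) % p + a [MOD p] := by
      unfold Nat.ModEq
      rw [h2, hmod]
    have h4 : u ≡ (h + (p - a % p)) % p [MOD p] := Nat.ModEq.add_right_cancel' a h3
    unfold Nat.ModEq at h4
    rw [Nat.mod_eq_of_lt h1, Nat.mod_eq_of_lt hlt] at h4
    exact h4
  · rintro rfl
    exact ⟨hlt, hmod⟩

/-- the three classes -/
def Tri (p h m g : ℕ) : Finset ℕ :=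
  (range p).filter (fun u => u % p = h ∨ (u + m) % p = h ∨ (u + g) % p = h)

theorem Tri_eq (p h m g : ℕ) : Tri p h m g = ((range p).filter (fun u => (u + 0) % p = h)) ∪
    (((range p).filter (fun u => (u + m) % p = h)) ∪ ((range p).filter (fun u => (u + g) % p = h))) := by
  unfold Tri
  rw [Finset.filter_or, Finset.filter_or]
  rfl

theorem Tri_card_le (p h m g : ℕ) (hp : 0 < p) (hh : h < p) : (Tri p h m g).card ≤ 3 := by
  rw [Tri_eq]
  refine (Finset.card_union_le _ _).trans ?_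
  have h1 := Finset.card_union_le ((range p).filter (fun u => (u + m) % p = h))
    ((range p).filter (fun u => (u + g) % p = h))
  rw [card_shift p h m hp hh, card_shift p h g hp hh] at h1
  rw [card_shift p h 0 hp hh]
  omega

theorem disj (p h a a' : ℕ) (ha : a ≤ a') (hd : ¬ p ∣ a' - a) :
    Disjoint ((range p).filter (fun u => (u + a) % p = h))
      ((range p).filter (fun u => (u + a') % p = h)) := by
  rw [Finset.disjoint_left]
  intro u h1 h2
  rw [Finset.mem_filter] at h1 h2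
  apply hd
  have h3 : u + a ≡ u + a' [MOD p] := by
    unfold Nat.ModEq
    rw [h1.2, h2.2]
  have h4 : a ≡ a' [MOD p] := Nat.ModEq.add_left_cancel' u h3
  exact (Nat.modEq_iff_dvd' ha).1 h4

theorem Tri_card (p h m g : ℕ) (hp : 0 < p) (hh : h < p) (hmg : m ≤ g) (h1 : ¬ p ∣ m) (h2 : ¬ p ∣ g)
    (h3 : ¬ p ∣ g - m) : (Tri p h m g).card = 3 := by
  rw [Tri_eq, Finset.card_union_of_disjoint, Finset.card_union_of_disjoint (disj p h m g hmg h3),
    card_shift p h m hp hh, card_shift p h g hp hh, card_shift p h 0 hp hh]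
  rw [Finset.disjoint_union_right]
  exact ⟨disj p h 0 m (Nat.zero_le _) (by rwa [Nat.sub_zero]),
    disj p h 0 g (Nat.zero_le _) (by rwa [Nat.sub_zero])⟩

open Classical in
/-- the classes for the sieve -/
noncomputable def Om (y w₁ w₂ m g : ℕ) (b : ℕ → ℕ) (p : ℕ) : Finset ℕ :=
  if p ≤ y ∨ (w₁ < p ∧ p ≤ w₂) then ∅ else Tri p (if p ≤ w₁ then 0 else b p) m g

theorem hh_lt {w₁ : ℕ} {b : ℕ → ℕ} (hb : ∀ p, p.Prime → b p < p) {p : ℕ} (hp : p.Prime) :
    (if p ≤ w₁ then 0 else b p) < p := by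
  split_ifs
  · exact hp.pos
  · exact hb p hp

theorem Om_sub (y w₁ w₂ m g : ℕ) (b : ℕ → ℕ) (p : ℕ) : Om y w₁ w₂ m g b p ⊆ range p := by
  unfold Om
  split_ifs
  · exact Finset.empty_subset _
  · exact Finset.filter_subset _ _
  · exact Finset.filter_subset _ _

theorem Om_card_le {y w₁ w₂ m g : ℕ} {b : ℕ → ℕ} (hb : ∀ p, p.Prime → b p < p) {p : ℕ}
    (hp : p.Prime) : (Om y w₁ w₂ m g b p).card ≤ 3 := by
  unfold Om
  by_cases h : p ≤ y ∨ (w₁ < p ∧ p ≤ w₂)
  · rw [if_pos h]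
    simp
  · rw [if_neg h]
    exact Tri_card_le _ _ _ _ hp.pos (hh_lt hb hp)

theorem Om_card {y w₁ w₂ m g : ℕ} {b : ℕ → ℕ} (hb : ∀ p, p.Prime → b p < p) {p : ℕ}
    (hp : p.Prime) (hmg : m ≤ g) (h : ¬ (p ≤ y ∨ (w₁ < p ∧ p ≤ w₂))) (h1 : ¬ p ∣ m * (g - m) * g) :
    (Om y w₁ w₂ m g b p).card = 3 := by
  unfold Om
  rw [if_neg h]
  refine Tri_card _ _ _ _ hp.pos (hh_lt hb hp) hmg (fun h2 => h1 ?_) (fun h2 => h1 ?_)
    (fun h2 => h1 ?_)
  · exact dvd_mul_of_dvd_left (dvd_mul_of_dvd_left h2 _) _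
  · exact dvd_mul_of_dvd_right h2 _
  · exact dvd_mul_of_dvd_left (dvd_mul_of_dvd_right h2 _) _

theorem Om_not {y w₁ w₂ D m g : ℕ} {b : ℕ → ℕ} {v : ℕ} (h0 : Wk w₁ w₂ D b v)
    (h1 : Wk w₁ w₂ D b (v + m)) (h2 : Wk w₁ w₂ D b (v + g)) {p : ℕ} (hpD : p ≤ D) (hp : p.Prime) :
    v % p ∉ Om y w₁ w₂ m g b p := by
  unfold Om
  by_cases h : p ≤ y ∨ (w₁ < p ∧ p ≤ w₂)
  · rw [if_pos h]
    exact Finset.notMem_empty _
  · rw [if_neg h]
    intro hv
    unfold Tri at hv
    rw [Finset.mem_filter] at hv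
    obtain ⟨-, hv⟩ := hv
    rw [Nat.mod_mod, Nat.mod_add_mod, Nat.mod_add_mod] at hv
    have a0 := h0 p hpD hp
    have a1 := h1 p hpD hp
    have a2 := h2 p hpD hp
    by_cases hw : p ≤ w₁
    · rw [if_pos hw] at hv
      rcases hv with hv | hv | hv
      · exact a0.1 hw hv
      · exact a1.1 hw hv
      · exact a2.1 hw hv
    · rw [if_neg hw] at hv
      have hw2 : w₂ < p := by
        by_contra hc
        exact h (Or.inr ⟨not_le.1 hw, not_lt.1 hc⟩)
      rcases hv with hv | hv | hv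
      · exact a0.2 hw2 hv
      · exact a1.2 hw2 hv
      · exact a2.2 hw2 hv

/-- a prime divisor of the primorial -/
theorem dvd_primorial {p y : ℕ} (hp : p.Prime) (h : p ∣ primorial y) : p ≤ y := by
  unfold primorial at h
  obtain ⟨q, hq, hpq⟩ := (Prime.dvd_finsetProd_iff hp.prime _).1 h
  rw [Finset.mem_filter, Finset.mem_range] at hq
  have : p = q := (Nat.prime_dvd_prime_iff_eq hp hq.2).1 hpq
  omega

/-! ### the product -/

/-- the large primes dividing `N` -/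
theorem bad_card {y D N : ℕ} (hN : N ≠ 0) (hNy : N < y ^ 7) :
    (((Ioc y D).filter Nat.Prime).filter (fun p => p ∣ N)).card ≤ 7 := by
  set s := ((Ioc y D).filter Nat.Prime).filter (fun p => p ∣ N) with hs
  by_contra hc
  push Not at hc
  have h1 : ∏ p ∈ s, p ∣ N := by
    apply Finset.prod_primes_dvd
    · intro p hp
      rw [hs, Finset.mem_filter, Finset.mem_filter] at hp
      exact hp.1.2.prime
    · intro p hp
      rw [hs, Finset.mem_filter] at hp
      exact hp.2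
  have h2 : ∏ p ∈ s, p ≤ N := Nat.le_of_dvd (Nat.pos_of_ne_zero hN) h1
  have h3 : y ^ s.card ≤ ∏ p ∈ s, p := by
    rw [← Finset.prod_const]
    apply Finset.prod_le_prod'
    intro p hp
    rw [hs, Finset.mem_filter, Finset.mem_filter, Finset.mem_Ioc] at hp
    exact hp.1.1.1.le
  have hy : 1 ≤ y := by
    rcases Nat.eq_zero_or_pos y with h | h
    · subst h; simp at hNy
    · exact h
  have h4 : y ^ 7 ≤ y ^ s.card := Nat.pow_le_pow_right hy (by omega)
  omega

theorem fac_le {p : ℝ} (hp : 6 ≤ p) {e : ℝ} (he : 6 / p ≤ e) : 1 ≤ (1 - 3 / p) * Real.exp e := by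
  have h0 : (0 : ℝ) < p := by linarith
  have h1 : 1 + 6 / p ≤ Real.exp e := by
    have := Real.add_one_le_exp e
    linarith
  have h2 : 0 ≤ 1 - 3 / p := by
    rw [sub_nonneg, div_le_one h0]
    linarith
  have h3 : 1 ≤ (1 - 3 / p) * (1 + 6 / p) := by
    have e1 : (1 - 3 / p) * (1 + 6 / p) = 1 + (3 * p - 18) / p ^ 2 := by
      field_simp
      ring
    rw [e1]
    have : 0 ≤ (3 * p - 18) / p ^ 2 := div_nonneg (by linarith) (by positivity)
    linarith
  exact h3.trans (mul_le_mul_of_nonneg_left h1 h2)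

open Classical in
theorem prod_bound {y w₁ w₂ D N : ℕ} (hy : 6 ≤ y) (hw1 : 0 < w₁) (hw : w₁ ≤ w₂) (hN : N ≠ 0)
    (hNy : N < y ^ 7) (n : ℕ → ℕ) (hn0 : ∀ p, p.Prime → n p ≤ p)
    (hn : ∀ p, p.Prime → ¬ (p ≤ y ∨ (w₁ < p ∧ p ≤ w₂)) → ¬ p ∣ N → n p = 3) :
    ∏ p ∈ (range (D + 1)).filter Nat.Prime, (1 - (n p : ℝ) / p) ≤
      pr 3 y D * Real.exp (42 / y + 6 * ((w₂ : ℝ) - w₁) / w₁) := by
  have hyR : (6 : ℝ) ≤ y := by exact_mod_cast hy
  have hnn : ∀ p, p.Prime → 0 ≤ 1 - (n p : ℝ) / p := by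
    intro p hp
    have h0 : (0 : ℝ) < p := by exact_mod_cast hp.pos
    rw [sub_nonneg, div_le_one h0]
    exact_mod_cast hn0 p hp
  have hle1 : ∀ p : ℕ, 1 - (n p : ℝ) / p ≤ 1 := by
    intro p
    have : 0 ≤ (n p : ℝ) / p := by positivity
    linarith
  have hsub : (Ioc y D).filter Nat.Prime ⊆ (range (D + 1)).filter Nat.Prime := by
    intro p hp
    rw [Finset.mem_filter, Finset.mem_Ioc] at hp
    rw [Finset.mem_filter, Finset.mem_range]
    exact ⟨by omega, hp.2⟩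
  have h1 : ∏ p ∈ (range (D + 1)).filter Nat.Prime, (1 - (n p : ℝ) / p) ≤
      ∏ p ∈ (Ioc y D).filter Nat.Prime, (1 - (n p : ℝ) / p) := by
    rw [← Finset.prod_sdiff hsub]
    have a1 : ∏ p ∈ (range (D + 1)).filter Nat.Prime \ (Ioc y D).filter Nat.Prime,
        (1 - (n p : ℝ) / p) ≤ 1 := by
      apply Finset.prod_le_one
      · intro p hp
        rw [Finset.mem_sdiff, Finset.mem_filter] at hp
        exact hnn p hp.1.2
      · intro p _
        exact hle1 p
    have a2 : 0 ≤ ∏ p ∈ (Ioc y D).filter Nat.Prime, (1 - (n p : ℝ) / p) := by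
      apply Finset.prod_nonneg
      intro p hp
      rw [Finset.mem_filter] at hp
      exact hnn p hp.2
    calc _ ≤ 1 * ∏ p ∈ (Ioc y D).filter Nat.Prime, (1 - (n p : ℝ) / p) :=
          mul_le_mul_of_nonneg_right a1 a2
      _ = _ := one_mul _
  refine h1.trans ?_
  set e : ℕ → ℝ := fun p => (if w₁ < p ∧ p ≤ w₂ then 6 / (p : ℝ) else 0) +
    (if p ∣ N then 6 / (p : ℝ) else 0) with he
  have hefac : ∀ p ∈ (Ioc y D).filter Nat.Prime, 1 - (n p : ℝ) / p ≤
      (1 - 3 / (p : ℝ)) * Real.exp (e p) := by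
    intro p hp
    rw [Finset.mem_filter, Finset.mem_Ioc] at hp
    obtain ⟨⟨h2, h3⟩, h4⟩ := hp
    have hp6 : (6 : ℝ) ≤ p := by
      have : (y : ℝ) ≤ p := by exact_mod_cast h2.le
      linarith
    have hpos : 0 ≤ 6 / (p : ℝ) := by positivity
    by_cases hmid : w₁ < p ∧ p ≤ w₂
    · refine (hle1 p).trans (fac_le hp6 ?_)
      rw [he]
      simp only [if_pos hmid]
      split_ifs <;> linarith
    · by_cases hbad : p ∣ N
      · refine (hle1 p).trans (fac_le hp6 ?_)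
        rw [he]
        simp only [if_neg hmid, if_pos hbad]
        linarith
      · have h5 : n p = 3 := hn p h4 (fun h => h.elim (fun h => absurd h (not_le.2 h2)) hmid) hbad
        have h6 : e p = 0 := by
          rw [he]
          simp only [if_neg hmid, if_neg hbad, add_zero]
        rw [h5, h6, Real.exp_zero, mul_one]
        push_cast
        exact le_rfl
  have h2 : ∏ p ∈ (Ioc y D).filter Nat.Prime, (1 - (n p : ℝ) / p) ≤
      ∏ p ∈ (Ioc y D).filter Nat.Prime, ((1 - 3 / (p : ℝ)) * Real.exp (e p)) := by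
    apply Finset.prod_le_prod
    · intro p hp
      rw [Finset.mem_filter] at hp
      exact hnn p hp.2
    · exact hefac
  refine h2.trans ?_
  rw [Finset.prod_mul_distrib, ← Real.exp_sum]
  have hpr : pr 3 y D = ∏ p ∈ (Ioc y D).filter Nat.Prime, (1 - 3 / (p : ℝ)) := rfl
  have hpr0 : 0 ≤ pr 3 y D := by
    rw [hpr]
    apply Finset.prod_nonneg
    intro p hp
    rw [Finset.mem_filter, Finset.mem_Ioc] at hp
    have hp6 : (6 : ℝ) ≤ p := by
      have : (y : ℝ) ≤ p := by exact_mod_cast hp.1.1.le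
      linarith
    rw [sub_nonneg, div_le_one (by linarith)]
    linarith
  rw [← hpr]
  refine mul_le_mul_of_nonneg_left (Real.exp_le_exp.2 ?_) hpr0
  have hw1R : (0 : ℝ) < w₁ := by exact_mod_cast hw1
  have s1 : ∑ p ∈ (Ioc y D).filter Nat.Prime, (if w₁ < p ∧ p ≤ w₂ then 6 / (p : ℝ) else 0) ≤
      6 * ((w₂ : ℝ) - w₁) / w₁ := by
    rw [← Finset.sum_filter]
    have b1 : ∀ p ∈ ((Ioc y D).filter Nat.Prime).filter (fun p => w₁ < p ∧ p ≤ w₂),
        6 / (p : ℝ) ≤ 6 / w₁ := by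
      intro p hp
      rw [Finset.mem_filter] at hp
      apply div_le_div_of_nonneg_left (by norm_num) hw1R
      exact_mod_cast hp.2.1.le
    have b2 : ((Ioc y D).filter Nat.Prime).filter (fun p => w₁ < p ∧ p ≤ w₂) ⊆ Ioc w₁ w₂ := by
      intro p hp
      rw [Finset.mem_filter] at hp
      rw [Finset.mem_Ioc]
      exact hp.2
    have b3 := Finset.card_le_card b2
    rw [Nat.card_Ioc] at b3
    have b4 : ((((Ioc y D).filter Nat.Prime).filter (fun p => w₁ < p ∧ p ≤ w₂)).card : ℝ) ≤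
        (w₂ : ℝ) - w₁ := by
      rw [← Nat.cast_sub hw]
      exact_mod_cast b3
    refine (Finset.sum_le_card_nsmul _ _ _ b1).trans ?_
    rw [nsmul_eq_mul]
    calc _ ≤ ((w₂ : ℝ) - w₁) * (6 / w₁) := mul_le_mul_of_nonneg_right b4 (by positivity)
      _ = _ := by ring
  have s2 : ∑ p ∈ (Ioc y D).filter Nat.Prime, (if p ∣ N then 6 / (p : ℝ) else 0) ≤ 42 / y := by
    rw [← Finset.sum_filter]
    have b1 : ∀ p ∈ ((Ioc y D).filter Nat.Prime).filter (fun p => p ∣ N),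
        6 / (p : ℝ) ≤ 6 / y := by
      intro p hp
      rw [Finset.mem_filter, Finset.mem_filter, Finset.mem_Ioc] at hp
      apply div_le_div_of_nonneg_left (by norm_num) (by linarith)
      exact_mod_cast hp.1.1.1.le
    refine (Finset.sum_le_card_nsmul _ _ _ b1).trans ?_
    rw [nsmul_eq_mul]
    have b4 : ((((Ioc y D).filter Nat.Prime).filter (fun p => p ∣ N)).card : ℝ) ≤ 7 := by
      exact_mod_cast bad_card (D := D) hN hNy
    calc _ ≤ (7 : ℝ) * (6 / y) := mul_le_mul_of_nonneg_right b4 (by positivity)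
      _ = _ := by ring
  rw [he, Finset.sum_add_distrib]
  linarith

/-- lower bound for `pr 3 y D` -/
theorem pr_lower {y : ℕ} (hy : 6 ≤ y) : ∀ D : ℕ, 1 ≤ D → 1 / (D : ℝ) ^ 4 ≤ pr 3 y D := by
  intro D hD
  induction D, hD using Nat.le_induction with
  | base =>
    unfold pr
    rw [Finset.Ioc_eq_empty (by omega)]
    simp
  | succ D hD ih =>
    have hD0 : (0 : ℝ) < D := by exact_mod_cast hD
    by_cases hyD : D + 1 ≤ y
    · unfold pr
      rw [Finset.Ioc_eq_empty (by omega)]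
      simp only [Finset.filter_empty, Finset.prod_empty]
      rw [div_le_one (by positivity)]
      push_cast
      exact one_le_pow₀ (by linarith)
    · have hins : Ioc y (D + 1) = insert (D + 1) (Ioc y D) := by
        ext z
        rw [Finset.mem_insert, Finset.mem_Ioc, Finset.mem_Ioc]
        omega
      have hstep : pr 3 y D * (1 - 1 / ((D : ℝ) + 1)) ^ 4 ≤ pr 3 y (D + 1) := by
        have hp0 : 0 ≤ pr 3 y D := le_trans (by positivity) ih
        have ht0 : 0 ≤ 1 - 1 / ((D : ℝ) + 1) := by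
          rw [sub_nonneg, div_le_one (by linarith)]
          linarith
        have ht1 : 1 - 1 / ((D : ℝ) + 1) ≤ 1 := by
          have : 0 ≤ 1 / ((D : ℝ) + 1) := by positivity
          linarith
        unfold pr
        rw [hins, Finset.filter_insert]
        by_cases hpr : (D + 1).Prime
        · rw [if_pos hpr, Finset.prod_insert (by
            rw [Finset.mem_filter, Finset.mem_Ioc]; omega), mul_comm]
          refine mul_le_mul_of_nonneg_right ?_ hp0
          set t : ℝ := 1 / ((D : ℝ) + 1) with ht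
          have h6 : t ≤ 1 / 6 := by
            rw [ht]
            apply one_div_le_one_div_of_le (by norm_num)
            have : 6 ≤ D := by omega
            have : (6 : ℝ) ≤ D := by exact_mod_cast this
            linarith
          have ht0' : 0 ≤ t := by positivity
          have e1 : 1 - 3 / ((D + 1 : ℕ) : ℝ) = 1 - 3 * t := by
            rw [ht]; push_cast; ring
          rw [e1]
          nlinarith [mul_nonneg ht0' (sub_nonneg.2 h6), mul_nonneg (mul_nonneg ht0' ht0') ht0',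
            mul_nonneg (mul_nonneg ht0' ht0') (mul_nonneg ht0' (sub_nonneg.2 h6))]
        · rw [if_neg hpr]
          exact mul_le_of_le_one_right hp0 (pow_le_one₀ ht0 ht1)
      refine le_trans ?_ hstep
      have e2 : 1 - 1 / ((D : ℝ) + 1) = D / (D + 1) := by field_simp; ring
      rw [e2]
      push_cast
      calc 1 / ((D : ℝ) + 1) ^ 4 = 1 / (D : ℝ) ^ 4 * (D / (D + 1)) ^ 4 := by
            field_simp
        _ ≤ pr 3 y D * (D / (D + 1)) ^ 4 := mul_le_mul_of_nonneg_right ih (by positivity)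

/-! ### asymptotics -/

theorem tlog : Tendsto (fun x : ℕ => Real.log x) atTop atTop :=
  Real.tendsto_log_atTop.comp tendsto_natCast_atTop_atTop

theorem ev_y (η : ℝ) (hη : 0 < η) (C : ℝ) :
    ∀ᶠ x : ℕ in atTop, C ≤ (yy η x : ℝ) ∧ η / 2 * Real.log x ≤ (yy η x : ℝ) := by
  filter_upwards [tlog.eventually_ge_atTop (2 / η), tlog.eventually_ge_atTop (2 * C / η)] with x h1 h2
  have a1 : 2 ≤ η * Real.log x := by
    rw [div_le_iff₀ hη] at h1
    linarith
  have a2 : 2 * C ≤ η * Real.log x := by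
    rw [div_le_iff₀ hη] at h2
    linarith
  have a3 : η * Real.log x - 1 < (yy η x : ℝ) := Nat.sub_one_lt_floor _
  constructor <;> linarith

theorem ev_ratio (c : ℝ) (δ : ℝ) (hδ : 0 < δ) :
    ∀ᶠ x : ℕ in atTop, Real.log (x : ℝ) ^ c ≤ (1 + δ) * Real.log ((x : ℝ) / 2) ^ c := by
  have t1 : Tendsto (fun x : ℕ => Real.log ((x : ℝ) / 2) / Real.log (x : ℝ)) atTop (𝓝 1) := by
    have t2 : Tendsto (fun x : ℕ => 1 - Real.log 2 / Real.log (x : ℝ)) atTop (𝓝 (1 - 0)) :=
      tendsto_const_nhds.sub (tlog.const_div_atTop _)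
    rw [sub_zero] at t2
    refine t2.congr' ?_
    filter_upwards [tlog.eventually_gt_atTop 0, eventually_gt_atTop 0] with x h1 h2
    have h3 : (x : ℝ) ≠ 0 := by exact_mod_cast h2.ne'
    rw [Real.log_div h3 (by norm_num)]
    field_simp
  have t3 : Tendsto (fun x : ℕ => (Real.log ((x : ℝ) / 2) / Real.log (x : ℝ)) ^ c) atTop (𝓝 1) := by
    have := t1.rpow_const (p := c) (Or.inl one_ne_zero)
    rwa [Real.one_rpow] at this
  have h4 : (1 + δ)⁻¹ < 1 := inv_lt_one_of_one_lt₀ (by linarith)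
  filter_upwards [t3.eventually_const_lt h4, tlog.eventually_gt_atTop 0, eventually_ge_atTop 2]
    with x h1 h2 h5
  have h6 : (2 : ℝ) ≤ x := by exact_mod_cast h5
  have h7 : 0 ≤ Real.log ((x : ℝ) / 2) := Real.log_nonneg (by linarith)
  rw [Real.div_rpow h7 h2.le] at h1
  have h8 : 0 < Real.log (x : ℝ) ^ c := Real.rpow_pos_of_pos h2 c
  rw [lt_div_iff₀ h8, inv_mul_lt_iff₀ (by linarith)] at h1
  exact h1.le

theorem tw (c : ℝ) (hc : 1 < c) :
    Tendsto (fun x : ℕ => Real.log ((x : ℝ) / 2) ^ c) atTop atTop := by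
  have h1 : Tendsto (fun x : ℕ => (x : ℝ) / 2) atTop atTop :=
    tendsto_natCast_atTop_atTop.atTop_div_const (by norm_num)
  exact (tendsto_rpow_atTop (by linarith)).comp (Real.tendsto_log_atTop.comp h1)

theorem ev_w (c : ℝ) (hc : 1 < c) (δ : ℝ) (hδ : 0 < δ) :
    ∀ᶠ x : ℕ in atTop, 0 < w1 c x ∧ w1 c x ≤ w2 c x ∧
      6 * ((w2 c x : ℝ) - w1 c x) / w1 c x ≤ δ := by
  filter_upwards [ev_ratio c (δ / 24) (by linarith), (tw c hc).eventually_ge_atTop 2,
    (tw c hc).eventually_ge_atTop (24 / δ), eventually_ge_atTop 2] with x h1 h2 h3 h4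
  set A := Real.log ((x : ℝ) / 2) ^ c with hA
  have h5 : (2 : ℝ) ≤ x := by exact_mod_cast h4
  have h6 : 0 ≤ Real.log ((x : ℝ) / 2) := Real.log_nonneg (by linarith)
  have h7 : Real.log ((x : ℝ) / 2) ≤ Real.log x := Real.log_le_log (by linarith) (by linarith)
  have h8 : A ≤ Real.log (x : ℝ) ^ c := Real.rpow_le_rpow h6 h7 (by linarith)
  have b1 : A - 1 < (w1 c x : ℝ) := Nat.sub_one_lt_floor _
  have b2 : (w2 c x : ℝ) ≤ Real.log (x : ℝ) ^ c := Nat.floor_le (by linarith)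
  have b3 : (0 : ℝ) < w1 c x := by linarith
  have h9 : 24 ≤ A * δ := by
    rw [div_le_iff₀ hδ] at h3
    exact h3
  refine ⟨by exact_mod_cast b3, Nat.floor_le_floor h8, ?_⟩
  rw [div_le_iff₀ b3]
  have b4 : (w2 c x : ℝ) - w1 c x ≤ A * δ / 12 := by
    have : (w2 c x : ℝ) ≤ A + δ / 24 * A := by linarith
    linarith
  have b5 : A * δ / 2 ≤ δ * w1 c x := by
    have : A / 2 ≤ (w1 c x : ℝ) := by linarith
    nlinarith
  linarith

theorem PP_le (η : ℝ) (hη4 : η ≤ 1 / 4) {x : ℕ} (hx : 1 ≤ x) :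
    (PP η x : ℝ) ≤ (x : ℝ) ^ (1 / 2 : ℝ) := by
  have hx0 : (1 : ℝ) ≤ x := by exact_mod_cast hx
  have hl : 0 ≤ Real.log (x : ℝ) := Real.log_nonneg hx0
  have h1 : (PP η x : ℝ) ≤ 4 ^ (yy η x) := by exact_mod_cast primorial_le_four_pow (yy η x)
  have h2 : (yy η x : ℝ) ≤ 1 / 4 * Real.log x := by
    unfold yy
    rcases le_or_gt 0 (η * Real.log x) with h | h
    · refine (Nat.floor_le h).trans ?_
      exact mul_le_mul_of_nonneg_right hη4 hl
    · rw [Nat.floor_of_nonpos h.le]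
      simp only [Nat.cast_zero]
      positivity
  have h3 : (4 : ℝ) ≤ Real.exp 2 := by
    have h5 := Real.add_one_le_exp (1 : ℝ)
    have h4 : Real.exp 2 = Real.exp 1 * Real.exp 1 := by rw [← Real.exp_add]; norm_num
    rw [h4]
    nlinarith
  calc (PP η x : ℝ) ≤ 4 ^ (yy η x) := h1
    _ ≤ (Real.exp 2) ^ (yy η x) := pow_le_pow_left₀ (by norm_num) h3 _
    _ = Real.exp ((yy η x : ℝ) * 2) := by rw [← Real.exp_nat_mul]
    _ ≤ Real.exp (Real.log x * (1 / 2)) := Real.exp_le_exp.2 (by linarith)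
    _ = (x : ℝ) ^ (1 / 2 : ℝ) := by rw [Real.rpow_def_of_pos (by linarith)]

theorem ev_err (c η K e : ℝ) (hc : 1 < c) (hη4 : η ≤ 1 / 4) (hK : 0 < K) (he : 0 < e) (B : ℕ) :
    ∀ᶠ x : ℕ in atTop, 1 ≤ D0 c x ∧
      K * ((D0 c x : ℝ) + 1) ^ B ≤ e * ((x : ℝ) / (2 * PP η x)) * (1 / (D0 c x : ℝ) ^ 4) := by
  set r : ℝ := (c + 12) * ((B + 4 : ℕ) : ℝ) with hr
  set C : ℝ := e / (2 * K * 2 ^ (B + 4)) with hC
  have hC0 : 0 < C := by positivity
  have h1 := ((isLittleO_log_rpow_rpow_atTop r (by norm_num : (0 : ℝ) < 1 / 2)).def hC0)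
  have h2 := tendsto_natCast_atTop_atTop.eventually h1
  filter_upwards [h2, tlog.eventually_ge_atTop 1, eventually_ge_atTop 1] with x h3 h4 h5
  have hx1 : (1 : ℝ) ≤ x := by exact_mod_cast h5
  have hl0 : (0 : ℝ) < Real.log x := by linarith
  set ℓ := Real.log (x : ℝ) with hℓ
  have h6 : (1 : ℝ) ≤ ℓ ^ (c + 12) := Real.one_le_rpow h4 (by linarith)
  have hD1 : 1 ≤ D0 c x := by
    unfold D0
    rw [Nat.one_le_floor_iff]
    exact h6
  refine ⟨hD1, ?_⟩
  have hDle : (D0 c x : ℝ) ≤ ℓ ^ (c + 12) := Nat.floor_le (by linarith)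
  have hDR : (1 : ℝ) ≤ D0 c x := by exact_mod_cast hD1
  have hQ := PP_le η hη4 h5
  have hQ0 : (0 : ℝ) < PP η x := by exact_mod_cast primorial_pos _
  rw [Real.norm_eq_abs, Real.norm_eq_abs, abs_of_nonneg (Real.rpow_nonneg hl0.le _),
    abs_of_nonneg (Real.rpow_nonneg (by linarith) _)] at h3
  have h7 : ((D0 c x : ℝ) + 1) ^ (B + 4) ≤ 2 ^ (B + 4) * ℓ ^ r := by
    have h8 : (D0 c x : ℝ) + 1 ≤ 2 * ℓ ^ (c + 12) := by linarith
    calc ((D0 c x : ℝ) + 1) ^ (B + 4) ≤ (2 * ℓ ^ (c + 12)) ^ (B + 4) :=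
          pow_le_pow_left₀ (by linarith) h8 _
      _ = 2 ^ (B + 4) * ℓ ^ r := by
          rw [mul_pow, hr, Real.rpow_mul hl0.le, Real.rpow_natCast]
  have h9 : (x : ℝ) ^ (1 / 2 : ℝ) * (x : ℝ) ^ (1 / 2 : ℝ) = x := by
    rw [← Real.rpow_add (by linarith)]
    norm_num
  set s := (x : ℝ) ^ (1 / 2 : ℝ) with hs
  have hs0 : 0 < s := Real.rpow_pos_of_pos (by linarith) _
  have h10 : 2 * K * (2 ^ (B + 4) * ℓ ^ r) ≤ e * s := by
    have : 2 * K * (2 ^ (B + 4) * (C * s)) = e * s := by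
      rw [hC]; field_simp
    rw [← this]
    have hp : (0 : ℝ) < 2 ^ (B + 4) := by positivity
    exact mul_le_mul_of_nonneg_left (mul_le_mul_of_nonneg_left h3 hp.le) (by linarith)
  have hD4 : (0 : ℝ) < (D0 c x : ℝ) ^ 4 := by positivity
  have h11 : K * ((D0 c x : ℝ) + 1) ^ B * (D0 c x : ℝ) ^ 4 * (2 * PP η x) ≤ e * x := by
    have a1 : (D0 c x : ℝ) ^ 4 ≤ ((D0 c x : ℝ) + 1) ^ 4 :=
      pow_le_pow_left₀ (by linarith) (by linarith) _
    have a2 : 0 ≤ ((D0 c x : ℝ) + 1) ^ B := by positivity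
    calc K * ((D0 c x : ℝ) + 1) ^ B * (D0 c x : ℝ) ^ 4 * (2 * PP η x)
        = 2 * K * (((D0 c x : ℝ) + 1) ^ B * (D0 c x : ℝ) ^ 4) * PP η x := by ring
      _ ≤ 2 * K * (((D0 c x : ℝ) + 1) ^ B * ((D0 c x : ℝ) + 1) ^ 4) * s := by
          apply mul_le_mul _ hQ hQ0.le (by positivity)
          exact mul_le_mul_of_nonneg_left (mul_le_mul_of_nonneg_left a1 a2) (by linarith)
      _ = 2 * K * ((D0 c x : ℝ) + 1) ^ (B + 4) * s := by rw [pow_add]
      _ ≤ 2 * K * (2 ^ (B + 4) * ℓ ^ r) * s :=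
          mul_le_mul_of_nonneg_right (mul_le_mul_of_nonneg_left h7 (by linarith)) hs0.le
      _ ≤ e * s * s := mul_le_mul_of_nonneg_right h10 hs0.le
      _ = e * x := by rw [mul_assoc, h9]
  have h12 : e * ((x : ℝ) / (2 * PP η x)) * (1 / (D0 c x : ℝ) ^ 4) =
      e * x / ((D0 c x : ℝ) ^ 4 * (2 * PP η x)) := by
    field_simp
  rw [h12, le_div_iff₀ (by positivity)]
  calc _ = K * ((D0 c x : ℝ) + 1) ^ B * (D0 c x : ℝ) ^ 4 * (2 * PP η x) := by ring
    _ ≤ _ := h11

end Det3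

open Det3 in
theorem t_det3 (h : S_ap) : S_det3 := by
  intro c η ε lam hc hη hη4 hε hlam
  set e : ℝ := min ε 1 / 4 with he
  have hm0 : 0 < min ε 1 := lt_min hε one_pos
  have he0 : 0 < e := by rw [he]; positivity
  have he1 : 4 * e ≤ ε := by rw [he]; linarith [min_le_left ε 1]
  have he2 : e ≤ 1 / 4 := by rw [he]; linarith [min_le_right ε 1]
  obtain ⟨B, K, hK, hap⟩ := h 3 e he0
  set δ : ℝ := Real.log (1 + e) / 2 with hδ
  have hδ0 : 0 < δ := by
    rw [hδ]
    have := Real.log_pos (by linarith : (1 : ℝ) < 1 + e)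
    linarith
  have hexp : Real.exp (δ + δ) = 1 + e := by
    have : δ + δ = Real.log (1 + e) := by rw [hδ]; ring
    rw [this, Real.exp_log (by linarith)]
  filter_upwards [ev_y η hη (max 6 (42 / δ)), ev_w c hc δ hδ0, ev_err c η K e hc hη4 hK he0 B,
    tlog.eventually_gt_atTop (lam ^ 3 * (2 / η) ^ 7), tlog.eventually_gt_atTop 0]
    with x h1 h2 h3 h4 h5
  intro g hg r hr b hb m hm hmg
  obtain ⟨hy1, hy2⟩ := h1
  obtain ⟨hw1, hw2, hw3⟩ := h2
  obtain ⟨hD1, herr⟩ := h3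
  have hy6R : (6 : ℝ) ≤ yy η x := (le_max_left _ _).trans hy1
  have hy6 : 6 ≤ yy η x := by exact_mod_cast hy6R
  have hy42 : 42 / (yy η x : ℝ) ≤ δ := by
    have a1 : 42 / δ ≤ (yy η x : ℝ) := (le_max_right _ _).trans hy1
    rw [div_le_iff₀ (by linarith)]
    rw [div_le_iff₀ hδ0] at a1
    linarith
  have hQ0 : 0 < PP η x := primorial_pos _
  have hQ0R : (0 : ℝ) < PP η x := by exact_mod_cast hQ0
  -- the number `N`
  have hN0 : m * (g - m) * g ≠ 0 := by
    have : 0 < g - m := Nat.sub_pos_of_lt hmg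
    have : 0 < g := by omega
    positivity
  have hNy : m * (g - m) * g < yy η x ^ 7 := by
    have a1 : m * (g - m) * g ≤ g ^ 3 := by
      calc m * (g - m) * g ≤ g * g * g :=
            Nat.mul_le_mul (Nat.mul_le_mul hmg.le (Nat.sub_le _ _)) le_rfl
        _ = g ^ 3 := by ring
    have a2 : (g : ℝ) ^ 3 < (yy η x : ℝ) ^ 7 := by
      have b1 : (g : ℝ) ^ 3 ≤ (lam * Real.log x ^ 2) ^ 3 :=
        pow_le_pow_left₀ (Nat.cast_nonneg _) hg _
      have b2 : (η / 2 * Real.log x) ^ 7 ≤ (yy η x : ℝ) ^ 7 :=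
        pow_le_pow_left₀ (by positivity) hy2 _
      have b3 : (lam * Real.log x ^ 2) ^ 3 < (η / 2 * Real.log x) ^ 7 := by
        have b4 : (lam * Real.log x ^ 2) ^ 3 = lam ^ 3 * Real.log x ^ 6 := by ring
        have b5 : (η / 2 * Real.log x) ^ 7 = (η / 2) ^ 7 * Real.log x * Real.log x ^ 6 := by ring
        rw [b4, b5]
        apply mul_lt_mul_of_pos_right _ (by positivity)
        have b6 : (η / 2) ^ 7 * (lam ^ 3 * (2 / η) ^ 7) < (η / 2) ^ 7 * Real.log x :=
          mul_lt_mul_of_pos_left h4 (by positivity)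
        have b7 : (η / 2) ^ 7 * (lam ^ 3 * (2 / η) ^ 7) = lam ^ 3 := by
          field_simp
        rw [b7] at b6
        exact b6
      linarith
    have a3 : g ^ 3 < yy η x ^ 7 := by exact_mod_cast a2
    omega
  -- the sieve
  have hsv := hap (D0 c x) (PP η x) r (Om (yy η x) (w1 c x) (w2 c x) m g b) hQ0 hr (by
    intro p _ hp
    refine ⟨Om_sub _ _ _ _ _ _ _, Om_card_le hb hp, fun hpQ => ?_⟩
    have := dvd_primorial hp hpQ
    unfold Om
    rw [if_pos (Or.inl this)]) (x / 2) (x - g - 1 - x / 2)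
  set N₀ : ℝ := (((Ioc (x / 2) (x / 2 + (x - g - 1 - x / 2))).filter (fun n => n % PP η x = r ∧
    ∀ p ≤ D0 c x, p.Prime → n % p ∉ Om (yy η x) (w1 c x) (w2 c x) m g b p)).card : ℝ) with hN₀
  set Pi : ℝ := ∏ p ∈ (range (D0 c x + 1)).filter Nat.Prime,
    (1 - ((Om (yy η x) (w1 c x) (w2 c x) m g b p).card : ℝ) / p) with hPi
  refine le_trans (b := N₀) ?_ ?_
  · rw [hN₀]
    refine Nat.cast_le.2 (Finset.card_le_card ?_)
    intro v hv
    have hv := (@Finset.mem_filter _ _ (_) _ _).1 hv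
    rw [Finset.mem_Ioc] at hv
    rw [Finset.mem_filter, Finset.mem_Ioc]
    refine ⟨⟨hv.1.1, by omega⟩, hv.2.1, fun p hpD hp => ?_⟩
    exact Om_not hv.2.2.1 hv.2.2.2.1 hv.2.2.2.2 hpD hp
  -- the product
  have hPi1 : Pi ≤ pr 3 (yy η x) (D0 c x) * (1 + e) := by
    have a1 := prod_bound (D := D0 c x) hy6 hw1 hw2 hN0 hNy
      (fun p => (Om (yy η x) (w1 c x) (w2 c x) m g b p).card)
      (fun p _ => by
        have := Finset.card_le_card (Om_sub (yy η x) (w1 c x) (w2 c x) m g b p)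
        rwa [Finset.card_range] at this)
      (fun p hp h6 h7 => Om_card hb hp hmg.le h6 h7)
    refine a1.trans ?_
    have a2 : 0 ≤ pr 3 (yy η x) (D0 c x) :=
      le_trans (by positivity) (pr_lower hy6 (D0 c x) hD1)
    refine mul_le_mul_of_nonneg_left ?_ a2
    rw [← hexp]
    exact Real.exp_le_exp.2 (add_le_add hy42 hw3)
  have hpr0 : 0 ≤ pr 3 (yy η x) (D0 c x) :=
    le_trans (by positivity) (pr_lower hy6 (D0 c x) hD1)
  have hPi0 : 0 ≤ Pi := by
    rw [hPi]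
    apply Finset.prod_nonneg
    intro p hp
    rw [Finset.mem_filter] at hp
    have hp0 : (0 : ℝ) < p := by exact_mod_cast hp.2.pos
    have := Finset.card_le_card (Om_sub (yy η x) (w1 c x) (w2 c x) m g b p)
    rw [Finset.card_range] at this
    rw [sub_nonneg, div_le_one hp0]
    exact_mod_cast this
  set X : ℝ := (x : ℝ) / (2 * PP η x) with hX
  have hX0 : 0 ≤ X := by rw [hX]; positivity
  have hlen : (((x - g - 1 - x / 2 : ℕ) : ℝ) / (PP η x : ℝ)) ≤ X := by
    have a1 : 2 * (x - g - 1 - x / 2) ≤ x := by omega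
    have a2 : 2 * (((x - g - 1 - x / 2 : ℕ) : ℝ)) ≤ x := by exact_mod_cast a1
    rw [hX, div_le_div_iff₀ hQ0R (by positivity)]
    nlinarith
  have hM : ((x - g - 1 - x / 2 : ℕ) : ℝ) / (PP η x : ℝ) * Pi ≤
      X * (pr 3 (yy η x) (D0 c x) * (1 + e)) :=
    mul_le_mul hlen hPi1 hPi0 hX0
  have hM0 : 0 ≤ ((x - g - 1 - x / 2 : ℕ) : ℝ) / (PP η x : ℝ) * Pi := by positivity
  have hE : K * ((D0 c x : ℝ) + 1) ^ B ≤ e * X * pr 3 (yy η x) (D0 c x) := by
    refine herr.trans ?_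
    exact mul_le_mul_of_nonneg_left (pr_lower hy6 (D0 c x) hD1) (by positivity)
  have hfin := (abs_le.1 hsv).2
  set P := pr 3 (yy η x) (D0 c x) with hP
  set Mn := ((x - g - 1 - x / 2 : ℕ) : ℝ) / (PP η x : ℝ) * Pi with hMn
  have hXP : 0 ≤ X * P := mul_nonneg hX0 hpr0
  have h6 : N₀ ≤ (1 + e) * Mn + e * X * P := by linarith
  have h7 : (1 + e) * Mn ≤ (1 + e) * (X * (P * (1 + e))) :=
    mul_le_mul_of_nonneg_left hM (by linarith)
  have h8 : (1 + e) * (X * (P * (1 + e))) + e * X * P = (1 + 3 * e + e * e) * (X * P) := by ring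
  have h9 : (1 + 3 * e + e * e) * (X * P) ≤ (1 + ε) * (X * P) := by
    refine mul_le_mul_of_nonneg_right ?_ hXP
    nlinarith
  calc N₀ ≤ (1 + e) * (X * (P * (1 + e))) + e * X * P := by linarith
    _ ≤ (1 + ε) * (X * P) := by rw [h8]; exact h9
    _ = (1 + ε) * X * P := by ring

end Pool.Agent.H559.EG
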