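import Pool.Agent.H559.EG.Stm

set_option autoImplicit false

/-! # The weak triples at level `x^δ`: numerical lemmas and the conditioning argument -/

open Finset MeasureTheory ProbabilityTheory Filter Topology
open Pool.Agent.T2H32.BF (Model V V_pos V_anti V_ratio mertens pnt cnt Surv)
open Pool.Agent.H559.BS (TT)

namespace Pool.Agent.H559.EG.N3

theorem primorial_ge (n : ℕ) (hn : 8 ≤ n) : (n / 8) ^ 3 ≤ primorial n := by
  obtain ⟨k, hk⟩ : ∃ k, k = n / 8 := ⟨_, rfl⟩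
  have hk1 : 1 ≤ k := by omega
  have hk8 : 8 * k ≤ n := by omega
  obtain ⟨p1, hp1, h1, h1'⟩ := Nat.exists_prime_lt_and_le_two_mul k (by omega)
  obtain ⟨p2, hp2, h2, h2'⟩ := Nat.exists_prime_lt_and_le_two_mul (2 * k) (by omega)
  obtain ⟨p3, hp3, h3, h3'⟩ := Nat.exists_prime_lt_and_le_two_mul (4 * k) (by omega)
  have hsub : ({p1, p2, p3} : Finset ℕ) ⊆ (range (n + 1)).filter Nat.Prime := by
    intro p hp
    simp only [mem_insert, mem_singleton] at hp
    rw [mem_filter, mem_range]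
    rcases hp with rfl | rfl | rfl
    · exact ⟨by omega, hp1⟩
    · exact ⟨by omega, hp2⟩
    · exact ⟨by omega, hp3⟩
  have hprod : ∏ p ∈ ({p1, p2, p3} : Finset ℕ), p = p1 * (p2 * p3) := by
    rw [prod_insert, prod_insert, prod_singleton]
    · rw [mem_singleton]
      omega
    · simp only [mem_insert, mem_singleton]
      omega
  have hle : p1 * (p2 * p3) ≤ primorial n := by
    rw [← hprod]
    unfold primorial
    exact prod_le_prod_of_subset_of_one_le' hsub (fun p hp _ => (mem_filter.1 hp).2.one_le)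
  rw [← hk]
  calc k ^ 3 = k * (k * k) := by ring
    _ ≤ p1 * (p2 * p3) := by
        gcongr
        · omega
        · omega
    _ ≤ _ := hle

theorem yy_top (η : ℝ) (hη : 0 < η) : Tendsto (yy η) atTop atTop := by
  have h1 : Tendsto (fun x : ℕ => η * Real.log x) atTop atTop :=
    Tendsto.const_mul_atTop hη Pool.Agent.H559.BS.log_top
  exact tendsto_nat_floor_atTop.comp h1

theorem PP_big (lam η : ℝ) (hlam : 0 < lam) (hη : 0 < η) : ∀ᶠ x : ℕ in atTop,
    lam * Real.log x ^ 2 < PP η x := by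
  have h1 : Tendsto (fun x : ℕ => Real.log x) atTop atTop := Pool.Agent.H559.BS.log_top
  filter_upwards [(yy_top η hη).eventually_ge_atTop 8, h1.eventually_ge_atTop 1,
    h1.eventually_ge_atTop (16 / η), h1.eventually_ge_atTop (lam * (32 / η) ^ 3 + 1)] with x hx hl hl2 hl3
  have h2 := primorial_ge (yy η x) hx
  have h3 : ((yy η x / 8 : ℕ) : ℝ) ^ 3 ≤ PP η x := by
    unfold PP
    exact_mod_cast h2
  have h4 : η * Real.log x < yy η x + 1 := Nat.lt_floor_add_one _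
  have h5 : ((yy η x : ℕ) : ℝ) + 1 ≤ 8 * ((yy η x / 8 : ℕ) : ℝ) + 8 := by
    have : yy η x + 1 ≤ 8 * (yy η x / 8) + 8 := by omega
    exact_mod_cast this
  have h6 : η * Real.log x ≤ 8 * ((yy η x / 8 : ℕ) : ℝ) + 8 := by linarith
  have h7 : 16 ≤ η * Real.log x := by
    rw [div_le_iff₀ hη] at hl2
    linarith
  have h8 : η * Real.log x / 32 ≤ ((yy η x / 8 : ℕ) : ℝ) := by linarith
  have h9 : (η * Real.log x / 32) ^ 3 ≤ PP η x := by
    refine le_trans ?_ h3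
    gcongr
  refine lt_of_lt_of_le ?_ h9
  have e : (η * Real.log x / 32) ^ 3 = (η / 32) ^ 3 * Real.log x * Real.log x ^ 2 := by ring
  rw [e]
  have h10 : lam < (η / 32) ^ 3 * Real.log x := by
    have h11 : lam * (32 / η) ^ 3 < Real.log x := by linarith
    have h12 : (η / 32) ^ 3 * (lam * (32 / η) ^ 3) = lam := by
      field_simp
    calc lam = (η / 32) ^ 3 * (lam * (32 / η) ^ 3) := h12.symm
      _ < (η / 32) ^ 3 * Real.log x := by
          gcongr
  have h13 : 0 < Real.log x ^ 2 := by positivity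
  exact mul_lt_mul_of_pos_right h10 h13

theorem D0_ge (c : ℝ) (hc : 1 < c) : ∀ᶠ x : ℕ in atTop, Real.log x ^ 13 / 2 ≤ (D0 c x : ℝ) := by
  have h1 : Tendsto (fun x : ℕ => Real.log x) atTop atTop := Pool.Agent.H559.BS.log_top
  filter_upwards [h1.eventually_ge_atTop 2] with x hx
  have h2 : Real.log x ^ 13 ≤ Real.log x ^ (c + 12) := by
    rw [← Real.rpow_natCast]
    refine Real.rpow_le_rpow_of_exponent_le (by linarith) ?_
    push_cast
    linarith
  have h3 : Real.log x ^ (c + 12) < (D0 c x : ℝ) + 1 := Nat.lt_floor_add_one _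
  have h4 : (2 : ℝ) ^ 13 ≤ Real.log x ^ 13 := by
    gcongr
  norm_num at h4
  linarith

theorem D0_TT (c δ : ℝ) (hδ : 0 < δ) : ∀ᶠ x : ℕ in atTop, D0 c x ≤ TT δ x := by
  have h1 : Tendsto (fun x : ℕ => Real.log x) atTop atTop := Pool.Agent.H559.BS.log_top
  filter_upwards [h1.eventually_ge_atTop 1, Pool.Agent.H559.BS.log_pow_le ⌈c + 12⌉₊ δ 1 hδ] with x hx h2
  unfold D0 TT
  refine Nat.floor_le_floor ?_
  rw [one_mul] at h2
  refine le_trans ?_ h2
  rw [← Real.rpow_natCast]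
  exact Real.rpow_le_rpow_of_exponent_le hx (Nat.le_ceil _)

theorem small_D0 (c η : ℝ) (hc : 1 < c) (hη : η ≤ 1 / 4) : ∀ᶠ x : ℕ in atTop,
    yy η x ≤ D0 c x ∧ w2 c x ≤ D0 c x ∧ w1 c x ≤ D0 c x := by
  have h1 : Tendsto (fun x : ℕ => Real.log x) atTop atTop := Pool.Agent.H559.BS.log_top
  filter_upwards [h1.eventually_ge_atTop 1, eventually_ge_atTop 2] with x hx hx2
  have hw2 : w2 c x ≤ D0 c x := by
    unfold w2 D0
    exact Nat.floor_le_floor (Real.rpow_le_rpow_of_exponent_le hx (by linarith))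
  refine ⟨?_, hw2, ?_⟩
  · unfold yy D0
    refine Nat.floor_le_floor ?_
    calc η * Real.log x ≤ 1 * Real.log x := by
          gcongr
          linarith
      _ = Real.log x ^ (1 : ℝ) := by rw [one_mul, Real.rpow_one]
      _ ≤ _ := Real.rpow_le_rpow_of_exponent_le hx (by linarith)
  · refine le_trans ?_ hw2
    unfold w1 w2
    refine Nat.floor_le_floor ?_
    have h3 : (2 : ℝ) ≤ x := by exact_mod_cast hx2
    refine Real.rpow_le_rpow (Real.log_nonneg (by linarith)) ?_ (by linarith)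
    exact Real.log_le_log (by positivity) (by linarith)

/-- `1 - 3u ≥ (1 - u)^5` for `0 ≤ u ≤ 1/5` -/
theorem pow_five (u : ℝ) (h0 : 0 ≤ u) (h1 : u ≤ 1 / 5) : (1 - u) ^ 5 ≤ 1 - 3 * u := by
  have e : (1 - 3 * u) - (1 - u) ^ 5 = u * ((2 - 10 * u) + u ^ 2 * (10 - 5 * u + u ^ 2)) := by ring
  have h2 : 0 ≤ u * ((2 - 10 * u) + u ^ 2 * (10 - 5 * u + u ^ 2)) := by
    refine mul_nonneg h0 (add_nonneg (by linarith) (mul_nonneg (by positivity) ?_))
    have : 0 ≤ u ^ 2 := by positivity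
    linarith
  linarith

theorem pr_pos (a b : ℕ) (ha : 4 ≤ a) : 0 < pr 3 a b := by
  unfold pr
  refine prod_pos fun p hp => ?_
  have h1 : (5 : ℝ) ≤ p := by
    have := (mem_Ioc.1 (mem_filter.1 hp).1).1
    exact_mod_cast (by omega : 5 ≤ p)
  have h2 : (3 : ℝ) / p ≤ 3 / 5 := by gcongr
  linarith

theorem pr_ge (a b : ℕ) (ha : 4 ≤ a) : V b ^ 5 ≤ pr 3 a b := by
  have hsub : (Ioc a b).filter Nat.Prime ⊆ (range (b + 1)).filter Nat.Prime := by
    intro p hp
    rw [mem_filter, mem_Ioc] at hp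
    rw [mem_filter, mem_range]
    exact ⟨by omega, hp.2⟩
  have hf : ∀ p : ℕ, p.Prime → 0 < 1 - 1 / (p : ℝ) ∧ 1 - 1 / (p : ℝ) ≤ 1 := by
    intro p hp
    have h1 : (2 : ℝ) ≤ p := by exact_mod_cast hp.two_le
    have h2 : 1 / (p : ℝ) ≤ 1 / 2 := by gcongr
    have h3 : 0 ≤ 1 / (p : ℝ) := by positivity
    constructor <;> linarith
  have h1 : V b ≤ ∏ p ∈ (Ioc a b).filter Nat.Prime, (1 - 1 / (p : ℝ)) := by
    unfold V
    rw [← prod_sdiff hsub]
    have h2 : ∏ p ∈ ((range (b + 1)).filter Nat.Prime) \ ((Ioc a b).filter Nat.Prime), (1 - 1 / (p : ℝ)) ≤ 1 := by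
      refine prod_le_one (fun p hp => (hf p (mem_filter.1 (mem_sdiff.1 hp).1).2).1.le)
        (fun p hp => (hf p (mem_filter.1 (mem_sdiff.1 hp).1).2).2)
    have h3 : 0 ≤ ∏ p ∈ (Ioc a b).filter Nat.Prime, (1 - 1 / (p : ℝ)) :=
      prod_nonneg fun p hp => (hf p (mem_filter.1 hp).2).1.le
    calc _ ≤ 1 * ∏ p ∈ (Ioc a b).filter Nat.Prime, (1 - 1 / (p : ℝ)) := by gcongr
      _ = _ := one_mul _
  calc V b ^ 5 ≤ (∏ p ∈ (Ioc a b).filter Nat.Prime, (1 - 1 / (p : ℝ))) ^ 5 := by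
        have := V_pos b
        gcongr
    _ = ∏ p ∈ (Ioc a b).filter Nat.Prime, (1 - 1 / (p : ℝ)) ^ 5 := by rw [prod_pow]
    _ ≤ pr 3 a b := by
        unfold pr
        refine prod_le_prod (fun p hp => ?_) (fun p hp => ?_)
        · have := (hf p (mem_filter.1 hp).2).1
          positivity
        · have h4 : (5 : ℝ) ≤ p := by
            have := (mem_Ioc.1 (mem_filter.1 hp).1).1
            exact_mod_cast (by omega : 5 ≤ p)
          have h5 := pow_five (1 / (p : ℝ)) (by positivity) (by gcongr)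
          have h6 : 3 * (1 / (p : ℝ)) = 3 / p := by ring
          rw [h6] at h5
          exact h5

theorem pr_mul (k : ℝ) (a b c : ℕ) (hab : a ≤ b) (hbc : b ≤ c) : pr k a b * pr k b c = pr k a c := by
  unfold pr
  rw [← prod_union]
  · refine prod_congr ?_ fun _ _ => rfl
    ext p
    simp only [mem_filter, mem_union, mem_Ioc]
    constructor
    · rintro (⟨h1, h2⟩ | ⟨h1, h2⟩)
      · exact ⟨⟨by omega, by omega⟩, h2⟩
      · exact ⟨⟨by omega, by omega⟩, h2⟩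
    · rintro ⟨h1, h2⟩
      by_cases h3 : p ≤ b
      · exact Or.inl ⟨⟨by omega, by omega⟩, h2⟩
      · exact Or.inr ⟨⟨by omega, by omega⟩, h2⟩
  · rw [disjoint_left]
    intro p hp hp'
    simp only [mem_filter, mem_Ioc] at hp hp'
    omega

theorem PP_pos (η : ℝ) (x : ℕ) : 0 < PP η x := primorial_pos _

theorem PP_le (η : ℝ) (hη : η ≤ 1 / 4) (x : ℕ) (hx : 1 ≤ x) : (PP η x : ℝ) ≤ (x : ℝ) ^ (1 / 2 : ℝ) := by
  have hx1 : (1 : ℝ) ≤ x := by exact_mod_cast hx
  have hl : 0 ≤ Real.log x := Real.log_nonneg hx1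
  have h1 : (PP η x : ℝ) ≤ (4 : ℝ) ^ (yy η x) := by
    unfold PP
    exact_mod_cast primorial_le_four_pow (yy η x)
  refine h1.trans ?_
  have h2 : (yy η x : ℝ) ≤ Real.log x / 4 := by
    by_cases h : 0 ≤ η * Real.log x
    · refine (Nat.floor_le h).trans ?_
      nlinarith
    · unfold yy
      rw [Nat.floor_of_nonpos (by linarith)]
      push_cast
      positivity
  have h3 : (4 : ℝ) ^ (yy η x) ≤ (4 : ℝ) ^ (Real.log x / 4) := by
    rw [← Real.rpow_natCast]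
    exact Real.rpow_le_rpow_of_exponent_le (by norm_num) h2
  refine h3.trans ?_
  rw [Real.rpow_def_of_pos (by norm_num), Real.rpow_def_of_pos (by linarith)]
  refine Real.exp_le_exp.2 ?_
  have h4 : Real.log 4 ≤ 2 := by
    have : Real.log 4 = 2 * Real.log 2 := by
      rw [show (4 : ℝ) = 2 ^ 2 by norm_num, Real.log_pow]
      push_cast
      ring
    rw [this]
    have := Real.log_two_lt_d9
    linarith
  nlinarith

theorem main_ge (δ η : ℝ) (hδ : 0 < δ) (hη : 0 < η) (hη4 : η ≤ 1 / 4) : ∀ᶠ x : ℕ in atTop,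
    Real.log x ^ 8 ≤ (x : ℝ) / (2 * PP η x) * pr 3 (yy η x) (TT δ x) := by
  have hl : Tendsto (fun x : ℕ => Real.log x) atTop atTop := Pool.Agent.H559.BS.log_top
  have hg := Pool.Agent.H559.BS.g_pos
  obtain ⟨κ, hκ⟩ : ∃ κ : ℝ, κ = Pool.Agent.H559.BS.g / (2 * δ) := ⟨_, rfl⟩
  have hκ0 : 0 < κ := by rw [hκ]; positivity
  filter_upwards [Pool.Agent.H559.BS.V_TT δ hδ, (yy_top η hη).eventually_ge_atTop 4,
    hl.eventually_ge_atTop 1, eventually_ge_atTop 1,
    Pool.Agent.H559.BS.log_pow_le 13 (1 / 2) (2 / κ ^ 5) (by norm_num)] with x h1 h2 h3 h4 h5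
  have hx : (1 : ℝ) ≤ x := by exact_mod_cast h4
  have hP0 : (0 : ℝ) < PP η x := by exact_mod_cast PP_pos η x
  have h6 := PP_le η hη4 x h4
  have h7 : (x : ℝ) ^ (1 / 2 : ℝ) * (x : ℝ) ^ (1 / 2 : ℝ) = x := by
    rw [← Real.rpow_add (by linarith)]
    norm_num
  have hs : 0 < (x : ℝ) ^ (1 / 2 : ℝ) := by positivity
  have h8 : (x : ℝ) ^ (1 / 2 : ℝ) / 2 ≤ (x : ℝ) / (2 * PP η x) := by
    rw [div_le_div_iff₀ (by norm_num) (by positivity)]
    nlinarith
  have h9 : (κ / Real.log x) ^ 5 ≤ pr 3 (yy η x) (TT δ x) := by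
    refine le_trans ?_ (pr_ge _ _ h2)
    have h10 : κ / Real.log x ≤ V (TT δ x) := by
      rw [div_le_iff₀ (by linarith), hκ]
      exact h1.2
    gcongr
  calc Real.log x ^ 8 ≤ (x : ℝ) ^ (1 / 2 : ℝ) / 2 * (κ / Real.log x) ^ 5 := by
        have h11 : 2 / κ ^ 5 * Real.log x ^ 13 ≤ (x : ℝ) ^ (1 / 2 : ℝ) := h5
        have h12 : (2 / κ ^ 5 * Real.log x ^ 13) / 2 * (κ / Real.log x) ^ 5 = Real.log x ^ 8 := by
          have : Real.log x ≠ 0 := by linarith
          field_simp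
        rw [← h12]
        gcongr
    _ ≤ _ := by gcongr


open Classical in
/-- the set in question -/
noncomputable def NS (u1 u2 T Q r lo hi m g : ℕ) (b : ℕ → ℕ) : Finset ℕ :=
  (Ioc lo hi).filter (fun v => v % Q = r ∧ Wk u1 u2 T b v ∧ Wk u1 u2 T b (v + m) ∧ Wk u1 u2 T b (v + g))

theorem mem_NS (u1 u2 T Q r lo hi m g : ℕ) (b : ℕ → ℕ) (v : ℕ) : v ∈ NS u1 u2 T Q r lo hi m g b ↔
    v ∈ Ioc lo hi ∧ v % Q = r ∧ Wk u1 u2 T b v ∧ Wk u1 u2 T b (v + m) ∧ Wk u1 u2 T b (v + g) := by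
  classical
  unfold NS
  exact mem_filter

theorem Wk_iff (u1 u2 D T : ℕ) (b : ℕ → ℕ) (hDT : D ≤ T) (h1 : u1 ≤ D) (h2 : u2 ≤ D) (v : ℕ) :
    Wk u1 u2 T b v ↔ Wk u1 u2 D b v ∧ ∀ p ∈ (Ioc D T).filter Nat.Prime, v % p ≠ b p := by
  constructor
  · intro h
    refine ⟨fun p hp hpr => h p (hp.trans hDT) hpr, fun p hp => ?_⟩
    rw [mem_filter, mem_Ioc] at hp
    exact (h p hp.1.2 hp.2).2 (by omega)
  · rintro ⟨h3, h4⟩ p hp hpr
    by_cases hpD : p ≤ D
    · exact h3 p hpD hpr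
    · exact ⟨fun h => by omega, fun _ => h4 p (mem_filter.2 ⟨mem_Ioc.2 ⟨by omega, hp⟩, hpr⟩)⟩

theorem Wk_imp (u1 u2 D : ℕ) (b b' : ℕ → ℕ) (h : ∀ p ≤ D, b p = b' p) (v : ℕ) (hW : Wk u1 u2 D b v) :
    Wk u1 u2 D b' v := by
  intro p hp hpr
  have h1 := hW p hp hpr
  rw [h p hp] at h1
  exact h1

theorem Wk_congr (u1 u2 D : ℕ) (b b' : ℕ → ℕ) (h : ∀ p ≤ D, b p = b' p) (v : ℕ) :
    Wk u1 u2 D b v ↔ Wk u1 u2 D b' v :=
  ⟨Wk_imp u1 u2 D b b' h v, Wk_imp u1 u2 D b' b (fun p hp => (h p hp).symm) v⟩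

theorem NS_congr (u1 u2 T Q r lo hi m g : ℕ) (b b' : ℕ → ℕ) (h : ∀ p ≤ T, b p = b' p) :
    NS u1 u2 T Q r lo hi m g b = NS u1 u2 T Q r lo hi m g b' := by
  ext v
  rw [mem_NS, mem_NS, Wk_congr u1 u2 T b b' h v, Wk_congr u1 u2 T b b' h (v + m), Wk_congr u1 u2 T b b' h (v + g)]

theorem cnt_eq {Ω : Type} (a : ℕ → Ω → ℕ) (I B : Finset ℕ) (A : ℕ → Finset ℕ) (J : Finset ℕ) (ω : Ω)
    (hJ : ∀ v, v ∈ J ↔ v ∈ I ∧ ω ∈ Surv a B (A v)) :
    cnt I (fun i => Surv a B (A i)) ω = (J.card : ℝ) := by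
  classical
  have e : J = I.filter (fun i => ω ∈ Surv a B (A i)) := by
    ext v
    rw [mem_filter]
    exact hJ v
  rw [e]
  unfold cnt
  rw [card_filter, Nat.cast_sum]
  refine sum_congr rfl fun u _ => ?_
  by_cases h : ω ∈ Surv a B (A u)
  · rw [if_pos h, Set.indicator_of_mem h]
    simp
  · rw [if_neg h, Set.indicator_of_notMem h]
    simp

theorem mod_ne (p u v : ℕ) (huv : u < v) (h : v < u + p) : u % p ≠ v % p := by
  intro h1
  have h2 : (p : ℤ) ∣ (v : ℤ) - u := (Nat.modEq_iff_dvd.1 h1)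
  obtain ⟨k, hk⟩ := h2
  have h3 : (0 : ℤ) < p * k := by
    rw [← hk]
    omega
  have h4 : (p : ℤ) * k < p * 1 := by
    rw [← hk]
    omega
  have hp : (0 : ℤ) < p := by omega
  have h5 : 0 < k := by
    by_contra h7
    have h8 : k ≤ 0 := by omega
    nlinarith
  have h6 : k < 1 := lt_of_mul_lt_mul_left h4 hp.le
  omega

theorem same_mod (Q u v : ℕ) (h : u % Q = v % Q) (huv : u < v) : u + Q ≤ v := by
  by_contra h1
  exact mod_ne Q u v huv (by omega) h


variable {Ω : Type} [MeasurableSpace Ω] {P : Measure Ω} {a : ℕ → Ω → ℕ}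

set_option linter.unusedVariables false in
/-- the estimate after fixing the classes of the primes `≤ D` -/
theorem fixed (hM : Model P a) (h2 : S_sec) (x g r m u1 u2 D T Q : ℕ) (θ Y : ℝ) (hθ : 0 < θ) (hθ2 : θ ≤ 1 / 2)
    (hY : 0 < Y) (hW : 0 < pr 3 D T) (hu1 : u1 ≤ D) (hu2 : u2 ≤ D) (hDT : D ≤ T) (hD : 100 ≤ D) (hx : 1 ≤ x)
    (hlog : 40 * Real.log x ≤ D) (hgD : g < D) (hgQ : g < Q) (hm0 : 0 < m) (hmg : m < g) (α : ℕ → ℕ)
    (hcard : ((NS u1 u2 D Q r (x / 2) (x - g - 1) m g α).card : ℝ) ≤ (1 + θ / 4) * Y) (N : Ω → Finset ℕ)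
    (hN : ∀ ω v, v ∈ N ω ↔ v ∈ NS u1 u2 D Q r (x / 2) (x - g - 1) m g α ∧
      ∀ p ∈ (Ioc D T).filter Nat.Prime, v % p ≠ a p ω ∧ (v + m) % p ≠ a p ω ∧ (v + g) % p ≠ a p ω) :
    P.real {ω | (1 + θ) * (Y * pr 3 D T) < ((N ω).card : ℝ)} ≤
      16 / θ ^ 2 * (1 / (Y * pr 3 D T) + 40 * Real.log x / D) := by
  have := Pool.Agent.T2H32.BF.prob hM
  have hx1 : (1 : ℝ) ≤ x := by exact_mod_cast hx
  have hl : 0 ≤ Real.log x := Real.log_nonneg hx1
  have hD0 : (0 : ℝ) < D := by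
    have : (100 : ℝ) ≤ D := by exact_mod_cast hD
    linarith
  obtain ⟨I, hI⟩ : ∃ I, I = NS u1 u2 D Q r (x / 2) (x - g - 1) m g α := ⟨_, rfl⟩
  rw [← hI] at hcard
  obtain ⟨B, hB⟩ : ∃ B, B = (Ioc D T).filter Nat.Prime := ⟨_, rfl⟩
  have hIm : ∀ v ∈ I, x / 2 < v ∧ v ≤ x - g - 1 ∧ v % Q = r := by
    intro v hv
    rw [hI, mem_NS, mem_Ioc] at hv
    exact ⟨hv.1.1, hv.1.2, hv.2.1⟩
  have hBp : ∀ p ∈ B, p.Prime ∧ D < p := by
    intro p hp
    rw [hB, mem_filter, mem_Ioc] at hp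
    exact ⟨hp.2, hp.1.1⟩
  have hprod : ∏ p ∈ B, (1 - ((3 : ℕ) : ℝ) / (p : ℝ)) = pr 3 D T := by
    rw [hB]
    unfold pr
    refine prod_congr rfl fun p _ => ?_
    norm_num
  obtain ⟨Y', hY'⟩ : ∃ Y', Y' = Y * pr 3 D T := ⟨_, rfl⟩
  have hY0 : 0 < Y' := by rw [hY']; positivity
  obtain ⟨μ', hμ'⟩ : ∃ μ', μ' = (1 + θ / 4) * Y' := ⟨_, rfl⟩
  have hμ0 : 0 < μ' := by rw [hμ']; positivity
  have hμ1 : Y' ≤ μ' := by
    rw [hμ']
    nlinarith
  have hsec := h2 Ω P a hM I (fun v => {v, v + m, v + g}) 3 x D B le_rfl hD hx hlog hBp (by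
    intro v hv
    obtain ⟨h3, h4, h5⟩ := hIm v hv
    refine ⟨?_, ?_, ?_⟩
    · rw [card_insert_of_notMem, card_insert_of_notMem, card_singleton]
      · rw [mem_singleton]
        omega
      · simp only [mem_insert, mem_singleton]
        omega
    · intro n hn
      simp only [mem_insert, mem_singleton] at hn
      omega
    · intro p hp n hn n' hn' hne
      have hpD := (hBp p hp).2
      simp only [mem_insert, mem_singleton] at hn hn'
      rcases lt_or_gt_of_ne hne with h6 | h6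
      · exact mod_ne p n n' h6 (by omega)
      · exact (mod_ne p n' n h6 (by omega)).symm) (by
    intro v hv w hw hne
    obtain ⟨_, _, h5⟩ := hIm v hv
    obtain ⟨_, _, h6⟩ := hIm w hw
    rw [disjoint_left]
    intro n hn hn'
    simp only [mem_insert, mem_singleton] at hn hn'
    rcases lt_or_gt_of_ne hne with h7 | h7
    · have := same_mod Q v w (h5.trans h6.symm) h7
      omega
    · have := same_mod Q w v (h6.trans h5.symm) h7
      omega) (θ / 4 * μ') (by positivity)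
  rw [hprod] at hsec
  obtain ⟨μ, hμ⟩ : ∃ μ, μ = (I.card : ℝ) * pr 3 D T := ⟨_, rfl⟩
  rw [← hμ] at hsec
  have hμm : μ ≤ μ' := by
    rw [hμ, hμ', hY', ← mul_assoc]
    gcongr
  have hμn : 0 ≤ μ := by rw [hμ]; positivity
  have hsub : {ω | (1 + θ) * (Y * pr 3 D T) < ((N ω).card : ℝ)} ⊆
      {ω | θ / 4 * μ' ≤ |cnt I (fun i => Surv a B {i, i + m, i + g}) ω - μ|} := by
    intro ω hω
    have h3 : (1 + θ) * (Y * pr 3 D T) < ((N ω).card : ℝ) := hω
    have h4 : cnt I (fun i => Surv a B {i, i + m, i + g}) ω = ((N ω).card : ℝ) := by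
      refine cnt_eq a I B (fun i => {i, i + m, i + g}) (N ω) ω fun v => ?_
      rw [hN, ← hI, ← hB]
      refine and_congr_right fun _ => ?_
      constructor
      · intro h5 p hp u hu
        have h6 := h5 p hp
        simp only [mem_insert, mem_singleton] at hu
        rcases hu with rfl | rfl | rfl
        · exact h6.1
        · exact h6.2.1
        · exact h6.2.2
      · intro h5 p hp
        exact ⟨h5 p hp v (by simp), h5 p hp (v + m) (by simp), h5 p hp (v + g) (by simp)⟩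
    show θ / 4 * μ' ≤ |cnt I (fun i => Surv a B {i, i + m, i + g}) ω - μ|
    rw [h4]
    refine le_trans ?_ (le_abs_self _)
    rw [← hY'] at h3
    have h5 : μ' + θ / 4 * μ' ≤ (1 + θ) * Y' := by
      rw [hμ']
      have e : (1 + θ) * Y' - ((1 + θ / 4) * Y' + θ / 4 * ((1 + θ / 4) * Y')) = θ * (1 / 2 - θ / 16) * Y' := by ring
      have h6 : 0 ≤ θ * (1 / 2 - θ / 16) * Y' := mul_nonneg (mul_nonneg hθ.le (by linarith)) hY0.le
      linarith
    linarith
  refine (measureReal_mono hsub).trans (hsec.trans ?_)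
  have h7 : μ + 40 * Real.log x / D * μ ^ 2 ≤ μ' + 40 * Real.log x / D * μ' ^ 2 := by gcongr
  calc (μ + 40 * Real.log x / D * μ ^ 2) / (θ / 4 * μ') ^ 2
      ≤ (μ' + 40 * Real.log x / D * μ' ^ 2) / (θ / 4 * μ') ^ 2 := by gcongr
    _ = 16 / θ ^ 2 * (1 / μ' + 40 * Real.log x / D) := by
        field_simp
        ring
    _ ≤ 16 / θ ^ 2 * (1 / (Y * pr 3 D T) + 40 * Real.log x / D) := by
        rw [← hY']
        gcongr

/-- the estimate with random classes -/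
theorem random (hM : Model P a) (h2 : S_sec) (x g r m u1 u2 D T Q : ℕ) (θ Y : ℝ) (hθ : 0 < θ) (hθ2 : θ ≤ 1 / 2)
    (hY : 0 < Y) (hW : 0 < pr 3 D T) (hu1 : u1 ≤ D) (hu2 : u2 ≤ D) (hDT : D ≤ T) (hD : 100 ≤ D) (hx : 1 ≤ x)
    (hlog : 40 * Real.log x ≤ D) (hgD : g < D) (hgQ : g < Q) (hm0 : 0 < m) (hmg : m < g)
    (hdet : ∀ b : ℕ → ℕ, (∀ p, p.Prime → b p < p) →
      ((NS u1 u2 D Q r (x / 2) (x - g - 1) m g b).card : ℝ) ≤ (1 + θ / 4) * Y) :
    P.real {ω | (1 + θ) * (Y * pr 3 D T) <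
      ((NS u1 u2 T Q r (x / 2) (x - g - 1) m g (fun q => a q ω)).card : ℝ)} ≤
      16 / θ ^ 2 * (1 / (Y * pr 3 D T) + 40 * Real.log x / D) := by
  have := Pool.Agent.T2H32.BF.prob hM
  have hx1 : (1 : ℝ) ≤ x := by exact_mod_cast hx
  have hl : 0 ≤ Real.log x := Real.log_nonneg hx1
  have hη : 0 ≤ 16 / θ ^ 2 * (1 / (Y * pr 3 D T) + 40 * Real.log x / D) := by positivity
  have hc := Pool.Agent.T2H32.BF.cond hM (range (D + 1)) (Ioc D T) (by
    rw [disjoint_left]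
    intro i hi hi'
    rw [mem_range] at hi
    rw [mem_Ioc] at hi'
    omega) (fun b => (∀ p ≤ D, p.Prime → b p < p) ∧ (1 + θ) * (Y * pr 3 D T) <
      ((NS u1 u2 T Q r (x / 2) (x - g - 1) m g b).card : ℝ)) (by
    intro b b' hbb
    have hb : ∀ i ≤ T, b i = b' i := by
      intro i hi
      refine hbb i ?_
      rw [mem_union, mem_range, mem_Ioc]
      omega
    rw [NS_congr u1 u2 T Q r (x / 2) (x - g - 1) m g b b' hb]
    refine and_congr_left fun _ => ?_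
    constructor
    · intro h3 p hp hpr
      rw [← hb p (hp.trans hDT)]
      exact h3 p hp hpr
    · intro h3 p hp hpr
      rw [hb p (hp.trans hDT)]
      exact h3 p hp hpr) _ hη (by
    intro α
    by_cases hα : ∀ p ≤ D, p.Prime → α p < p
    · have h3 : {ω | (fun b : ℕ → ℕ => (∀ p ≤ D, p.Prime → b p < p) ∧ (1 + θ) * (Y * pr 3 D T) <
          ((NS u1 u2 T Q r (x / 2) (x - g - 1) m g b).card : ℝ)) (fun i => if i ∈ range (D + 1) then α i else a i ω)} ⊆
          {ω | (1 + θ) * (Y * pr 3 D T) < ((NS u1 u2 T Q r (x / 2) (x - g - 1) m g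
            (fun i => if i ∈ range (D + 1) then α i else a i ω)).card : ℝ)} := fun ω hω => hω.2
      refine (measureReal_mono h3).trans ?_
      refine fixed hM h2 x g r m u1 u2 D T Q θ Y hθ hθ2 hY hW hu1 hu2 hDT hD hx hlog hgD hgQ hm0 hmg
        (fun p => if p ≤ D then α p else 0) (hdet _ ?_) _ ?_
      · intro p hp
        by_cases hpD : p ≤ D
        · rw [if_pos hpD]
          exact hα p hpD hp
        · rw [if_neg hpD]
          exact hp.pos
      · intro ω v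
        have e : ∀ p ≤ D, (fun i => if i ∈ range (D + 1) then α i else a i ω) p =
            (fun p => if p ≤ D then α p else 0) p := by
          intro p hp
          show (if p ∈ range (D + 1) then α p else a p ω) = (if p ≤ D then α p else 0)
          rw [if_pos (mem_range.2 (by omega)), if_pos hp]
        have e2 : ∀ p ∈ (Ioc D T).filter Nat.Prime, (if p ∈ range (D + 1) then α p else a p ω) = a p ω := by
          intro p hp
          rw [mem_filter, mem_Ioc] at hp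
          rw [if_neg]
          rw [mem_range]
          omega
        rw [mem_NS, mem_NS, Wk_iff u1 u2 D T _ hDT hu1 hu2 v, Wk_iff u1 u2 D T _ hDT hu1 hu2 (v + m),
          Wk_iff u1 u2 D T _ hDT hu1 hu2 (v + g), Wk_congr u1 u2 D _ _ e v, Wk_congr u1 u2 D _ _ e (v + m),
          Wk_congr u1 u2 D _ _ e (v + g)]
        constructor
        · rintro ⟨k1, k2, ⟨k3, k4⟩, ⟨k5, k6⟩, ⟨k7, k8⟩⟩
          refine ⟨⟨k1, k2, k3, k5, k7⟩, fun p hp => ?_⟩
          have k4' := k4 p hp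
          have k6' := k6 p hp
          have k8' := k8 p hp
          rw [e2 p hp] at k4' k6' k8'
          exact ⟨k4', k6', k8'⟩
        · rintro ⟨⟨k1, k2, k3, k5, k7⟩, k9⟩
          refine ⟨k1, k2, ⟨k3, fun p hp => ?_⟩, ⟨k5, fun p hp => ?_⟩, ⟨k7, fun p hp => ?_⟩⟩
          · rw [e2 p hp]
            exact (k9 p hp).1
          · rw [e2 p hp]
            exact (k9 p hp).2.1
          · rw [e2 p hp]
            exact (k9 p hp).2.2
    · have h3 : {ω | (fun b : ℕ → ℕ => (∀ p ≤ D, p.Prime → b p < p) ∧ (1 + θ) * (Y * pr 3 D T) <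
          ((NS u1 u2 T Q r (x / 2) (x - g - 1) m g b).card : ℝ))
            (fun i => if i ∈ range (D + 1) then α i else a i ω)} = ∅ := by
        ext ω
        constructor
        · intro hω
          exfalso
          refine hα fun p hp hpr => ?_
          have h4 := hω.1 p hp hpr
          have h5 : (if p ∈ range (D + 1) then α p else a p ω) = α p := if_pos (mem_range.2 (by omega))
          have h6 : (if p ∈ range (D + 1) then α p else a p ω) < p := h4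
          rw [h5] at h6
          exact h6
        · intro hω
          exact hω.elim
      have h4 : P.real {ω | (fun b : ℕ → ℕ => (∀ p ≤ D, p.Prime → b p < p) ∧ (1 + θ) * (Y * pr 3 D T) <
          ((NS u1 u2 T Q r (x / 2) (x - g - 1) m g b).card : ℝ))
            (fun i => if i ∈ range (D + 1) then α i else a i ω)} = 0 := by
        rw [h3]
        simp
      rw [h4]
      exact hη)
  refine le_trans ?_ hc
  rw [measureReal_def, measureReal_def]
  refine ENNReal.toReal_mono (measure_ne_top _ _) (measure_mono_ae ?_)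
  filter_upwards [Pool.Agent.H559.BS.ae_lt hM] with ω hω hs
  exact ⟨fun p _ hp => hω p hp, hs⟩

end Pool.Agent.H559.EG.N3

namespace Pool.Agent.H559.EG

theorem t_N3 (h1 : S_det3) (h2 : S_sec) : S_N3 := by
  intro c lam δ η θ hc hlam hδ hδ4 hη hη4 hθ hθ2 Ω _ P a hM
  refine ⟨16 / θ ^ 2 * 81, ?_⟩
  have hl : Tendsto (fun x : ℕ => Real.log x) atTop atTop := Pool.Agent.H559.BS.log_top
  filter_upwards [h1 c η (θ / 4) lam hc hη hη4 (by positivity) hlam, N3.D0_ge c hc, N3.D0_TT c δ hδ,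
    N3.small_D0 c η hc hη4, N3.PP_big lam η hlam hη, N3.main_ge δ η hδ hη hη4,
    (N3.yy_top η hη).eventually_ge_atTop 4, hl.eventually_ge_atTop 2, hl.eventually_gt_atTop (2 * lam),
    eventually_ge_atTop 1] with x hdet hD hDT hsm hPP hmain hy hl2 hll hx
  intro g hg2 hg r hr m hm0 hmg
  obtain ⟨hyD, hw2, hw1⟩ := hsm
  obtain ⟨ℓ, hℓ⟩ : ∃ ℓ, ℓ = Real.log x := ⟨_, rfl⟩
  rw [← hℓ] at hD hPP hmain hl2 hll hg ⊢
  have hℓ0 : 0 < ℓ := by linarith
  have hℓ12 : (4096 : ℝ) ≤ ℓ ^ 12 := by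
    calc (4096 : ℝ) = 2 ^ 12 := by norm_num
      _ ≤ ℓ ^ 12 := by gcongr
  have hℓ11 : (2048 : ℝ) ≤ ℓ ^ 11 := by
    calc (2048 : ℝ) = 2 ^ 11 := by norm_num
      _ ≤ ℓ ^ 11 := by gcongr
  have hD100 : 100 ≤ D0 c x := by
    have h3 : (100 : ℝ) ≤ D0 c x := by
      refine le_trans ?_ hD
      have e : ℓ ^ 13 = ℓ ^ 12 * ℓ := by ring
      rw [e]
      nlinarith
    exact_mod_cast h3
  have hDlog : 40 * Real.log x ≤ D0 c x := by
    rw [← hℓ]
    refine le_trans ?_ hD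
    have e : ℓ ^ 13 = ℓ ^ 12 * ℓ := by ring
    rw [e]
    nlinarith
  have hgD : g < D0 c x := by
    have h3 : (g : ℝ) < D0 c x := by
      refine lt_of_le_of_lt hg (lt_of_lt_of_le ?_ hD)
      have e : ℓ ^ 13 / 2 = (ℓ ^ 11 / 2) * ℓ ^ 2 := by ring
      rw [e]
      refine mul_lt_mul_of_pos_right ?_ (by positivity)
      have h4 : ℓ ^ 11 = ℓ ^ 10 * ℓ := by ring
      have h5 : (1 : ℝ) ≤ ℓ ^ 10 := one_le_pow₀ (by linarith)
      nlinarith
    exact_mod_cast h3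
  have hgQ : g < PP η x := by
    have h3 : (g : ℝ) < PP η x := lt_of_le_of_lt hg hPP
    exact_mod_cast h3
  have hx0 : (0 : ℝ) < x := by exact_mod_cast (by omega : 0 < x)
  have hP0 : (0 : ℝ) < PP η x := by exact_mod_cast N3.PP_pos η x
  have hpr1 := N3.pr_pos (yy η x) (D0 c x) hy
  have hpr2 := N3.pr_pos (D0 c x) (TT δ x) (by omega)
  have hmul := N3.pr_mul 3 (yy η x) (D0 c x) (TT δ x) hyD hDT
  have key := N3.random hM h2 x g r m (w1 c x) (w2 c x) (D0 c x) (TT δ x) (PP η x) θ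
    ((x : ℝ) / (2 * PP η x) * pr 3 (yy η x) (D0 c x)) hθ hθ2 (by positivity) hpr2 hw1 hw2 hDT hD100 hx hDlog
    hgD hgQ hm0 hmg (by
      intro b hb
      have h3 := hdet g (by rw [← hℓ]; exact hg) r hr b hb m hm0 hmg
      refine le_trans ?_ (h3.trans (le_of_eq (by ring)))
      exact le_of_eq rfl)
  have e1 : (x : ℝ) / (2 * PP η x) * pr 3 (yy η x) (D0 c x) * pr 3 (D0 c x) (TT δ x) =
      (x : ℝ) / (2 * PP η x) * pr 3 (yy η x) (TT δ x) := by
    rw [mul_assoc, hmul]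
  rw [e1, ← hℓ] at key
  have e2 : (1 + θ) * ((x : ℝ) / (2 * PP η x) * pr 3 (yy η x) (TT δ x)) =
      (1 + θ) * ((x : ℝ) / (2 * PP η x)) * pr 3 (yy η x) (TT δ x) := by ring
  rw [e2] at key
  refine le_trans key ?_
  have hb1 : 1 / ((x : ℝ) / (2 * PP η x) * pr 3 (yy η x) (TT δ x)) ≤ 1 / ℓ ^ 8 := by gcongr
  have hb2 : 40 * ℓ / (D0 c x : ℝ) ≤ 80 / ℓ ^ 8 := by
    have h3 : (0 : ℝ) < D0 c x := by exact_mod_cast (by omega : 0 < D0 c x)
    rw [div_le_div_iff₀ h3 (by positivity)]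
    have h4 : 40 * ℓ * ℓ ^ 8 ≤ 80 * (ℓ ^ 13 / 2) := by
      have e : 80 * (ℓ ^ 13 / 2) = 40 * ℓ * ℓ ^ 8 * ℓ ^ 4 := by ring
      rw [e]
      have h5 : (1 : ℝ) ≤ ℓ ^ 4 := one_le_pow₀ (by linarith)
      have h6 : 0 ≤ 40 * ℓ * ℓ ^ 8 := by positivity
      nlinarith
    linarith
  calc 16 / θ ^ 2 * (1 / ((x : ℝ) / (2 * PP η x) * pr 3 (yy η x) (TT δ x)) + 40 * ℓ / (D0 c x : ℝ))
      ≤ 16 / θ ^ 2 * (1 / ℓ ^ 8 + 80 / ℓ ^ 8) := by gcongr
    _ = 16 / θ ^ 2 * 81 / ℓ ^ 8 := by ring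

end Pool.Agent.H559.EG
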