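import Pool.Agent.H559.EG.Stm

set_option autoImplicit false

/-! # The parameters: `S_num` -/

open Finset MeasureTheory ProbabilityTheory Filter Topology
open Pool.Agent.T2H32.BF (Model V V_pos V_anti V_ratio mertens pnt cnt Surv)
open Pool.Agent.H559.BS (TT)
open Pool.Agent.H559.IX (R0 Lim)

namespace Pool.Agent.H559.EG

namespace Num

theorem log_top : Tendsto (fun n : ℕ => Real.log n) atTop atTop :=
  Real.tendsto_log_atTop.comp tendsto_natCast_atTop_atTop

theorem ratio_TT (δ : ℝ) (hδ : 0 < δ) :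
    Tendsto (fun n : ℕ => Real.log (TT δ n) / Real.log n) atTop (𝓝 δ) := by
  have h1 : Tendsto (fun n : ℕ => δ - Real.log 2 / Real.log n) atTop (𝓝 (δ - 0)) :=
    tendsto_const_nhds.sub (Tendsto.div_atTop tendsto_const_nhds log_top)
  rw [sub_zero] at h1
  refine tendsto_of_tendsto_of_tendsto_of_le_of_le' h1 tendsto_const_nhds ?_ ?_
  · filter_upwards [Pool.Agent.H559.BS.log_TT δ hδ, log_top.eventually_ge_atTop 1] with n hn h
    rw [le_div_iff₀ (by linarith), sub_mul, div_mul_cancel₀ _ (by linarith)]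
    exact hn.1
  · filter_upwards [Pool.Agent.H559.BS.log_TT δ hδ, log_top.eventually_ge_atTop 1] with n hn h
    rw [div_le_iff₀ (by linarith)]
    exact hn.2

theorem V_TT_lim (δ : ℝ) (hδ : 0 < δ) : Tendsto (fun n : ℕ => V (TT δ n) * Real.log n) atTop
    (𝓝 (Real.exp (-Real.eulerMascheroniConstant) / δ)) := by
  have h1 := mertens.comp (Pool.Agent.H559.BS.TT_top δ hδ)
  have h2 := h1.div (ratio_TT δ hδ) hδ.ne'
  refine h2.congr' ?_
  filter_upwards [log_top.eventually_ge_atTop 1,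
    (log_top.comp (Pool.Agent.H559.BS.TT_top δ hδ)).eventually_ge_atTop 1] with n h h'
  simp only [Function.comp_apply, Pi.div_apply] at h' ⊢
  have h3 : Real.log (TT δ n) ≠ 0 := by linarith
  have h4 : Real.log n ≠ 0 := by linarith
  field_simp

theorem ratio_lim (z : ℕ → ℕ) (hz : Lim z) (δ : ℝ) (hδ : 0 < δ) :
    Tendsto (fun n : ℕ => V (z (n / 2)) / V (TT δ n)) atTop
      (𝓝 (δ * Real.exp Real.eulerMascheroniConstant)) := by
  have h1 : Tendsto (fun n : ℕ => V (z (n / 2)) * Real.log n) atTop (𝓝 1) :=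
    Pool.Agent.H559.BS.z_div z hz 2 (by norm_num)
  have h2 := h1.div (V_TT_lim δ hδ) (by positivity)
  have h3 : (1 : ℝ) / (Real.exp (-Real.eulerMascheroniConstant) / δ) =
      δ * Real.exp Real.eulerMascheroniConstant := by
    rw [Real.exp_neg]
    field_simp
  rw [h3] at h2
  refine h2.congr' ?_
  filter_upwards [log_top.eventually_ge_atTop 1] with n h
  simp only [Pi.div_apply]
  have h4 := (V_pos (TT δ n)).ne'
  have h5 : Real.log n ≠ 0 := by linarith
  field_simp

/-- Bertrand three times: the product of the primes up to `8 m` is at least `8 m³` -/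
theorem primorial_ge (m n : ℕ) (hm : 1 ≤ m) (hn : 8 * m ≤ n) : 8 * m ^ 3 ≤ primorial n := by
  obtain ⟨p, hp, hp1, hp2⟩ := Nat.exists_prime_lt_and_le_two_mul m (by omega)
  obtain ⟨q, hq, hq1, hq2⟩ := Nat.exists_prime_lt_and_le_two_mul (2 * m) (by omega)
  obtain ⟨r, hr, hr1, hr2⟩ := Nat.exists_prime_lt_and_le_two_mul (4 * m) (by omega)
  have hsub : ({p, q, r} : Finset ℕ) ⊆ (range (n + 1)).filter Nat.Prime := by
    intro t ht
    simp only [Finset.mem_insert, Finset.mem_singleton] at ht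
    rw [Finset.mem_filter, Finset.mem_range]
    rcases ht with rfl | rfl | rfl
    · exact ⟨by omega, hp⟩
    · exact ⟨by omega, hq⟩
    · exact ⟨by omega, hr⟩
  have h1 : ∏ t ∈ ({p, q, r} : Finset ℕ), t ≤ primorial n := by
    unfold primorial
    refine Finset.prod_le_prod_of_subset_of_one_le' hsub ?_
    intro t ht _
    exact (Finset.mem_filter.1 ht).2.one_lt.le
  rw [Finset.prod_insert (by simp only [Finset.mem_insert, Finset.mem_singleton]; omega),
    Finset.prod_insert (by simp only [Finset.mem_singleton]; omega), Finset.prod_singleton] at h1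
  calc 8 * m ^ 3 = m * (2 * m * (4 * m)) := by ring
    _ ≤ p * (q * r) := Nat.mul_le_mul hp1.le (Nat.mul_le_mul hq1.le hr1.le)
    _ ≤ _ := h1

theorem PP_large (η lam : ℝ) (hη : 0 < η) (hlam : 0 < lam) :
    ∀ᶠ x : ℕ in atTop, lam * Real.log x ^ 2 < PP η x := by
  filter_upwards [log_top.eventually_ge_atTop ((16 + 8 * (256 * lam / η ^ 2)) / η)] with x hx
  have hC : 0 < 256 * lam / η ^ 2 := by positivity
  rw [div_le_iff₀ hη] at hx
  have hy := Nat.lt_floor_add_one (η * Real.log x)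
  have hL : 0 < Real.log x := by
    by_contra hcon
    rw [not_lt] at hcon
    nlinarith
  have hy0 : (yy η x : ℝ) ≤ η * Real.log x := Nat.floor_le (by positivity)
  change η * Real.log x < (yy η x : ℝ) + 1 at hy
  obtain ⟨m, hm⟩ : ∃ m, m = yy η x / 8 := ⟨_, rfl⟩
  have h8 : 8 * m ≤ yy η x := by omega
  have h9 : yy η x < 8 * m + 8 := by omega
  have h9' : (yy η x : ℝ) + 1 ≤ 8 * m + 8 := by exact_mod_cast h9
  have h10 : 256 * lam / η ^ 2 < m := by nlinarith
  have h11 : 1 ≤ m := by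
    have : (1 : ℝ) ≤ m := by nlinarith
    exact_mod_cast this
  have h12 := primorial_ge m (yy η x) h11 h8
  have h13 : (8 * (m : ℝ) ^ 3) ≤ (PP η x : ℝ) := by
    unfold PP
    exact_mod_cast h12
  have h14 : (1 : ℝ) ≤ m := by exact_mod_cast h11
  have h15 : η * Real.log x ≤ 16 * m := by linarith
  have h16 : (η * Real.log x) ^ 2 ≤ (16 * m) ^ 2 := by
    apply pow_le_pow_left₀ (by positivity) h15
  have h17 : 256 * lam < m * η ^ 2 := by
    rw [div_lt_iff₀ (by positivity)] at h10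
    exact h10
  have h18 : lam * Real.log x ^ 2 * η ^ 2 < (8 * (m : ℝ) ^ 3) * η ^ 2 := by
    calc lam * Real.log x ^ 2 * η ^ 2 = lam * (η * Real.log x) ^ 2 := by ring
      _ ≤ lam * (16 * m) ^ 2 := by gcongr
      _ = 256 * lam * (m : ℝ) ^ 2 := by ring
      _ < m * η ^ 2 * (m : ℝ) ^ 2 := by
          apply mul_lt_mul_of_pos_right h17
          positivity
      _ ≤ (8 * (m : ℝ) ^ 3) * η ^ 2 := by
          have : 0 ≤ (m : ℝ) ^ 3 * η ^ 2 := by positivity
          nlinarith
  have h19 := lt_of_mul_lt_mul_right h18 (by positivity)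
  linarith

/-- `(1 - u) ^ M ≥ exp (- (u + u²) t)` for `M ≤ t` -/
theorem pow_ge (u t : ℝ) (M : ℕ) (hu : 0 ≤ u) (hu1 : u ≤ 1 / 2) (hM : (M : ℝ) ≤ t) :
    Real.exp (-((u + u ^ 2) * t)) ≤ (1 - u) ^ M := by
  have h0 : 0 < 1 - u := by linarith
  have h1 : -(u + u ^ 2) ≤ Real.log (1 - u) := by
    have h2 := Real.one_sub_inv_le_log_of_pos h0
    have h2' : Real.exp (-(u + u ^ 2)) ≤ 1 - u := by
      have h3 := Real.add_one_le_exp (u + u ^ 2)
      have h4 := Real.quadratic_le_exp_of_nonneg (show 0 ≤ u + u ^ 2 by positivity)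
      rw [Real.exp_neg, inv_le_comm₀ (Real.exp_pos _) h0]
      refine le_trans ?_ h4
      rw [inv_le_iff_one_le_mul₀ h0]
      nlinarith [mul_nonneg hu hu, mul_nonneg (mul_nonneg hu hu) hu, mul_nonneg (mul_nonneg hu hu) (mul_nonneg hu hu)]
    rw [Real.le_log_iff_exp_le h0]
    exact h2'
  have h5 : (1 - u) ^ M = Real.exp (M * Real.log (1 - u)) := by
    rw [mul_comm, Real.exp_mul, Real.exp_log h0, Real.rpow_natCast]
  rw [h5, Real.exp_le_exp]
  have h6 : 0 ≤ u + u ^ 2 := by positivity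
  have h7 : (M : ℝ) * (-(u + u ^ 2)) ≤ M * Real.log (1 - u) := mul_le_mul_of_nonneg_left h1 (by positivity)
  have h8 : (M : ℝ) * (u + u ^ 2) ≤ t * (u + u ^ 2) := mul_le_mul_of_nonneg_right hM h6
  linarith

end Num

open Pool.Agent.H559.EG.Num in
theorem t_num : S_num := by
  intro c hc z hz lam κ hlam hκ hκ1
  obtain ⟨E, hE⟩ : ∃ E, E = Real.exp Real.eulerMascheroniConstant := ⟨_, rfl⟩
  rw [← hE] at hκ1
  have hE2 : E < 2 := by
    rw [hE]
    have h1 := Real.eulerMascheroniConstant_lt_two_thirds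
    have h2 := Real.log_two_gt_d9
    calc Real.exp Real.eulerMascheroniConstant < Real.exp (Real.log 2) := by
          rw [Real.exp_lt_exp]
          linarith
      _ = 2 := Real.exp_log (by norm_num)
  have hE1 : 1 < E := by
    rw [hE]
    have h1 := Real.one_half_lt_eulerMascheroniConstant
    have h2 := Real.add_one_le_exp Real.eulerMascheroniConstant
    linarith
  obtain ⟨t, ht0, ht1, htf⟩ : ∃ t : ℝ, 0 < t ∧ t ≤ 1 / 8 ∧
      (lam / 2 + 2 * t) * (E + t * E ^ 2) + 2 * t + (κ + t) < 1 := by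
    have hf : Continuous (fun t : ℝ => (lam / 2 + 2 * t) * (E + t * E ^ 2) + 2 * t + (κ + t)) := by
      fun_prop
    have h1 := hf.tendsto 0
    have h2 : (lam / 2 + 2 * (0 : ℝ)) * (E + 0 * E ^ 2) + 2 * 0 + (κ + 0) < 1 := by
      linarith
    have h3 := (h1.mono_left (nhdsWithin_le_nhds (s := Set.Ioi 0))).eventually_lt_const h2
    have h4 : ∀ᶠ t : ℝ in 𝓝[>] 0, t ∈ Set.Ioc (0 : ℝ) (1 / 8) :=
      Ioc_mem_nhdsGT (by norm_num)
    obtain ⟨t, ht⟩ := (h3.and h4).exists
    exact ⟨t, ht.2.1, ht.2.2, ht.1⟩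
  refine ⟨t, t, t, κ + t, ht0, ht0, ht1, ht0, by linarith, by linarith, ?_⟩
  have hr := ratio_lim z hz t ht0
  rw [← hE] at hr
  have hlimE : Tendsto (fun n : ℕ => (lam / 2 + 2 * t) * ((V (z (n / 2)) / V (TT t n) +
      (V (z (n / 2)) / V (TT t n)) ^ 2) / t) + 2 * t + (κ + t)) atTop
      (𝓝 ((lam / 2 + 2 * t) * ((t * E + (t * E) ^ 2) / t) + 2 * t + (κ + t))) := by
    exact ((((hr.add (hr.pow 2)).div_const t).const_mul _).add_const _).add_const _
  have hval : (lam / 2 + 2 * t) * ((t * E + (t * E) ^ 2) / t) + 2 * t + (κ + t) < 1 := by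
    have : (t * E + (t * E) ^ 2) / t = E + t * E ^ 2 := by field_simp
    rw [this]
    exact htf
  have hpow : ∀ᶠ x : ℕ in atTop, 16 / t ^ 2 ≤ (x : ℝ) ^ t :=
    ((tendsto_rpow_atTop ht0).comp tendsto_natCast_atTop_atTop).eventually_ge_atTop _
  have hlo : ∀ᶠ x : ℕ in atTop, Real.log x ^ c ≤ (x : ℝ) ^ t := by
    have h1 := (isLittleO_log_rpow_rpow_atTop c ht0).bound (show (0 : ℝ) < 1 by norm_num)
    have h2 := tendsto_natCast_atTop_atTop.eventually h1
    filter_upwards [h2, eventually_ge_atTop 1] with x hx hx1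
    have hl : 0 ≤ Real.log x := Real.log_nonneg (by exact_mod_cast hx1)
    rw [one_mul, Real.norm_of_nonneg (by positivity), Real.norm_of_nonneg (by positivity)] at hx
    exact hx
  filter_upwards [hr.eventually_lt_const (show t * E < 1 / 4 by nlinarith),
    hr.eventually_const_lt (show t < t * E by nlinarith), hlimE.eventually_lt_const hval, hpow, hlo,
    log_top.eventually_ge_atTop (max lam 1), PP_large t lam ht0 hlam, eventually_ge_atTop 6]
    with x h1 h2 h3 h4 h5 h6 h7 h8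
  have hV1 := V_pos (z (x / 2))
  have hV2 := V_pos (TT t x)
  have hlt : TT t x < z (x / 2) := by
    by_contra hcon
    rw [not_lt] at hcon
    have h9 := V_anti hcon
    rw [div_lt_iff₀ hV2] at h1
    linarith
  have hpr : pr 1 (TT t x) (z (x / 2)) = V (z (x / 2)) / V (TT t x) := by
    rw [V_ratio _ _ hlt.le]
    rfl
  have hx0 : (0 : ℝ) < x := by
    have : 0 < x := by omega
    exact_mod_cast this
  have hL1 : 1 ≤ Real.log x := le_trans (le_max_right _ _) h6
  have hLl : lam ≤ Real.log x := le_trans (le_max_left _ _) h6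
  rw [hpr]
  obtain ⟨u, hu⟩ : ∃ u, u = V (z (x / 2)) / V (TT t x) := ⟨_, rfl⟩
  rw [← hu] at h1 h2 h3 ⊢
  refine ⟨hlt, hz.1 (Nat.div_le_self x 2), by linarith, h2.le, ?_, ?_, ?_, ?_, h7, h8⟩
  · have hM : (⌊(lam / 2 + 2 * t) * Real.log x / t⌋₊ : ℝ) ≤ (lam / 2 + 2 * t) * Real.log x / t :=
      Nat.floor_le (by positivity)
    have h10 := pow_ge u _ _ (by linarith) (by linarith) hM
    refine le_trans ?_ (mul_le_mul_of_nonneg_left h10 (by positivity))
    rw [Real.rpow_def_of_pos hx0, Real.rpow_def_of_pos hx0, ← Real.exp_add, Real.exp_le_exp]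
    have h11 : (u + u ^ 2) * ((lam / 2 + 2 * t) * Real.log x / t) =
        ((lam / 2 + 2 * t) * ((u + u ^ 2) / t)) * Real.log x := by
      field_simp
    rw [h11]
    nlinarith
  · rw [Real.rpow_add hx0]
    have h12 : 0 < (x : ℝ) ^ κ := by positivity
    have h13 : 1 ≤ t ^ 2 / 16 * (x : ℝ) ^ t := by
      rw [div_le_iff₀ (by positivity)] at h4
      linarith
    nlinarith
  · exact Nat.floor_le_floor h5
  · nlinarith [sq_nonneg (Real.log x)]

end Pool.Agent.H559.EG
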