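import Pool.Agent.H559.EG.Stm

set_option autoImplicit false

/-! # The residue pattern of a window with few survivors -/

open Finset Filter Topology

namespace Pool.Agent.H559.EG.Pat

/-- a residue avoiding `0` and `-g` -/
theorem res (g p : ℕ) (hg : Even g) (hp : p.Prime) :
    ¬ p ∣ (if p ∣ 1 + g then 2 else 1) ∧ ¬ p ∣ (if p ∣ 1 + g then 2 else 1) + g := by
  split_ifs with h
  · have hp2 : p ≠ 2 := by
      rintro rfl
      obtain ⟨k, hk⟩ := hg
      omega
    refine ⟨fun h2 => hp2 ((Nat.prime_dvd_prime_iff_eq hp Nat.prime_two).1 h2), fun h2 => ?_⟩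
    have h3 : p ∣ (2 + g) - (1 + g) := Nat.dvd_sub h2 h
    have h4 : (2 + g) - (1 + g) = 1 := by omega
    rw [h4] at h3
    exact hp.one_lt.ne' (Nat.dvd_one.1 h3)
  · exact ⟨fun h2 => hp.one_lt.ne' (Nat.dvd_one.1 h2), h⟩

/-- the Chinese remainder theorem for the primes up to `y` -/
theorem crt (y : ℕ) (c : ℕ → ℕ) : ∃ r < primorial y, ∀ p ≤ y, p.Prime → r ≡ c p [MOD p] := by
  have hs : ∀ i ∈ (range (y + 1)).filter Nat.Prime, (fun p : ℕ => p) i ≠ 0 := fun i hi =>
    (mem_filter.1 hi).2.ne_zero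
  have pp : Set.Pairwise (((range (y + 1)).filter Nat.Prime : Finset ℕ) : Set ℕ)
      (Function.onFun Nat.Coprime (fun p : ℕ => p)) := by
    intro a ha b hb hab
    have ha' := (mem_filter.1 (Finset.mem_coe.1 ha)).2
    have hb' := (mem_filter.1 (Finset.mem_coe.1 hb)).2
    exact (Nat.coprime_primes ha' hb').2 hab
  refine ⟨Nat.chineseRemainderOfFinset c (fun p => p) _ hs pp,
    Nat.chineseRemainderOfFinset_lt_prod c (fun p => p) hs pp, fun p hp hpp => ?_⟩
  exact (Nat.chineseRemainderOfFinset c (fun p => p) _ hs pp).2 p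
    (mem_filter.2 ⟨mem_range.2 (Nat.lt_succ_of_le hp), hpp⟩)

/-- without the condition on the window -/
theorem pat0 (y g : ℕ) (hg : Even g) :
    ∃ r < primorial y, ∀ p ≤ y, p.Prime → ¬ p ∣ r ∧ ¬ p ∣ r + g := by
  obtain ⟨r, hr, h⟩ := crt y fun p => if p ∣ 1 + g then 2 else 1
  refine ⟨r, hr, fun p hp hpp => ?_⟩
  have h1 := h p hp hpp
  have h2 := res g p hg hpp
  refine ⟨fun h3 => h2.1 ((h1.dvd_iff (dvd_refl p)).1 h3), fun h3 => h2.2 ?_⟩
  exact ((h1.add_right g).dvd_iff (dvd_refl p)).1 h3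

/-- the pattern in terms of `s` -/
theorem pat1 (y g s : ℕ) (hg : Even g) (hs : s < g) :
    ∃ r < primorial y, (∀ p ≤ y, p.Prime → ¬ p ∣ r ∧ ¬ p ∣ r + g) ∧
      ((Ioo 0 g).filter (fun m => ∀ p ≤ y, p.Prime → ¬ p ∣ r + m)).card ≤
        s + ((Icc 1 g).filter (fun n => ∀ p ≤ y, p.Prime → p ∣ n →
          p ∈ (range (y + 1)).filter (fun p => p.Prime ∧ p ∣ s * (g - s)))).card := by
  obtain ⟨r, hr, h⟩ := crt y fun p => if p ∣ s * (g - s) then (if p ∣ 1 + g then 2 else 1) else
    (p - 1) * s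
  have key : ∀ p ≤ y, p.Prime → ¬ p ∣ s * (g - s) → p ∣ r + s := by
    intro p hp hpp hn
    have h1 := h p hp hpp
    simp only [if_neg hn] at h1
    have h2 := h1.add_right s
    rw [h2.dvd_iff (dvd_refl p)]
    have h3 : (p - 1) * s + s = p * s := by
      obtain ⟨q, rfl⟩ : ∃ q, p = q + 1 := ⟨p - 1, by have := hpp.one_lt; omega⟩
      rw [Nat.add_sub_cancel]
      ring
    rw [h3]
    exact dvd_mul_right p s
  refine ⟨r, hr, fun p hp hpp => ?_, ?_⟩
  · by_cases hn : p ∣ s * (g - s)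
    · have h1 := h p hp hpp
      simp only [if_pos hn] at h1
      have h2 := res g p hg hpp
      refine ⟨fun h3 => h2.1 ((h1.dvd_iff (dvd_refl p)).1 h3), fun h3 => h2.2 ?_⟩
      exact ((h1.add_right g).dvd_iff (dvd_refl p)).1 h3
    · have h1 := key p hp hpp hn
      refine ⟨fun h2 => hn (dvd_mul_of_dvd_left ((Nat.dvd_add_right h2).1 h1) _), fun h2 => hn ?_⟩
      apply dvd_mul_of_dvd_right
      have h3 : p ∣ (r + g) - (r + s) := Nat.dvd_sub h2 h1
      have h4 : (r + g) - (r + s) = g - s := by omega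
      rwa [h4] at h3
  · have hsub : (Ioo 0 g).filter (fun m => ∀ p ≤ y, p.Prime → ¬ p ∣ r + m) ⊆
        Icc 1 s ∪ ((Icc 1 g).filter (fun n => ∀ p ≤ y, p.Prime → p ∣ n →
          p ∈ (range (y + 1)).filter (fun p => p.Prime ∧ p ∣ s * (g - s)))).image (· + s) := by
      intro m hm
      rw [mem_filter, mem_Ioo] at hm
      obtain ⟨⟨hm0, hmg⟩, hmp⟩ := hm
      rw [mem_union, mem_Icc, mem_image]
      by_cases hms : m ≤ s
      · exact Or.inl ⟨hm0, hms⟩
      · refine Or.inr ⟨m - s, ?_, by omega⟩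
        rw [mem_filter, mem_Icc]
        refine ⟨⟨by omega, by omega⟩, fun p hp hpp hd => ?_⟩
        rw [mem_filter, mem_range]
        refine ⟨Nat.lt_succ_of_le hp, hpp, ?_⟩
        by_contra hn
        apply hmp p hp hpp
        have h1 := key p hp hpp hn
        have h2 : r + m = (r + s) + (m - s) := by omega
        rw [h2]
        exact dvd_add h1 hd
    refine (card_le_card hsub).trans ((card_union_le _ _).trans ?_)
    refine Nat.add_le_add ?_ card_image_le
    rw [Nat.card_Icc]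
    omega

/-- the product of the exceptional primes -/
theorem prodE (y g s : ℕ) (hs0 : 1 ≤ s) (hs : s < g) :
    ∏ p ∈ (range (y + 1)).filter (fun p => p.Prime ∧ p ∣ s * (g - s)), (p : ℝ) ≤ (g : ℝ) ^ 2 := by
  have h1 : ∏ p ∈ (range (y + 1)).filter (fun p => p.Prime ∧ p ∣ s * (g - s)), p ∣ s * (g - s) :=
    Finset.prod_primes_dvd _ (fun p hp => (mem_filter.1 hp).2.1.prime)
      (fun p hp => (mem_filter.1 hp).2.2)
  have h2 : 0 < s * (g - s) := Nat.mul_pos hs0 (by omega)
  have h3 := Nat.le_of_dvd h2 h1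
  have h4 : s * (g - s) ≤ g * g := Nat.mul_le_mul hs.le (Nat.sub_le _ _)
  have h5 : ∏ p ∈ (range (y + 1)).filter (fun p => p.Prime ∧ p ∣ s * (g - s)), p ≤ g ^ 2 := by
    rw [pow_two]; exact h3.trans h4
  rw [← Nat.cast_prod, ← Nat.cast_pow]
  exact Nat.cast_le.2 h5

/-- the small power is negligible -/
theorem small (ε : ℝ) (hε : 0 < ε) : ∀ᶠ g : ℕ in atTop,
    (g : ℝ) ^ (7 / 10 : ℝ) ≤ ε * g / Real.log g := by
  have h1 := (isLittleO_log_rpow_atTop (show (0 : ℝ) < 3 / 10 by norm_num)).bound hε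
  have h2 := tendsto_natCast_atTop_atTop (R := ℝ) |>.eventually h1
  filter_upwards [h2, eventually_ge_atTop 3] with g hg hg3
  have hg0 : (0 : ℝ) < g := by
    have : 0 < g := by omega
    exact_mod_cast this
  have hlog : 0 < Real.log g := Real.log_pos (by exact_mod_cast (by omega : 1 < g))
  rw [Real.norm_of_nonneg hlog.le, Real.norm_of_nonneg (Real.rpow_nonneg hg0.le _)] at hg
  rw [le_div_iff₀ hlog]
  calc (g : ℝ) ^ (7 / 10 : ℝ) * Real.log g ≤ (g : ℝ) ^ (7 / 10 : ℝ) * (ε * (g : ℝ) ^ (3 / 10 : ℝ)) :=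
        mul_le_mul_of_nonneg_left hg (Real.rpow_nonneg hg0.le _)
    _ = ε * ((g : ℝ) ^ (7 / 10 : ℝ) * (g : ℝ) ^ (3 / 10 : ℝ)) := by ring
    _ = ε * g := by
        rw [← Real.rpow_add hg0]
        norm_num

/-- the final comparison -/
theorem final (lam ε : ℝ) (hlam : 0 < lam) (hε : 0 < ε) : ∀ᶠ l : ℝ in atTop, ∀ g : ℝ,
    Real.exp 1 ≤ g → g ≤ lam * l ^ 2 →
      (1 + ε / lam) * g / Real.log g ≤ (lam / 2 + ε) * (l ^ 2 / Real.log l) := by
  have hL : 0 < lam / 2 + ε := by positivity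
  set δ : ℝ := ε / (lam / 2 + ε) with hδ
  have hδ0 : 0 < δ := by positivity
  have hδ1 : δ < 1 := by
    rw [hδ, div_lt_one hL]
    linarith
  have h1 : ∀ᶠ l : ℝ in atTop, -Real.log lam / δ ≤ Real.log l :=
    Real.tendsto_log_atTop.eventually_ge_atTop _
  filter_upwards [h1, eventually_gt_atTop 1] with l hl hl1
  intro g hg1 hg2
  have hl0 : 0 < l := by linarith
  have hlog : 0 < Real.log l := Real.log_pos hl1
  have hg0 : 0 < g := (Real.exp_pos 1).trans_le hg1
  have hlg : 1 ≤ Real.log g := (Real.le_log_iff_exp_le hg0).2 hg1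
  set G : ℝ := lam * l ^ 2 with hG
  have hG0 : 0 < G := by positivity
  have h2 : Real.log G = Real.log lam + 2 * Real.log l := by
    rw [hG, Real.log_mul hlam.ne' (by positivity), Real.log_pow]
    norm_num
  have h3 : (2 - δ) * Real.log l ≤ Real.log G := by
    rw [h2]
    have h4 : -Real.log lam ≤ Real.log l * δ := by
      rwa [div_le_iff₀ hδ0] at hl
    nlinarith
  have h5 : 0 < (2 - δ) * Real.log l := mul_pos (by linarith) hlog
  have h6 : 0 < Real.log G := h5.trans_le h3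
  have h7 : Real.log G / G ≤ Real.log g / g :=
    Real.log_div_self_antitoneOn (Set.mem_Ici.2 hg1) (Set.mem_Ici.2 (hg1.trans hg2)) hg2
  have h8 : g / Real.log g ≤ G / Real.log G := by
    rw [div_le_div_iff₀ (by linarith) h6]
    rw [div_le_div_iff₀ hG0 hg0] at h7
    linarith
  have h9 : G / Real.log G ≤ G / ((2 - δ) * Real.log l) :=
    div_le_div_of_nonneg_left hG0.le h5 h3
  have h10 : (1 + ε / lam) * lam ≤ (lam / 2 + ε) * (2 - δ) := by
    have e1 : (lam / 2 + ε) * δ = ε := by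
      rw [hδ]
      field_simp
    have e2 : (1 + ε / lam) * lam = lam + ε := by
      field_simp
    rw [e2]
    nlinarith
  calc (1 + ε / lam) * g / Real.log g = (1 + ε / lam) * (g / Real.log g) := by ring
    _ ≤ (1 + ε / lam) * (G / ((2 - δ) * Real.log l)) :=
        mul_le_mul_of_nonneg_left (h8.trans h9) (by positivity)
    _ = ((1 + ε / lam) * lam) * (l ^ 2 / ((2 - δ) * Real.log l)) := by rw [hG]; ring
    _ ≤ ((lam / 2 + ε) * (2 - δ)) * (l ^ 2 / ((2 - δ) * Real.log l)) :=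
        mul_le_mul_of_nonneg_right h10 (by positivity)
    _ = (lam / 2 + ε) * (l ^ 2 / Real.log l) := by
        have e3 : (2 - δ) ≠ 0 := by linarith
        field_simp

end Pool.Agent.H559.EG.Pat

namespace Pool.Agent.H559.EG

theorem t_pat (h1 : S_cho) (h2 : S_cnt) : S_pat := by
  intro lam ε η hlam hε hη
  have hK : (0 : ℝ) < 2 * lam / η ^ 2 := by positivity
  have hε' : (0 : ℝ) < ε / lam / 2 := by positivity
  obtain ⟨G1, hG1⟩ := eventually_atTop.1 (h1.and ((h2 (2 * lam / η ^ 2) (ε / lam / 2) hK hε').and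
    (Pat.small (ε / lam / 2) hε')))
  have hlogx : Tendsto (fun x : ℕ => Real.log x) atTop atTop :=
    Real.tendsto_log_atTop.comp tendsto_natCast_atTop_atTop
  -- the lower bound for g is large
  have hlow : Tendsto (fun l : ℝ => ε * (l ^ 2 / Real.log l)) atTop atTop := by
    apply Tendsto.const_mul_atTop hε
    have h3 : ∀ᶠ l : ℝ in atTop, l ≤ l ^ 2 / Real.log l := by
      filter_upwards [eventually_gt_atTop 1] with l hl
      rw [le_div_iff₀ (Real.log_pos hl)]
      have := Real.log_le_self (by linarith : (0 : ℝ) ≤ l)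
      nlinarith
    exact tendsto_atTop_mono' _ h3 tendsto_id
  have e1 := hlogx.eventually (hlow.eventually_ge_atTop ((G1 : ℝ) + 3))
  have e2 := hlogx.eventually (Pat.final lam ε hlam hε)
  have e3 := hlogx.eventually_ge_atTop (4 / η + 2)
  filter_upwards [e1, e2, e3] with x hx1 hx2 hx3
  intro g hg hg2 hgx
  set l : ℝ := Real.log x with hl
  have hl2 : 2 < l := by
    have : 0 < 4 / η := by positivity
    linarith
  have hl0 : 0 < l := by linarith
  have hll : 0 < Real.log l := Real.log_pos (by linarith)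
  have hq : 0 < l ^ 2 / Real.log l := by positivity
  by_cases hcase : (g : ℝ) ≤ ε * (l ^ 2 / Real.log l)
  · obtain ⟨r, hr, h⟩ := Pat.pat0 (yy η x) g hg
    refine ⟨r, hr, h, ?_⟩
    have h4 : ((Ioo 0 g).filter (fun m => ∀ p ≤ yy η x, p.Prime → ¬ p ∣ r + m)).card ≤ g := by
      refine (card_filter_le _ _).trans ?_
      rw [Nat.card_Ioo]
      omega
    have h5 : (((Ioo 0 g).filter (fun m => ∀ p ≤ yy η x, p.Prime → ¬ p ∣ r + m)).card : ℝ) ≤ g := by
      exact_mod_cast h4
    have h6 : 0 ≤ lam / 2 * (l ^ 2 / Real.log l) := by positivity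
    linarith
  · push Not at hcase
    have hgG : G1 + 3 ≤ g := by
      have : ((G1 + 3 : ℕ) : ℝ) ≤ g := by
        push_cast
        linarith
      exact_mod_cast this
    obtain ⟨hcho, hcnt, hsmall⟩ := hG1 g (by omega)
    obtain ⟨s, hs0, hs7, hsg, hsp⟩ := hcho hg
    obtain ⟨r, hr, h, hcard⟩ := Pat.pat1 (yy η x) g s hg hsg
    refine ⟨r, hr, h, ?_⟩
    -- g ≤ K y ^ 2
    have hy : (g : ℝ) ≤ 2 * lam / η ^ 2 * ((yy η x : ℕ) : ℝ) ^ 2 := by
      have h7 : η * l - 1 ≤ ((yy η x : ℕ) : ℝ) := by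
        have := Nat.lt_floor_add_one (η * Real.log x)
        rw [← hl] at this
        unfold yy
        rw [← hl]
        linarith
      have h8 : 4 ≤ η * l := by
        have h9 : 4 / η ≤ l := by linarith
        rw [div_le_iff₀ hη] at h9
        linarith
      have h9 : (3 / 4) * (η * l) ≤ ((yy η x : ℕ) : ℝ) := by linarith
      have h10 : ((3 / 4) * (η * l)) ^ 2 ≤ ((yy η x : ℕ) : ℝ) ^ 2 :=
        pow_le_pow_left₀ (by positivity) h9 2
      calc (g : ℝ) ≤ lam * l ^ 2 := hgx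
        _ ≤ 2 * lam / η ^ 2 * ((3 / 4) * (η * l)) ^ 2 := by
            have : 2 * lam / η ^ 2 * ((3 / 4) * (η * l)) ^ 2 = (9 / 8) * (lam * l ^ 2) := by
              field_simp
              ring
            rw [this]
            have : 0 ≤ lam * l ^ 2 := by positivity
            linarith
        _ ≤ _ := mul_le_mul_of_nonneg_left h10 hK.le
    have hE := hcnt (yy η x) hy
      ((range (yy η x + 1)).filter (fun p => p.Prime ∧ p ∣ s * (g - s))) (by
        intro p hp
        rw [mem_filter] at hp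
        refine ⟨hp.2.1, ?_⟩
        by_contra hcon
        push Not at hcon
        obtain ⟨h11, h12⟩ := hsp p hp.2.1 hcon
        rcases (hp.2.1.dvd_mul).1 hp.2.2 with h13 | h13
        · exact h11 h13
        · exact h12 h13) (Pat.prodE _ g s hs0 hsg)
    have hcard' : (((Ioo 0 g).filter (fun m => ∀ p ≤ yy η x, p.Prime → ¬ p ∣ r + m)).card : ℝ) ≤
        s + (((Icc 1 g).filter (fun n => ∀ p ≤ yy η x, p.Prime → p ∣ n →
          p ∈ (range (yy η x + 1)).filter (fun p => p.Prime ∧ p ∣ s * (g - s)))).card : ℝ) := by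
      exact_mod_cast hcard
    have hge : Real.exp 1 ≤ (g : ℝ) := by
      have h14 : Real.exp 1 < 3 := by
        have := Real.exp_one_lt_d9
        linarith
      have h15 : (3 : ℝ) ≤ g := by exact_mod_cast (by omega : 3 ≤ g)
      linarith
    have hfin := hx2 g hge hgx
    refine hcard'.trans (le_trans ?_ hfin)
    have h16 : (s : ℝ) ≤ ε / lam / 2 * g / Real.log g := hs7.trans hsmall
    calc (s : ℝ) + (((Icc 1 g).filter (fun n => ∀ p ≤ yy η x, p.Prime → p ∣ n →
          p ∈ (range (yy η x + 1)).filter (fun p => p.Prime ∧ p ∣ s * (g - s)))).card : ℝ) ≤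
        ε / lam / 2 * g / Real.log g + (1 + ε / lam / 2) * g / Real.log g := add_le_add h16 hE
      _ = (1 + ε / lam) * g / Real.log g := by ring

end Pool.Agent.H559.EG
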