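import Pool.Agent.H559.EG.Stm

set_option autoImplicit false

/-! # EG-RAT: numerical comparison of sieve products (helper230) -/

open Finset MeasureTheory ProbabilityTheory Filter Topology
open Pool.Agent.T2H32.BF (Model V V_pos V_anti V_ratio mertens pnt cnt Surv)
open Pool.Agent.H559.BS (TT TT_le TT_ge TT_top log_top log_TT log_pow_le)

namespace Pool.Agent.H559.EG

namespace Rat

theorem yy_le {η : ℝ} (hη : 0 < η) {x : ℕ} : (yy η x : ℝ) ≤ η * Real.log x :=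
  Nat.floor_le (mul_nonneg hη.le (Real.log_natCast_nonneg x))

theorem yy_top (η : ℝ) (hη : 0 < η) : Tendsto (fun x => yy η x) atTop atTop :=
  tendsto_nat_floor_atTop.comp (log_top.const_mul_atTop hη)

theorem loglog_top : Tendsto (fun x : ℕ => Real.log (Real.log x)) atTop atTop :=
  Real.tendsto_log_atTop.comp log_top

theorem one_add (c : ℝ) : Tendsto (fun x : ℕ => 1 + c / Real.log (Real.log x)) atTop (𝓝 1) := by
  have h1 : Tendsto (fun x : ℕ => c / Real.log (Real.log x)) atTop (𝓝 0) :=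
    tendsto_const_nhds.div_atTop loglog_top
  have h2 := h1.const_add 1
  rwa [add_zero] at h2

theorem yy_lim (η : ℝ) (hη : 0 < η) :
    Tendsto (fun x => Real.log (yy η x) / Real.log (Real.log x)) atTop (𝓝 1) := by
  refine tendsto_of_tendsto_of_tendsto_of_le_of_le' (one_add (Real.log (η / 2)))
    (one_add (Real.log η)) ?_ ?_
  · filter_upwards [loglog_top.eventually_gt_atTop 0, log_top.eventually_gt_atTop 0,
      log_top.eventually_ge_atTop (2 / η)] with x h1 h2 h3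
    rw [div_le_iff₀ hη] at h3
    have h4 : η / 2 * Real.log x ≤ (yy η x : ℝ) := by
      have h5 := Nat.lt_floor_add_one (η * Real.log x)
      have h6 : (yy η x : ℝ) = (⌊η * Real.log x⌋₊ : ℝ) := rfl
      rw [h6]
      linarith
    have h5 : 1 + Real.log (η / 2) / Real.log (Real.log x) =
        Real.log (η / 2 * Real.log x) / Real.log (Real.log x) := by
      rw [Real.log_mul (by positivity) h2.ne']
      field_simp
      ring
    rw [h5]
    refine div_le_div_of_nonneg_right (Real.log_le_log (by positivity) h4) h1.le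
  · filter_upwards [loglog_top.eventually_gt_atTop 0, log_top.eventually_gt_atTop 0,
      (yy_top η hη).eventually_ge_atTop 1] with x h1 h2 h3
    have h5 : 1 + Real.log η / Real.log (Real.log x) =
        Real.log (η * Real.log x) / Real.log (Real.log x) := by
      rw [Real.log_mul hη.ne' h2.ne']
      field_simp
      ring
    rw [h5]
    have h6 : (0 : ℝ) < yy η x := by exact_mod_cast h3
    exact div_le_div_of_nonneg_right (Real.log_le_log h6 (yy_le hη)) h1.le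

theorem TT_lim (δ : ℝ) (hδ : 0 < δ) :
    Tendsto (fun x : ℕ => Real.log x / Real.log (TT δ x)) atTop (𝓝 (1 / δ)) := by
  have h : Tendsto (fun x : ℕ => Real.log (TT δ x) / Real.log x) atTop (𝓝 δ) := by
    have h1 : Tendsto (fun x : ℕ => Real.log 2 / Real.log x) atTop (𝓝 0) :=
      tendsto_const_nhds.div_atTop log_top
    have h2 : Tendsto (fun x : ℕ => δ - Real.log 2 / Real.log x) atTop (𝓝 δ) := by
      have h3 := h1.const_sub δ
      rwa [sub_zero] at h3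
    refine tendsto_of_tendsto_of_tendsto_of_le_of_le' h2 tendsto_const_nhds ?_ ?_
    · filter_upwards [log_TT δ hδ, log_top.eventually_gt_atTop 0] with x h4 h5
      rw [le_div_iff₀ h5]
      have h6 : (δ - Real.log 2 / Real.log x) * Real.log x = δ * Real.log x - Real.log 2 := by
        field_simp
      rw [h6]
      exact h4.1
    · filter_upwards [log_TT δ hδ, log_top.eventually_gt_atTop 0] with x h4 h5
      rw [div_le_iff₀ h5]
      exact h4.2
  have h1 := h.inv₀ hδ.ne'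
  rw [one_div]
  refine h1.congr fun x => ?_
  rw [inv_div]

theorem yy_le_TT (δ η : ℝ) (hδ : 0 < δ) (hη : 0 < η) : ∀ᶠ x : ℕ in atTop, yy η x ≤ TT δ x := by
  filter_upwards [log_pow_le 1 δ (2 * η) hδ, TT_ge δ hδ] with x h1 h2
  have h3 : (yy η x : ℝ) ≤ TT δ x := by
    have h4 := yy_le hη (x := x)
    rw [pow_one] at h1
    linarith [h2.1]
  exact_mod_cast h3

theorem pr1_lim (δ η : ℝ) (hδ : 0 < δ) (hη : 0 < η) :
    Tendsto (fun x : ℕ => pr 1 (yy η x) (TT δ x) * (Real.log x / Real.log (Real.log x))) atTop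
      (𝓝 (1 / δ)) := by
  have h1 := mertens.comp (TT_top δ hδ)
  have h2 := (mertens.comp (yy_top η hη)).inv₀ (Real.exp_pos _).ne'
  have h5 := ((h1.mul h2).mul (yy_lim η hη)).mul (TT_lim δ hδ)
  rw [mul_inv_cancel₀ (Real.exp_pos _).ne', one_mul, one_mul] at h5
  refine h5.congr' ?_
  filter_upwards [yy_le_TT δ η hδ hη, loglog_top.eventually_gt_atTop 0,
    log_top.eventually_gt_atTop 0, (yy_top η hη).eventually_ge_atTop 2,
    (TT_top δ hδ).eventually_ge_atTop 2] with x h6 h7 h8 h9 h10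
  have h11 : pr 1 (yy η x) (TT δ x) = V (TT δ x) / V (yy η x) := (V_ratio _ _ h6).symm
  have h12 : Real.log (yy η x) ≠ 0 := by
    have : (1 : ℝ) < yy η x := by
      have : (2 : ℝ) ≤ yy η x := by exact_mod_cast h9
      linarith
    exact (Real.log_pos this).ne'
  have h13 : Real.log (TT δ x) ≠ 0 := by
    have : (1 : ℝ) < TT δ x := by
      have : (2 : ℝ) ≤ TT δ x := by exact_mod_cast h10
      linarith
    exact (Real.log_pos this).ne'
  have h14 := (V_pos (yy η x)).ne'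
  have h15 := (V_pos (TT δ x)).ne'
  simp only [Function.comp]
  rw [h11]
  field_simp

theorem three_lt {a b p : ℕ} (ha : 3 ≤ a) (hp : p ∈ (Ioc a b).filter Nat.Prime) : (4 : ℝ) ≤ p := by
  rw [mem_filter, mem_Ioc] at hp
  exact_mod_cast (by omega : 4 ≤ p)

theorem pr2_pos {a : ℕ} (b : ℕ) (ha : 3 ≤ a) : 0 < pr 2 a b := by
  unfold pr
  refine prod_pos fun p hp => ?_
  have h1 := three_lt ha hp
  have h2 : 2 / (p : ℝ) ≤ 2 / 4 := by gcongr
  linarith

theorem pr3_le {a : ℕ} (b : ℕ) (ha : 3 ≤ a) : pr 3 a b ≤ pr 2 a b * pr 1 a b := by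
  unfold pr
  rw [← prod_mul_distrib]
  refine prod_le_prod (fun p hp => ?_) fun p hp => ?_
  · have h1 := three_lt ha hp
    have h2 : 3 / (p : ℝ) ≤ 3 / 4 := by gcongr
    linarith
  · have h1 := three_lt ha hp
    have h2 : (1 - 2 / (p : ℝ)) * (1 - 1 / (p : ℝ)) = (1 - 3 / (p : ℝ)) + 2 / (p : ℝ) ^ 2 := by
      field_simp
      ring
    rw [h2]
    have : 0 ≤ 2 / (p : ℝ) ^ 2 := by positivity
    linarith

theorem pr2_ge {a : ℕ} (b : ℕ) (ha : 3 ≤ a) : pr 1 a b ^ 3 ≤ pr 2 a b := by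
  unfold pr
  rw [← prod_pow]
  refine prod_le_prod (fun p hp => ?_) fun p hp => ?_
  · have h1 := three_lt ha hp
    have h2 : 1 / (p : ℝ) ≤ 1 / 4 := by gcongr
    have h3 : 0 ≤ 1 - 1 / (p : ℝ) := by linarith
    positivity
  · have h1 := three_lt ha hp
    have h0 : 0 < 1 / (p : ℝ) := by positivity
    have h2 : 1 / (p : ℝ) ≤ 1 / 4 := by gcongr
    have h3 : 2 / (p : ℝ) = 2 * (1 / (p : ℝ)) := by ring
    rw [h3]
    set u := 1 / (p : ℝ) with hu
    nlinarith [mul_nonneg h0.le (mul_nonneg h0.le h0.le)]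

theorem PP_le (η : ℝ) (hη : 0 < η) : ∀ᶠ x : ℕ in atTop, (PP η x : ℝ) ≤ (x : ℝ) ^ (14 / 10 * η) := by
  filter_upwards [eventually_ge_atTop 1] with x hx
  have hx0 : (0 : ℝ) < x := by exact_mod_cast hx
  have h1 : (PP η x : ℝ) ≤ (4 : ℝ) ^ (yy η x) := by
    have : PP η x ≤ 4 ^ (yy η x) := primorial_le_four_pow _
    exact_mod_cast this
  refine h1.trans ?_
  have hl := Real.log_natCast_nonneg x
  have h2 : Real.log 4 ≤ 14 / 10 := by
    have h3 : Real.log 4 = 2 * Real.log 2 := by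
      rw [show (4 : ℝ) = 2 ^ 2 by norm_num, Real.log_pow]
      norm_num
    rw [h3]
    have := Real.log_two_lt_d9
    linarith
  rw [← Real.rpow_natCast, Real.rpow_def_of_pos (by norm_num), Real.rpow_def_of_pos hx0]
  apply Real.exp_le_exp.2
  have h4 := yy_le hη (x := x)
  have h5 : (0 : ℝ) ≤ Real.log 4 := Real.log_nonneg (by norm_num)
  calc Real.log 4 * (yy η x : ℝ) ≤ Real.log 4 * (η * Real.log x) :=
        mul_le_mul_of_nonneg_left h4 h5
    _ ≤ 14 / 10 * (η * Real.log x) := mul_le_mul_of_nonneg_right h2 (by positivity)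
    _ = Real.log x * (14 / 10 * η) := by ring

theorem PP_pos (η : ℝ) (x : ℕ) : 0 < PP η x := primorial_pos _

end Rat

open Pool.Agent.H559.EG.Rat in
theorem t_rat : S_rat := by
  intro lam ε δ η hlam hε hδ hδ4 hη hη4
  have hb : 0 < lam / 2 + 2 * ε := by positivity
  obtain ⟨θ, hθ⟩ : ∃ θ : ℝ, θ = ε / (5 * (lam / 2 + 2 * ε)) := ⟨_, rfl⟩
  have hθ0 : 0 < θ := by
    rw [hθ]
    positivity
  have hθb : 5 * θ * (lam / 2 + 2 * ε) = ε := by
    rw [hθ]
    field_simp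
  have hθ1 : θ ≤ 1 / 10 := by
    rw [hθ, div_le_iff₀ (by positivity)]
    linarith
  have hkey : (1 + θ) * (1 + θ) * (lam / 2 + ε) ≤ (1 - 2 * θ) * (lam / 2 + 2 * ε) := by
    have h1 : (1 + θ) * (1 + θ) ≤ 1 + 3 * θ := by nlinarith
    have h2 : (1 + θ) * (1 + θ) * (lam / 2 + ε) ≤ (1 + 3 * θ) * (lam / 2 + ε) :=
      mul_le_mul_of_nonneg_right h1 (by positivity)
    have h3 : 0 < θ * ε := mul_pos hθ0 hε
    nlinarith
  refine ⟨θ, hθ0, by linarith, ?_⟩
  have hlim := pr1_lim δ η hδ hη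
  have h1δ : 1 / δ < (1 + θ) / δ := by
    rw [div_lt_div_iff_of_pos_right hδ]
    linarith
  have h2δ : 1 < 1 / δ := by
    rw [lt_div_iff₀ hδ]
    linarith
  filter_upwards [hlim.eventually_lt_const h1δ, hlim.eventually_const_lt h2δ,
    (yy_top η hη).eventually_ge_atTop 3, loglog_top.eventually_ge_atTop 1,
    log_top.eventually_ge_atTop 1, PP_le η hη, log_pow_le 3 (6 / 10 * η) (2 / θ) (by positivity),
    eventually_ge_atTop 1] with x e1 e2 e3 e4 e5 e6 e7 e8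
  have hx0 : (0 : ℝ) < x := by exact_mod_cast e8
  obtain ⟨ℓ, hℓ⟩ : ∃ ℓ : ℝ, ℓ = Real.log x := ⟨_, rfl⟩
  obtain ⟨L, hL⟩ : ∃ L : ℝ, L = Real.log ℓ := ⟨_, rfl⟩
  rw [← hℓ] at e1 e2 e4 e5 e7 ⊢
  rw [← hL] at e1 e2 e4 ⊢
  have hp2 := pr2_pos (TT δ x) e3
  have hp3 := pr3_le (TT δ x) e3
  have hp1 := pr2_ge (TT δ x) e3
  obtain ⟨p1, hp1e⟩ : ∃ p1 : ℝ, p1 = pr 1 (yy η x) (TT δ x) := ⟨_, rfl⟩
  obtain ⟨p2, hp2e⟩ : ∃ p2 : ℝ, p2 = pr 2 (yy η x) (TT δ x) := ⟨_, rfl⟩
  obtain ⟨p3, hp3e⟩ : ∃ p3 : ℝ, p3 = pr 3 (yy η x) (TT δ x) := ⟨_, rfl⟩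
  rw [← hp1e] at e1 e2 hp3 hp1
  rw [← hp2e] at hp2 hp3 hp1 ⊢
  rw [← hp3e] at hp3 ⊢
  have hℓ0 : 0 < ℓ := by linarith
  have hL0 : 0 < L := by linarith
  constructor
  · have hfl := Nat.lt_floor_add_one ((lam / 2 + 2 * ε) * ℓ / δ)
    have h1 : 0 ≤ (1 + θ) * ((lam / 2 + ε) * (ℓ ^ 2 / L)) := by positivity
    calc (1 + θ) * p3 * ((lam / 2 + ε) * (ℓ ^ 2 / L))
        = p3 * ((1 + θ) * ((lam / 2 + ε) * (ℓ ^ 2 / L))) := by ring
      _ ≤ p2 * p1 * ((1 + θ) * ((lam / 2 + ε) * (ℓ ^ 2 / L))) :=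
          mul_le_mul_of_nonneg_right hp3 h1
      _ = p2 * ((1 + θ) * (lam / 2 + ε) * ℓ) * (p1 * (ℓ / L)) := by
          field_simp
      _ ≤ p2 * ((1 + θ) * (lam / 2 + ε) * ℓ) * ((1 + θ) / δ) :=
          mul_le_mul_of_nonneg_left e1.le (by positivity)
      _ = p2 * ((1 + θ) * (1 + θ) * (lam / 2 + ε)) * (ℓ / δ) := by ring
      _ ≤ p2 * ((1 - 2 * θ) * (lam / 2 + 2 * ε)) * (ℓ / δ) := by
          refine mul_le_mul_of_nonneg_right (mul_le_mul_of_nonneg_left hkey hp2.le) (by positivity)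
      _ = (1 - 2 * θ) * p2 * ((lam / 2 + 2 * ε) * ℓ / δ) := by ring
      _ ≤ (1 - 2 * θ) * p2 * ((⌊(lam / 2 + 2 * ε) * ℓ / δ⌋₊ : ℝ) + 1) := by
          refine mul_le_mul_of_nonneg_left hfl.le (mul_nonneg (by linarith) hp2.le)
  · -- `p1 ≥ 1 / ℓ`
    have h1 : 1 / ℓ ≤ p1 := by
      have h2 : L / ℓ < p1 := by
        have h3 : p1 * (ℓ / L) = p1 / (L / ℓ) := by field_simp
        rw [h3, one_lt_div (by positivity)] at e2
        exact e2
      have h3 : 1 / ℓ ≤ L / ℓ := div_le_div_of_nonneg_right e4 hℓ0.le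
      linarith
    have h2 : 1 / ℓ ^ 3 ≤ p2 := by
      refine le_trans ?_ hp1
      rw [← one_div_pow]
      exact pow_le_pow_left₀ (by positivity) h1 3
    have hPP : (0 : ℝ) < PP η x := by exact_mod_cast PP_pos η x
    have h3 : (x : ℝ) / (2 * (x : ℝ) ^ (14 / 10 * η)) ≤ x / (2 * PP η x) := by
      refine div_le_div_of_nonneg_left hx0.le (by positivity) ?_
      linarith
    have h4 : (x : ℝ) / (2 * (x : ℝ) ^ (14 / 10 * η)) =
        (x : ℝ) ^ (1 - 2 * η) * (x : ℝ) ^ (6 / 10 * η) / 2 := by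
      rw [← Real.rpow_add hx0, show 1 - 2 * η + 6 / 10 * η = 1 - 14 / 10 * η by ring,
        Real.rpow_sub hx0, Real.rpow_one]
      field_simp
    have h5 : 0 < (x : ℝ) ^ (1 - 2 * η) := by positivity
    have h6 : 1 ≤ θ * ((x : ℝ) ^ (6 / 10 * η) / 2) * (1 / ℓ ^ 3) := by
      rw [mul_one_div, one_le_div (by positivity)]
      have h7 : θ * (2 / θ * ℓ ^ 3) ≤ θ * (x : ℝ) ^ (6 / 10 * η) :=
        mul_le_mul_of_nonneg_left e7 hθ0.le
      have h8 : θ * (2 / θ * ℓ ^ 3) = 2 * ℓ ^ 3 := by field_simp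
      rw [h8] at h7
      linarith
    calc (x : ℝ) ^ (1 - 2 * η) = (x : ℝ) ^ (1 - 2 * η) * 1 := (mul_one _).symm
      _ ≤ (x : ℝ) ^ (1 - 2 * η) * (θ * ((x : ℝ) ^ (6 / 10 * η) / 2) * (1 / ℓ ^ 3)) :=
          mul_le_mul_of_nonneg_left h6 h5.le
      _ = θ * ((x : ℝ) / (2 * (x : ℝ) ^ (14 / 10 * η))) * (1 / ℓ ^ 3) := by
          rw [h4]
          ring
      _ ≤ θ * ((x : ℝ) / (2 * PP η x)) * p2 := by
          refine mul_le_mul (mul_le_mul_of_nonneg_left h3 hθ0.le) h2 (by positivity)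
            (by positivity)

end Pool.Agent.H559.EG
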