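import Pool.Agent.H559.EG.Stm

set_option autoImplicit false

/-! # The second stage: inclusion and exclusion, Chebyshev -/

open Finset MeasureTheory ProbabilityTheory Filter Topology
open Pool.Agent.T2H32.BF (Model prob cnt cheb)
open Pool.Agent.H559.BS (TT)

namespace Pool.Agent.H559.EG.St2

variable {Ω : Type} [MeasurableSpace Ω] {P : Measure Ω} {a : ℕ → Ω → ℕ}

/-- all the elements of `B` are hit, no element of `U` is hit -/
def Ps (a : ℕ → Ω → ℕ) (L B U : Finset ℕ) : Set Ω :=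
  {ω | (∀ n ∈ B, ∃ p ∈ L, n % p = a p ω) ∧ ∀ u ∈ U, ¬ ∃ p ∈ L, u % p = a p ω}

theorem hit_meas (h : Model P a) (L : Finset ℕ) (n : ℕ) : MeasurableSet {ω | ∃ p ∈ L, n % p = a p ω} := by
  have e : {ω | ∃ p ∈ L, n % p = a p ω} = ⋃ p ∈ L, (a p) ⁻¹' {n % p} := by
    ext ω
    simp [eq_comm]
  rw [e]
  exact Finset.measurableSet_biUnion L fun p _ => h.measurable p (measurableSet_singleton _)

theorem Ps_meas (h : Model P a) (L B U : Finset ℕ) : MeasurableSet (Ps a L B U) := by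
  have e : Ps a L B U = (⋂ n ∈ B, {ω | ∃ p ∈ L, n % p = a p ω}) ∩ ⋂ u ∈ U, {ω | ∃ p ∈ L, u % p = a p ω}ᶜ := by
    ext ω
    simp only [Ps, Set.mem_ofPred_eq, Set.mem_inter_iff, Set.mem_iInter, Set.mem_compl_iff]
  rw [e]
  exact (Finset.measurableSet_biInter B fun n _ => hit_meas h L n).inter
    (Finset.measurableSet_biInter U fun n _ => (hit_meas h L n).compl)

theorem Ps_step (h : Model P a) (L B U : Finset ℕ) (u : ℕ) :
    P.real (Ps a L B (insert u U)) = P.real (Ps a L B U) - P.real (Ps a L (insert u B) U) := by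
  have := prob h
  have e1 : Ps a L B (insert u U) = Ps a L B U \ {ω | ∃ p ∈ L, u % p = a p ω} := by
    ext ω
    simp only [Ps, Set.mem_ofPred_eq, Set.mem_sdiff, Finset.mem_insert, forall_eq_or_imp]
    tauto
  have e2 : Ps a L (insert u B) U = Ps a L B U ∩ {ω | ∃ p ∈ L, u % p = a p ω} := by
    ext ω
    simp only [Ps, Set.mem_ofPred_eq, Set.mem_inter_iff, Finset.mem_insert, forall_eq_or_imp]
    tauto
  rw [e1, e2]
  have := measureReal_sdiff_add_inter (μ := P) (s := Ps a L B U) (hit_meas h L u)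
  linarith

theorem ie (h : Model P a) (L : Finset ℕ) (G ε : ℝ) (hG0 : 0 ≤ G) (hG1 : G ≤ 1) (hε : 0 ≤ ε) (U : Finset ℕ) :
    ∀ B : Finset ℕ, Disjoint B U → (∀ B' ⊆ B ∪ U,
      |P.real {ω | ∀ n ∈ B', ∃ p ∈ L, n % p = a p ω} - G ^ B'.card| ≤ ε * G ^ B'.card) →
    |P.real (Ps a L B U) - G ^ B.card * (1 - G) ^ U.card| ≤ 2 ^ U.card * ε * G ^ B.card := by
  induction U using Finset.induction_on with
  | empty =>
    intro B _ hB
    have h1 := hB B (by simp)
    have e : Ps a L B ∅ = {ω | ∀ n ∈ B, ∃ p ∈ L, n % p = a p ω} := by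
      ext ω
      simp [Ps]
    rw [e]
    simpa using h1
  | insert u U hu ih =>
    intro B hd hB
    have hd1 : Disjoint B U := disjoint_of_subset_right (subset_insert u U) hd
    have huB : u ∉ B := fun h1 => disjoint_left.1 hd h1 (mem_insert_self u U)
    have hd2 : Disjoint (insert u B) U := by
      rw [disjoint_insert_left]
      exact ⟨hu, hd1⟩
    have h1 := ih B hd1 fun B' hB' => hB B' (hB'.trans (union_subset_union_right (subset_insert u U)))
    have h2 := ih (insert u B) hd2 fun B' hB' => hB B' (hB'.trans (by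
      intro n hn
      simp only [mem_union, mem_insert] at hn ⊢
      tauto))
    rw [Ps_step h, card_insert_of_notMem hu]
    rw [card_insert_of_notMem huB] at h2
    have h3 : G ^ (B.card + 1) ≤ G ^ B.card := pow_le_pow_of_le_one hG0 hG1 (Nat.le_succ _)
    have h4 : 2 ^ U.card * ε * G ^ (B.card + 1) ≤ 2 ^ U.card * ε * G ^ B.card :=
      mul_le_mul_of_nonneg_left h3 (by positivity)
    have e : P.real (Ps a L B U) - P.real (Ps a L (insert u B) U) - G ^ B.card * (1 - G) ^ (U.card + 1) =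
        (P.real (Ps a L B U) - G ^ B.card * (1 - G) ^ U.card) -
          (P.real (Ps a L (insert u B) U) - G ^ (B.card + 1) * (1 - G) ^ U.card) := by
      ring
    rw [e]
    calc |(P.real (Ps a L B U) - G ^ B.card * (1 - G) ^ U.card) -
          (P.real (Ps a L (insert u B) U) - G ^ (B.card + 1) * (1 - G) ^ U.card)| ≤
          |P.real (Ps a L B U) - G ^ B.card * (1 - G) ^ U.card| +
          |P.real (Ps a L (insert u B) U) - G ^ (B.card + 1) * (1 - G) ^ U.card| := abs_sub _ _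
      _ ≤ 2 ^ U.card * ε * G ^ B.card + 2 ^ U.card * ε * G ^ B.card := add_le_add h1 (h2.trans h4)
      _ = 2 ^ (U.card + 1) * ε * G ^ B.card := by ring

/-- the second moment -/
theorem sm (h : Model P a) {ι : Type} [DecidableEq ι] (I : Finset ι) (E : ι → Set Ω) (γ : ι → ℝ) (q ε : ℝ) (hq : 0 < q) (hq1 : q ≤ 1)
    (hε : 0 ≤ ε) (hs : 8 * ε ≤ q ^ 2) (hγ : ∀ i ∈ I, 0 ≤ γ i) (hE : ∀ i ∈ I, MeasurableSet (E i))
    (h1 : ∀ i ∈ I, γ i * (q ^ 2 - 4 * ε) ≤ P.real (E i))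
    (h2 : ∀ i ∈ I, ∀ j ∈ I, i ≠ j → P.real (E i ∩ E j) ≤ γ i * γ j * (q ^ 4 + 16 * ε)) (hpos : 0 < ∑ i ∈ I, γ i) :
    P.real {ω | cnt I E ω < q ^ 2 / 4 * ∑ i ∈ I, γ i} ≤ 8 / (q ^ 2 * ∑ i ∈ I, γ i) + 384 * ε / q ^ 4 := by
  have := prob h
  set s := ∑ i ∈ I, γ i with hsd
  set μ := ∑ i ∈ I, P.real (E i) with hμd
  have hq2 : 0 < q ^ 2 := by positivity
  have hμ1 : s * (q ^ 2 - 4 * ε) ≤ μ := by
    rw [hsd, hμd, sum_mul]
    exact sum_le_sum h1
  have hμ2 : s * q ^ 2 / 2 ≤ μ := by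
    refine le_trans ?_ hμ1
    nlinarith
  have hμ0 : 0 < μ := lt_of_lt_of_le (by positivity) hμ2
  have hvar : ∑ i ∈ I, ∑ j ∈ I, P.real (E i ∩ E j) ≤ μ + s ^ 2 * (q ^ 4 + 16 * ε) := by
    have h3 : ∀ i ∈ I, ∑ j ∈ I, P.real (E i ∩ E j) ≤ P.real (E i) + γ i * s * (q ^ 4 + 16 * ε) := by
      intro i hi
      rw [← add_sum_erase I _ hi, Set.inter_self]
      have h4 : ∑ j ∈ I.erase i, P.real (E i ∩ E j) ≤ ∑ j ∈ I.erase i, γ i * γ j * (q ^ 4 + 16 * ε) :=
        sum_le_sum fun j hj => h2 i hi j (mem_of_mem_erase hj) (ne_of_mem_erase hj).symm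
      have h5 : ∑ j ∈ I.erase i, γ i * γ j * (q ^ 4 + 16 * ε) ≤ ∑ j ∈ I, γ i * γ j * (q ^ 4 + 16 * ε) :=
        sum_le_sum_of_subset_of_nonneg (erase_subset i I) fun j hj _ =>
          mul_nonneg (mul_nonneg (hγ i hi) (hγ j hj)) (by positivity)
      have h6 : ∑ j ∈ I, γ i * γ j * (q ^ 4 + 16 * ε) = γ i * s * (q ^ 4 + 16 * ε) := by
        rw [← sum_mul, ← mul_sum]
      linarith
    calc ∑ i ∈ I, ∑ j ∈ I, P.real (E i ∩ E j) ≤ ∑ i ∈ I, (P.real (E i) + γ i * s * (q ^ 4 + 16 * ε)) := sum_le_sum h3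
      _ = μ + s ^ 2 * (q ^ 4 + 16 * ε) := by
        rw [sum_add_distrib, ← sum_mul, ← sum_mul]
        ring
  have hvar2 : ∑ i ∈ I, ∑ j ∈ I, P.real (E i ∩ E j) - μ ^ 2 ≤ μ + 24 * ε * s ^ 2 := by
    have h3 : (s * (q ^ 2 - 4 * ε)) ^ 2 ≤ μ ^ 2 := by
      have h4 : 0 ≤ s * (q ^ 2 - 4 * ε) := mul_nonneg hpos.le (by nlinarith)
      exact pow_le_pow_left₀ h4 hμ1 2
    have h5 : q ^ 2 ≤ 1 := by nlinarith
    have h6 : 0 ≤ s ^ 2 * ε * (1 - q ^ 2) := mul_nonneg (by positivity) (by linarith)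
    have h7 : 0 ≤ s ^ 2 * ε ^ 2 := by positivity
    nlinarith
  have hch := cheb (P := P) I E hE (μ / 2) (by positivity)
  have hsub : {ω | cnt I E ω < q ^ 2 / 4 * s} ⊆ {ω | μ / 2 ≤ |cnt I E ω - μ|} := by
    intro ω hω
    simp only [Set.mem_ofPred_eq] at hω ⊢
    rw [abs_sub_comm]
    refine le_trans ?_ (le_abs_self _)
    nlinarith
  refine (measureReal_mono hsub).trans (hch.trans ?_)
  have h8 : s ≤ 2 * μ / q ^ 2 := by
    rw [le_div_iff₀ hq2]
    linarith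
  have h9 : s ^ 2 ≤ (2 * μ / q ^ 2) ^ 2 := pow_le_pow_left₀ hpos.le h8 2
  have h10 : (∑ i ∈ I, ∑ j ∈ I, P.real (E i ∩ E j) - μ ^ 2) / (μ / 2) ^ 2 ≤ (μ + 24 * ε * (2 * μ / q ^ 2) ^ 2) / (μ / 2) ^ 2 := by
    refine div_le_div_of_nonneg_right (hvar2.trans ?_) (by positivity)
    have := mul_le_mul_of_nonneg_left h9 (show 0 ≤ 24 * ε by positivity)
    linarith
  have h11 : (μ + 24 * ε * (2 * μ / q ^ 2) ^ 2) / (μ / 2) ^ 2 = 4 / μ + 384 * ε / q ^ 4 := by
    field_simp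
    ring
  have h12 : 4 / μ ≤ 8 / (q ^ 2 * s) := by
    rw [div_le_div_iff₀ hμ0 (by positivity)]
    linarith
  linarith

theorem cls (v g p r : ℕ) (hg : g < p) : ((Icc v (v + g)).filter (fun n => n % p = r)).card ≤ 1 := by
  rw [card_le_one]
  intro m hm n hn
  simp only [mem_filter, mem_Icc] at hm hn
  have h1 : m ≡ n [MOD p] := hm.2.trans hn.2.symm
  refine Nat.ModEq.eq_of_abs_lt h1 ?_
  rw [abs_lt]
  constructor <;> omega

theorem cls2 (v w g p r : ℕ) (hg : g < p) (B : Finset ℕ) (hB : B ⊆ Icc v (v + g) ∪ Icc w (w + g)) :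
    (B.filter (fun n => n % p = r)).card ≤ 2 := by
  calc (B.filter (fun n => n % p = r)).card ≤ ((Icc v (v + g) ∪ Icc w (w + g)).filter (fun n => n % p = r)).card :=
        card_le_card (filter_subset_filter _ hB)
    _ ≤ ((Icc v (v + g)).filter (fun n => n % p = r)).card + ((Icc w (w + g)).filter (fun n => n % p = r)).card := by
        rw [filter_union]
        exact card_union_le _ _
    _ ≤ 2 := by
        have := cls v g p r hg
        have := cls w g p r hg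
        omega

omit [MeasurableSpace Ω] in
theorem cnt_filter (I : Finset ℕ) (Q : ℕ → Ω → Prop) [∀ ω, DecidablePred fun v => Q v ω] (ω : Ω) :
    cnt I (fun v => {ω | Q v ω}) ω = ((I.filter (fun v => Q v ω)).card : ℝ) := by
  classical
  unfold cnt
  rw [card_filter]
  push_cast
  refine sum_congr rfl fun v _ => ?_
  by_cases hv : Q v ω <;> simp [hv]

end Pool.Agent.H559.EG.St2

namespace Pool.Agent.H559.EG

open St2

theorem t_st2 (hT : S_two) : S_st2 := by
  intro Ω _ P a h δ C0 κ hδ hδ4 hC0 hκ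
  classical
  have hprob := prob h
  set ν : ℝ := min κ δ / 4 with hν
  have hmin : 0 < min κ δ := lt_min hκ hδ
  have hν0 : 0 < ν := by positivity
  refine ⟨ν, hν0, ?_⟩
  have hlog : Tendsto (fun x : ℕ => Real.log (x : ℝ)) atTop atTop := Real.tendsto_log_atTop.comp tendsto_natCast_atTop_atTop
  have e1 : ∀ᶠ x : ℕ in atTop, Real.log (x : ℝ) ^ 3 ≤ (x : ℝ) ^ δ := by
    have h1 : ∀ᶠ y : ℝ in atTop, ‖Real.log y ^ (3 : ℝ)‖ ≤ 1 * ‖y ^ δ‖ := (isLittleO_log_rpow_rpow_atTop 3 hδ).bound one_pos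
    filter_upwards [tendsto_natCast_atTop_atTop.eventually h1, hlog.eventually_ge_atTop 0, eventually_ge_atTop 1] with x hx hx0 hx1
    rw [one_mul, Real.norm_of_nonneg (Real.rpow_nonneg (Nat.cast_nonneg x) δ)] at hx
    have h2 := (le_abs_self _).trans hx
    exact_mod_cast h2
  have hpow : ∀ s : ℝ, 0 < s → Tendsto (fun x : ℕ => (x : ℝ) ^ s) atTop atTop := fun s hs =>
    (tendsto_rpow_atTop hs).comp tendsto_natCast_atTop_atTop
  have e2 := (hpow (δ / 2) (by positivity)).eventually_ge_atTop (8 / δ ^ 2)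
  have e3 := (hpow ν hν0).eventually_ge_atTop (8 / δ ^ 2 + 384 / δ ^ 4)
  filter_upwards [hT Ω P a h δ (2 * C0 + 1) hδ hδ4 (by positivity), e1, e2, e3, hlog.eventually_ge_atTop 4,
    eventually_ge_atTop 1] with x hx hx1 hx2 hx3 hx4 hx5
  intro N hN1 hN2 M g hM hg1 hg3 𝒱 B hB hdis hcard
  set T := TT δ x with hTd
  set q := pr 1 T N with hq
  set L := (Ioc T N).filter Nat.Prime with hL
  set G := 1 - q with hG
  set ε : ℝ := (x : ℝ) ^ (-(δ / 2)) with hε
  have hx0 : (0 : ℝ) < x := by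
    have : 0 < x := hx5
    exact_mod_cast this
  have hx1' : (1 : ℝ) ≤ x := by exact_mod_cast hx5
  have hε0 : 0 < ε := Real.rpow_pos_of_pos hx0 _
  have hq0 : 0 < q := lt_of_lt_of_le hδ hN2
  have hG0 : 0 < G := by linarith
  have hG1 : G ≤ 1 := by linarith
  have hq1 : q ≤ 1 := by linarith
  have hgT : g ≤ T := by
    rw [hTd]
    unfold TT
    exact Nat.le_floor (hg3.trans hx1)
  have hε8 : 8 * ε ≤ δ ^ 2 := by
    have h1 : ε * (x : ℝ) ^ (δ / 2) = 1 := by
      rw [hε, ← Real.rpow_add hx0]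
      simp
    have h2 : 8 ≤ δ ^ 2 * (x : ℝ) ^ (δ / 2) := by
      have h3 := mul_le_mul_of_nonneg_left hx2 (show 0 ≤ δ ^ 2 by positivity)
      rwa [mul_div_cancel₀ _ (by positivity)] at h3
    calc 8 * ε ≤ δ ^ 2 * (x : ℝ) ^ (δ / 2) * ε := mul_le_mul_of_nonneg_right h2 hε0.le
      _ = δ ^ 2 * (ε * (x : ℝ) ^ (δ / 2)) := by ring
      _ = δ ^ 2 := by rw [h1, mul_one]
  -- the approximation for the subsets of two windows
  have happ : ∀ v ∈ 𝒱, ∀ w ∈ 𝒱, ∀ B' ⊆ (B v ∪ B w) ∪ ({v, v + g} ∪ {w, w + g}),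
      |P.real {ω | ∀ n ∈ B', ∃ p ∈ L, n % p = a p ω} - G ^ B'.card| ≤ ε * G ^ B'.card := by
    intro v hv w hw B' hB'
    obtain ⟨hv1, hv2, hv3⟩ := hB v hv
    obtain ⟨hw1, hw2, hw3⟩ := hB w hw
    have hsub : B' ⊆ Icc v (v + g) ∪ Icc w (w + g) := by
      intro n hn
      have h1 := hB' hn
      simp only [mem_union, mem_insert, mem_singleton] at h1
      simp only [mem_union, mem_Icc]
      rcases h1 with (h1 | h1) | ((h1 | h1) | (h1 | h1))
      · have := mem_Ioo.1 (hv2 h1)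
        omega
      · have := mem_Ioo.1 (hw2 h1)
        omega
      · omega
      · omega
      · omega
      · omega
    refine hx N hN1 B' ?_ ?_ ?_
    · intro n hn
      have h1 := hsub hn
      simp only [mem_union, mem_Icc] at h1
      omega
    · have h1 : B'.card ≤ 2 * M + 4 := by
        refine (card_le_card hB').trans ((card_union_le _ _).trans ?_)
        have h2 : (B v ∪ B w).card ≤ 2 * M := (card_union_le _ _).trans (by omega)
        have h3 : (({v, v + g} : Finset ℕ) ∪ {w, w + g}).card ≤ 4 :=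
          (card_union_le _ _).trans (by
            have := card_le_two (a := v) (b := v + g)
            have := card_le_two (a := w) (b := w + g)
            omega)
        omega
      have h2 : (B'.card : ℝ) ≤ 2 * M + 4 := by exact_mod_cast h1
      nlinarith
    · intro p hp r
      exact cls2 v w g p r (lt_of_le_of_lt hgT hp) B' hsub
  set E : ℕ → Set Ω := fun v => {ω | Fv (fun q => a q ω) L (B v) v g} with hE
  have hEPs : ∀ v, E v = Ps a L (B v) {v, v + g} := by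
    intro v
    ext ω
    simp only [hE, Fv, Ps, Set.mem_ofPred_eq, mem_insert, mem_singleton, forall_eq_or_imp, forall_eq, not_exists, not_and]
    constructor
    · rintro ⟨h1, h2⟩
      exact ⟨h1, fun p hp => (h2 p hp).1, fun p hp => (h2 p hp).2⟩
    · rintro ⟨h1, h2, h3⟩
      exact ⟨h1, fun p hp => ⟨h2 p hp, h3 p hp⟩⟩
  have hEE : ∀ v w, E v ∩ E w = Ps a L (B v ∪ B w) ({v, v + g} ∪ {w, w + g}) := by
    intro v w
    rw [hEPs, hEPs]
    ext ω
    simp only [Ps, Set.mem_inter_iff, Set.mem_ofPred_eq, mem_union]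
    constructor
    · rintro ⟨⟨h1, h2⟩, h3, h4⟩
      exact ⟨fun n hn => hn.elim (h1 n) (h3 n), fun n hn => hn.elim (h2 n) (h4 n)⟩
    · rintro ⟨h1, h2⟩
      exact ⟨⟨fun n hn => h1 n (Or.inl hn), fun n hn => h2 n (Or.inl hn)⟩,
        fun n hn => h1 n (Or.inr hn), fun n hn => h2 n (Or.inr hn)⟩
  have hdisj1 : ∀ v ∈ 𝒱, Disjoint (B v) {v, v + g} := by
    intro v hv
    rw [disjoint_left]
    intro n hn hn'
    have h1 := mem_Ioo.1 ((hB v hv).2.1 hn)
    simp only [mem_insert, mem_singleton] at hn'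
    omega
  have hcard2 : ∀ v : ℕ, ({v, v + g} : Finset ℕ).card = 2 := fun v => card_pair (by omega)
  have hone : ∀ v ∈ 𝒱, G ^ (B v).card * (q ^ 2 - 4 * ε) ≤ P.real (E v) := by
    intro v hv
    have h1 := ie h L G ε hG0.le hG1 hε0.le {v, v + g} (B v) (hdisj1 v hv) fun B' hB' =>
      happ v hv v hv B' (hB'.trans (by simp))
    rw [← hEPs, hcard2] at h1
    have h2 := (abs_le.1 h1).1
    have h3 : (1 - G) = q := by rw [hG]; ring
    rw [h3] at h2
    linarith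
  have hwin : ∀ v ∈ 𝒱, ∀ w ∈ 𝒱, v ≠ w → v + g < w ∨ w + g < v := by
    intro v hv w hw hvw
    rcases lt_or_gt_of_ne hvw with h1 | h1
    · exact Or.inl (hdis v hv w hw h1)
    · exact Or.inr (hdis w hw v hv h1)
  have htwo : ∀ v ∈ 𝒱, ∀ w ∈ 𝒱, v ≠ w →
      P.real (E v ∩ E w) ≤ G ^ (B v).card * G ^ (B w).card * (q ^ 4 + 16 * ε) := by
    intro v hv w hw hvw
    have hw1 := hwin v hv w hw hvw
    have hv2 := (hB v hv).2.1
    have hw2 := (hB w hw).2.1
    have hBd : Disjoint (B v) (B w) := by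
      rw [disjoint_left]
      intro n hn hn'
      have h1 := mem_Ioo.1 (hv2 hn)
      have h2 := mem_Ioo.1 (hw2 hn')
      omega
    have hUd : Disjoint ({v, v + g} : Finset ℕ) {w, w + g} := by
      rw [disjoint_left]
      intro n hn hn'
      simp only [mem_insert, mem_singleton] at hn hn'
      omega
    have hd : Disjoint (B v ∪ B w) ({v, v + g} ∪ {w, w + g}) := by
      rw [disjoint_left]
      intro n hn hn'
      simp only [mem_union, mem_insert, mem_singleton] at hn hn'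
      rcases hn with hn | hn
      · have h1 := mem_Ioo.1 (hv2 hn)
        omega
      · have h1 := mem_Ioo.1 (hw2 hn)
        omega
    have h1 := ie h L G ε hG0.le hG1 hε0.le ({v, v + g} ∪ {w, w + g}) (B v ∪ B w) hd (happ v hv w hw)
    rw [← hEE, card_union_of_disjoint hUd, hcard2, hcard2, card_union_of_disjoint hBd] at h1
    have h2 := (abs_le.1 h1).2
    have h3 : (1 - G) = q := by rw [hG]; ring
    rw [h3, pow_add] at h2
    norm_num at h2
    linarith
  have hcount : ∀ ω, cnt 𝒱 E ω = ((𝒱.filter (fun v => Fv (fun q => a q ω) L (B v) v g)).card : ℝ) := by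
    intro ω
    exact cnt_filter 𝒱 (fun v ω => Fv (fun q => a q ω) L (B v) v g) ω
  have hsum : (x : ℝ) ^ κ ≤ ∑ v ∈ 𝒱, G ^ (B v).card := by
    refine hcard.trans ?_
    rw [← nsmul_eq_mul, ← sum_const]
    exact sum_le_sum fun v hv => pow_le_pow_of_le_one hG0.le hG1 (hB v hv).2.2
  have hxκ : 0 < (x : ℝ) ^ κ := Real.rpow_pos_of_pos hx0 _
  have hδq : δ ^ 2 ≤ q ^ 2 := pow_le_pow_left₀ hδ.le hN2 2
  have hδq4 : δ ^ 4 ≤ q ^ 4 := pow_le_pow_left₀ hδ.le hN2 4
  have hmain := sm h 𝒱 E (fun v => G ^ (B v).card) q ε hq0 hq1 hε0.le (hε8.trans hδq) (fun v _ => by positivity)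
    (fun v _ => by rw [hEPs]; exact Ps_meas h _ _ _) hone htwo (lt_of_lt_of_le hxκ hsum)
  have hsub : {ω | ((𝒱.filter (fun v => Fv (fun q => a q ω) L (B v) v g)).card : ℝ) < δ ^ 2 / 4 * (x : ℝ) ^ κ} ⊆
      {ω | cnt 𝒱 E ω < q ^ 2 / 4 * ∑ v ∈ 𝒱, G ^ (B v).card} := by
    intro ω hω
    simp only [Set.mem_ofPred_eq] at hω ⊢
    rw [hcount]
    refine lt_of_lt_of_le hω ?_
    exact mul_le_mul (by linarith) hsum hxκ.le (by positivity)
  refine (measureReal_mono hsub).trans (hmain.trans ?_)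
  have k1 : 8 / (q ^ 2 * ∑ v ∈ 𝒱, G ^ (B v).card) ≤ 8 / (δ ^ 2 * (x : ℝ) ^ κ) :=
    div_le_div_of_nonneg_left (by norm_num) (by positivity) (mul_le_mul hδq hsum hxκ.le (by positivity))
  have k2 : 384 * ε / q ^ 4 ≤ 384 * ε / δ ^ 4 :=
    div_le_div_of_nonneg_left (by positivity) (by positivity) hδq4
  have k3 : 1 / (x : ℝ) ^ κ ≤ (x : ℝ) ^ (-(2 * ν)) := by
    rw [one_div, ← Real.rpow_neg hx0.le]
    refine Real.rpow_le_rpow_of_exponent_le hx1' ?_
    have := min_le_left κ δ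
    linarith
  have k4 : ε ≤ (x : ℝ) ^ (-(2 * ν)) := by
    refine Real.rpow_le_rpow_of_exponent_le hx1' ?_
    have := min_le_right κ δ
    linarith
  have k5 : 8 / (δ ^ 2 * (x : ℝ) ^ κ) = 8 / δ ^ 2 * (1 / (x : ℝ) ^ κ) := by
    field_simp
  have k6 : 384 * ε / δ ^ 4 = 384 / δ ^ 4 * ε := by ring
  calc 8 / (q ^ 2 * ∑ v ∈ 𝒱, G ^ (B v).card) + 384 * ε / q ^ 4 ≤ 8 / (δ ^ 2 * (x : ℝ) ^ κ) + 384 * ε / δ ^ 4 := add_le_add k1 k2
    _ ≤ 8 / δ ^ 2 * (x : ℝ) ^ (-(2 * ν)) + 384 / δ ^ 4 * (x : ℝ) ^ (-(2 * ν)) := by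
      rw [k5, k6]
      exact add_le_add (mul_le_mul_of_nonneg_left k3 (by positivity)) (mul_le_mul_of_nonneg_left k4 (by positivity))
    _ = (8 / δ ^ 2 + 384 / δ ^ 4) * (x : ℝ) ^ (-(2 * ν)) := by ring
    _ ≤ (x : ℝ) ^ ν * (x : ℝ) ^ (-(2 * ν)) := mul_le_mul_of_nonneg_right hx3 (by positivity)
    _ = (x : ℝ) ^ (-ν) := by
      rw [← Real.rpow_add hx0]
      congr 1
      ring

end Pool.Agent.H559.EG
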