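import Pool.Agent.H559.EG.Stm

/-! # All the elements of a set are hit (helper548 for helper559) -/

set_option autoImplicit false

open Finset MeasureTheory ProbabilityTheory Filter Topology
open Pool.Agent.T2H32.BF (Model card_dvd_diff')
open Pool.Agent.H559.BS (TT TT_ge)
open Pool.Agent.H559.HY (Ev surv)
open Pool.Agent.H559.GP (Gp Gf Ph P0 kap Dat one_low one_up)

namespace Pool.Agent.H559.EG

namespace Two

/-- the killing classes -/
def kl (p n : ℕ) : Finset ℕ := {n % p}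

theorem Gf_eq (T N n : ℕ) : Gf kl ((Ioc T N).filter Nat.Prime) n = 1 - pr 1 T N := by
  unfold Gf kap kl pr
  simp

theorem P0_eq (T N : ℕ) (B : Finset ℕ) :
    P0 (Gf kl ((Ioc T N).filter Nat.Prime)) B = (1 - pr 1 T N) ^ B.card := by
  unfold P0
  rw [prod_congr rfl fun n _ => Gf_eq T N n, prod_const]

theorem Ph_eq {Ω : Type} [MeasurableSpace Ω] (P : Measure Ω) (a : ℕ → Ω → ℕ) (L B : Finset ℕ) :
    Ph P kl a L B = P.real {ω | ∀ n ∈ B, ∃ p ∈ L, n % p = a p ω} := by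
  unfold Ph Ev
  have e : {ω | (surv kl (fun i => a i ω) L B).card = 0} = {ω | ∀ n ∈ B, ∃ p ∈ L, n % p = a p ω} := by
    ext ω
    rw [Set.mem_ofPred_eq, Set.mem_ofPred_eq, card_eq_zero]
    unfold surv
    rw [filter_eq_empty_iff]
    refine forall_congr' fun n => forall_congr' fun _ => ?_
    constructor
    · intro h
      by_contra hcon
      refine h fun p hp hm => hcon ⟨p, hp, ?_⟩
      exact (mem_singleton.1 hm).symm
    · rintro ⟨p, hp, h⟩ hall
      exact hall p hp (mem_singleton.2 h.symm)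
  rw [e]

theorem bad_card (L B : Finset ℕ) (x M : ℕ) (hL : ∀ p ∈ L, p.Prime) (hB : ∀ n ∈ B, n ≤ x) (hM : B.card ≤ M)
    (Lb : Finset ℕ) (hs : Lb ⊆ L) (hb : ∀ p ∈ Lb, ¬ Gp kl p B) : Lb.card ≤ M * M * Nat.log 2 x := by
  classical
  have h1 : Lb ⊆ (B ×ˢ B).biUnion (fun q => L.filter (fun p => q.1 ≠ q.2 ∧ q.1 % p = q.2 % p)) := by
    intro p hp
    have h2 := hb p hp
    unfold Gp at h2
    push Not at h2
    obtain ⟨n, hn, n', hn', hne, hd⟩ := h2
    rw [mem_biUnion]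
    refine ⟨(n, n'), mem_product.2 ⟨hn, hn'⟩, mem_filter.2 ⟨hs hp, hne, ?_⟩⟩
    unfold kl at hd
    rw [disjoint_singleton] at hd
    push Not at hd
    exact hd
  refine (card_le_card h1).trans ((card_biUnion_le_card_mul _ _ (Nat.log 2 x) fun q hq => ?_).trans ?_)
  · obtain ⟨n, n'⟩ := q
    rw [mem_product] at hq
    by_cases hne : n = n'
    · subst hne
      simp
    · refine le_trans (card_le_card ?_) (card_dvd_diff' L hL n n' x hne ?_ ?_)
      · intro p hp
        rw [mem_filter] at hp ⊢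
        exact ⟨hp.1, hp.2.2⟩
      · exact (hB n hq.1).trans (Nat.le_add_left _ _)
      · exact (hB n' hq.2).trans (Nat.le_add_left _ _)
  · rw [card_product]
    exact Nat.mul_le_mul_right _ (Nat.mul_le_mul hM hM)

theorem dat (T N x M : ℕ) (B : Finset ℕ) (hG : 1 / 2 ≤ 1 - pr 1 T N) (hB : ∀ n ∈ B, n ≤ x) (hM : B.card ≤ M)
    (hf : ∀ p, T < p → ∀ r, (B.filter (fun n => n % p = r)).card ≤ 2) :
    Dat kl ((Ioc T N).filter Nat.Prime) T N 1 M (M * M * Nat.log 2 x) 2 (1 / 2) B where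
  prime := fun p hp => (mem_filter.1 hp).2
  sub := filter_subset _ _
  rng := by
    intro p hp n _
    unfold kl
    rw [singleton_subset_iff, mem_range]
    exact Nat.mod_lt _ (mem_filter.1 hp).2.pos
  card := by
    intro p _ n _
    unfold kl
    rw [card_singleton]
  bad := bad_card _ B x M (fun p hp => (mem_filter.1 hp).2) hB hM
  fib := by
    intro p hp r
    refine le_trans (card_le_card ?_) (hf p (mem_Ioc.1 (mem_filter.1 hp).1).1 r)
    intro n hn
    rw [mem_filter] at hn ⊢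
    exact ⟨hn.1, (mem_singleton.1 hn.2).symm⟩
  low := by
    intro n _
    rw [Gf_eq]
    exact hG

theorem logNat (x : ℕ) (hx : 1 ≤ x) : (Nat.log 2 x : ℝ) ≤ 2 * Real.log x := by
  have h1 : (2 : ℝ) ^ (Nat.log 2 x) ≤ x := by
    exact_mod_cast Nat.pow_log_le_self 2 (by omega : x ≠ 0)
  have h2 := Real.log_le_log (by positivity) h1
  rw [Real.log_pow] at h2
  have h3 := Real.log_two_gt_d9
  have h4 : (0 : ℝ) ≤ (Nat.log 2 x : ℝ) := Nat.cast_nonneg _
  nlinarith

/-- the numerical part -/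
theorem num (m b l c v T : ℝ) (hm0 : 0 ≤ m) (hb0 : 0 ≤ b) (hm : m ≤ c * l) (hb : b ≤ m * m * (2 * l)) (hc : 1 ≤ c)
    (hl : 1 ≤ l) (hv : 1 ≤ v) (hT : v ^ 2 / 2 ≤ T) (hk : 256 * c ^ 3 * l ^ 4 ≤ v) :
    b / T ≤ 1 / 4 ∧ m * (b / T / (1 / 2)) + 4 * m ^ 2 / (T * (1 / 2) ^ 2) ≤ v⁻¹ ∧
      Real.exp (b * (2 * m * 16) / T) ≤ 1 + v⁻¹ := by
  have hT0 : 0 < T := by nlinarith
  have hv0 : 0 < v := by linarith
  have hl0 : 0 < l := by linarith
  have hc0 : 0 < c := by linarith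
  have hcl : 0 < c * l := by positivity
  have hm2 : m * m ≤ (c * l) * (c * l) := mul_le_mul hm hm hm0 hcl.le
  have hb2 : b ≤ 2 * (c ^ 2 * l ^ 3) := by
    calc b ≤ m * m * (2 * l) := hb
      _ ≤ (c * l) * (c * l) * (2 * l) := mul_le_mul_of_nonneg_right hm2 (by positivity)
      _ = _ := by ring
  have hmb : m * b ≤ 2 * (c ^ 3 * l ^ 4) := by
    calc m * b ≤ (c * l) * (2 * (c ^ 2 * l ^ 3)) := mul_le_mul hm hb2 hb0 hcl.le
      _ = _ := by ring
  have hcl1 : 1 ≤ c * l := by nlinarith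
  have hA : c ^ 2 * l ^ 3 ≤ c ^ 3 * l ^ 4 := by
    have h0 : 0 ≤ c ^ 2 * l ^ 3 := by positivity
    calc c ^ 2 * l ^ 3 = c ^ 2 * l ^ 3 * 1 := by ring
      _ ≤ c ^ 2 * l ^ 3 * (c * l) := mul_le_mul_of_nonneg_left hcl1 h0
      _ = _ := by ring
  have hA2 : (c * l) * (c * l) ≤ c ^ 3 * l ^ 4 := by
    have h0 : 0 ≤ (c * l) * (c * l) := by positivity
    have h1 : 1 ≤ c * l ^ 2 := by nlinarith
    calc (c * l) * (c * l) = (c * l) * (c * l) * 1 := by ring
      _ ≤ (c * l) * (c * l) * (c * l ^ 2) := mul_le_mul_of_nonneg_left h1 h0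
      _ = _ := by ring
  set A := c ^ 3 * l ^ 4 with hAdef
  have hA0 : 0 < A := by positivity
  have hAv : 256 * A ≤ v := by
    rw [hAdef]
    linarith
  -- A / T ≤ 1 / (128 v)
  have hAT : A / T ≤ v⁻¹ / 128 := by
    rw [div_le_div_iff₀ hT0 (by norm_num), inv_mul_eq_div, le_div_iff₀ hv0]
    nlinarith
  have hvi : v⁻¹ ≤ 1 := inv_le_one_of_one_le₀ hv
  have hvi0 : 0 < v⁻¹ := by positivity
  refine ⟨?_, ?_, ?_⟩
  · calc b / T ≤ 2 * A / T := by
          apply div_le_div_of_nonneg_right _ hT0.le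
          linarith
      _ = 2 * (A / T) := by ring
      _ ≤ 1 / 4 := by linarith
  · calc m * (b / T / (1 / 2)) + 4 * m ^ 2 / (T * (1 / 2) ^ 2) = (2 * (m * b) + 16 * (m * m)) / T := by
          field_simp
          ring
      _ ≤ (20 * A) / T := by
          apply div_le_div_of_nonneg_right _ hT0.le
          linarith
      _ = 20 * (A / T) := by ring
      _ ≤ v⁻¹ := by linarith
  · have h1 : b * (2 * m * 16) / T ≤ v⁻¹ / 2 := by
      calc b * (2 * m * 16) / T = (32 * (m * b)) / T := by ring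
        _ ≤ (64 * A) / T := by
          apply div_le_div_of_nonneg_right _ hT0.le
          linarith
        _ = 64 * (A / T) := by ring
        _ ≤ v⁻¹ / 2 := by linarith
    have h0 : 0 ≤ b * (2 * m * 16) / T := by positivity
    have h2 := Real.abs_exp_sub_one_le (x := b * (2 * m * 16) / T) (by
      rw [abs_of_nonneg h0]
      linarith)
    rw [abs_of_nonneg h0] at h2
    have h3 := le_abs_self (Real.exp (b * (2 * m * 16) / T) - 1)
    linarith

end Two

open Two in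
theorem t_two : S_two := by
  intro Ω _ P a h δ C0 hδ _ hC0
  set c : ℝ := C0 + 1 with hc
  have hc1 : 1 ≤ c := by linarith
  have hl : ∀ᶠ x : ℕ in atTop, 256 * c ^ 3 * Real.log x ^ 4 ≤ (x : ℝ) ^ (δ / 2) := by
    have h1 := isLittleO_log_rpow_rpow_atTop (4 : ℝ) (s := δ / 2) (by linarith)
    have h2 := h1.bound (c := 1 / (256 * c ^ 3)) (by positivity)
    have h3 := tendsto_natCast_atTop_atTop.eventually h2
    filter_upwards [h3, eventually_ge_atTop 1] with x hx hx1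
    have hx1' : (1 : ℝ) ≤ x := by exact_mod_cast hx1
    have e : Real.log x ^ (4 : ℝ) = Real.log x ^ 4 := by
      rw [← Real.rpow_natCast]
      norm_num
    have h4 : 0 ≤ Real.log x ^ 4 := by positivity
    have h5 : (0 : ℝ) ≤ (x : ℝ) ^ (δ / 2) := by positivity
    rw [e, Real.norm_of_nonneg h4, Real.norm_of_nonneg h5] at hx
    have h6 : (0 : ℝ) < 256 * c ^ 3 := by positivity
    rw [one_div, inv_mul_eq_div, le_div_iff₀ h6] at hx
    linarith
  have hlog : Tendsto (fun x : ℕ => Real.log x) atTop atTop := Real.tendsto_log_atTop.comp tendsto_natCast_atTop_atTop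
  filter_upwards [hl, hlog.eventually_ge_atTop 1, TT_ge δ hδ, eventually_ge_atTop 1] with x h1 h2 h3 h4
  intro N hG B hB hcard hf
  have hx1 : (1 : ℝ) ≤ x := by exact_mod_cast h4
  set T := TT δ x with hT
  set M := ⌊C0 * Real.log x⌋₊ with hM
  have hM1 : B.card ≤ M := Nat.le_floor hcard
  have hM2 : (M : ℝ) ≤ C0 * Real.log x := Nat.floor_le (by positivity)
  set v : ℝ := (x : ℝ) ^ (δ / 2) with hv
  have hv1 : 1 ≤ v := Real.one_le_rpow hx1 (by linarith)
  have hvT : v ^ 2 / 2 ≤ T := by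
    have e : v ^ 2 = (x : ℝ) ^ δ := by
      rw [hv, ← Real.rpow_natCast, ← Real.rpow_mul (by linarith)]
      congr 1
      push_cast
      ring
    rw [e]
    exact h3.1
  have hvi : (x : ℝ) ^ (-(δ / 2)) = v⁻¹ := Real.rpow_neg (by linarith) _
  have hT0 : 0 < T := h3.2
  have d := dat T N x M B hG hB hM1 hf
  have hβ : ((M * M * Nat.log 2 x : ℕ) : ℝ) ≤ M * M * (2 * Real.log x) := by
    push_cast
    exact mul_le_mul_of_nonneg_left (logNat x h4) (by positivity)
  obtain ⟨n1, n2, n3⟩ := num (M : ℝ) ((M * M * Nat.log 2 x : ℕ) : ℝ) (Real.log x) c v T (by positivity) (by positivity)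
    (by
      refine hM2.trans ?_
      rw [hc]
      nlinarith) hβ hc1 h2 hv1 hvT h1
  have k1 : ((1 : ℕ) : ℝ) * ((M * M * Nat.log 2 x : ℕ) : ℝ) / T ≤ 1 / 2 / 2 := by
    rw [Nat.cast_one, one_mul]
    linarith
  have l1 := one_low h d hT0 (by norm_num) k1 hM1
  have l2 := one_up h d hT0 (by norm_num) (by norm_num) k1 (by omega)
  rw [P0_eq, Ph_eq] at l1 l2
  have hG0 : 0 ≤ (1 - pr 1 T N) ^ B.card := pow_nonneg (by linarith) _
  have e1 : ((M : ℝ) * (((1 : ℕ) : ℝ) * ((M * M * Nat.log 2 x : ℕ) : ℝ) / T / (1 / 2)) +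
      4 * ((1 : ℕ) : ℝ) ^ 2 * (M : ℝ) ^ 2 / (T * (1 / 2) ^ 2)) ≤ v⁻¹ := by
    rw [Nat.cast_one, one_mul, one_pow, mul_one]
    exact n2
  have e2 : ((M * M * Nat.log 2 x : ℕ) : ℝ) * (2 * M * ((1 : ℕ) : ℝ) * (2 / (1 / 2)) ^ 2) / T =
      ((M * M * Nat.log 2 x : ℕ) : ℝ) * (2 * M * 16) / T := by
    rw [Nat.cast_one, mul_one]
    norm_num
  rw [e2] at l2
  have l3 := mul_le_mul_of_nonneg_left n3 hG0
  have l4 := mul_le_mul_of_nonneg_left e1 hG0
  rw [hvi, abs_le]
  constructor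
  · linarith
  · linarith

end Pool.Agent.H559.EG
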