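import Pool.Agent.H559.EG.Stm

set_option autoImplicit false

/-! # Exact gaps of the random sieve: membership in the random primes (deterministic) -/

open Finset MeasureTheory ProbabilityTheory Filter Topology
open Pool.Agent.H559.IX (R0 Lim)

namespace Pool.Agent.H559.EG

namespace Mem

/-- comparison of the logarithms for `x / 2 < u ≤ x` -/
theorem logs {x u : ℕ} {c : ℝ} (hc : 1 < c) (hx : 6 ≤ x) (h1 : x / 2 < u) (h2 : u ≤ x) :
    0 ≤ Real.log ((x : ℝ) / 2) ^ c ∧ Real.log ((x : ℝ) / 2) ^ c ≤ Real.log (u : ℝ) ^ c ∧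
      Real.log (u : ℝ) ^ c ≤ Real.log (x : ℝ) ^ c := by
  have hx6 : (6 : ℝ) ≤ x := by exact_mod_cast hx
  have h3 : (x : ℝ) / 2 ≤ u := by
    have h4 : x ≤ 2 * u := by omega
    have h5 : (x : ℝ) ≤ 2 * u := by exact_mod_cast h4
    linarith
  have h4 : (u : ℝ) ≤ x := by exact_mod_cast h2
  have h5 : 0 ≤ Real.log ((x : ℝ) / 2) := Real.log_nonneg (by linarith)
  have h6 : Real.log ((x : ℝ) / 2) ≤ Real.log (u : ℝ) := Real.log_le_log (by linarith) h3
  have h7 : Real.log (u : ℝ) ≤ Real.log (x : ℝ) := Real.log_le_log (by linarith) h4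
  exact ⟨Real.rpow_nonneg h5 _, Real.rpow_le_rpow h5 h6 (by linarith),
    Real.rpow_le_rpow (h5.trans h6) h7 (by linarith)⟩

/-- a survivor is in the set -/
theorem mem_R0 {x u T : ℕ} {c : ℝ} {z b : ℕ → ℕ} (hc : 1 < c) (hz : Monotone z) (hx : 6 ≤ x)
    (h1 : x / 2 < u) (h2 : u ≤ x) (hT : w2 c x ≤ T) (hS : St (w1 c x) (w2 c x) T b u)
    (hL : ∀ p, T < p → p ≤ z (x / 2) → p.Prime → u % p ≠ b p)
    (hM : ∀ p, z (x / 2) < p → p ≤ z x → p.Prime → u % p ≠ b p) : u ∈ R0 z c b := by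
  obtain ⟨h0, hl, hr⟩ := logs hc hx h1 h2
  refine ⟨by omega, fun q hq hqp => ?_⟩
  by_cases hql : (q : ℝ) ≤ Real.log (u : ℝ) ^ c
  · rw [if_pos hql]
    have h3 : q ≤ w2 c x := Nat.le_floor (hql.trans hr)
    exact (hS q (h3.trans hT) hqp).1 h3
  · rw [if_neg hql]
    have h3 : w1 c x < q := (Nat.floor_lt h0).2 (lt_of_le_of_lt hl (not_le.1 hql))
    by_cases hqT : q ≤ T
    · exact (hS q hqT hqp).2 h3
    · by_cases hqz : q ≤ z (x / 2)
      · exact hL q (not_le.1 hqT) hqz hqp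
      · exact hM q (not_le.1 hqz) (hq.trans (hz h2)) hqp

end Mem

theorem t_mem : S_mem := by
  classical
  intro c hc z hz x T hx hTz hwT b v g hv hg hSv hSg B hB hF hlast
  have hmono := hz.1
  refine ⟨?_, ?_, ?_⟩
  · refine Mem.mem_R0 hc hmono hx hv (by omega) hwT hSv (fun p h1 h2 h3 => ?_)
      (fun p h1 h2 h3 => ?_)
    · exact (hF.2 p (Finset.mem_filter.2 ⟨Finset.mem_Ioc.2 ⟨h1, h2⟩, h3⟩)).1
    · exact (hlast p (Finset.mem_filter.2 ⟨Finset.mem_Ioc.2 ⟨h1, h2⟩, h3⟩)).1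
  · refine Mem.mem_R0 hc hmono hx (by omega) hg.le hwT hSg (fun p h1 h2 h3 => ?_)
      (fun p h1 h2 h3 => ?_)
    · exact (hF.2 p (Finset.mem_filter.2 ⟨Finset.mem_Ioc.2 ⟨h1, h2⟩, h3⟩)).2
    · exact (hlast p (Finset.mem_filter.2 ⟨Finset.mem_Ioc.2 ⟨h1, h2⟩, h3⟩)).2
  · intro n hn hR
    have hn' := Finset.mem_Ioo.1 hn
    have hn1 : x / 2 < n := by omega
    have hn2 : n ≤ x := by omega
    obtain ⟨h0, hl, hr⟩ := Mem.logs hc hx hn1 hn2
    have hw2 : ∀ p : ℕ, w2 c x < p → ¬ (p : ℝ) ≤ Real.log (n : ℝ) ^ c := by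
      intro p hp hle
      have h3 := (Nat.floor_lt (h0.trans (hl.trans hr))).1 hp
      linarith
    by_cases hW : Wk (w1 c x) (w2 c x) T b n
    · obtain ⟨p, hp, hpn⟩ := hF.1 n (hB n hn hW)
      obtain ⟨hpI, hpp⟩ := Finset.mem_filter.1 hp
      have hpI' := Finset.mem_Ioc.1 hpI
      have h4 := hR.2 p (hpI'.2.trans (hmono hn1.le)) hpp
      rw [if_neg (hw2 p (lt_of_le_of_lt hwT hpI'.1))] at h4
      exact h4 hpn
    · apply hW
      intro p hpT hpp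
      have hpz : p ≤ z n := (hpT.trans hTz.le).trans (hmono hn1.le)
      have h4 := hR.2 p hpz hpp
      refine ⟨fun h5 => ?_, fun h5 => ?_⟩
      · have h6 : (p : ℝ) ≤ Real.log (n : ℝ) ^ c :=
          ((Nat.le_floor_iff h0).1 h5).trans hl
        rw [if_pos h6] at h4
        exact h4
      · rw [if_neg (hw2 p h5)] at h4
        exact h4

end Pool.Agent.H559.EG
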