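import Pool.Agent.H559.EG.Stm

set_option autoImplicit false

/-! # Rough numbers (`S_phi`), by helper870 -/

namespace Pool.Agent.H559.EG

open Finset Filter Topology

namespace Phi

theorem card_primes (n : ℕ) : ((range (n + 1)).filter Nat.Prime).card = Nat.primeCounting n := by
  rw [Nat.primeCounting, Nat.primeCounting', Nat.count_eq_card_filter_range]

theorem count (k g y : ℕ) (hg : k ^ 3 < g) (hy : g ≤ k * y ^ 2) :
    ((Icc 1 g).filter (fun n => ∀ p ≤ y, p.Prime → ¬ p ∣ n)).card ≤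
      1 + Nat.primeCounting g +
        Nat.primeCounting (Nat.sqrt g) * Nat.primeCounting (Nat.sqrt (k * g)) := by
  classical
  have hg0 : 0 < g := by omega
  have hy0 : 0 < y := by
    rcases Nat.eq_zero_or_pos y with h | h
    · subst h
      simp at hy
      omega
    · exact h
  have hy3 : g < y ^ 3 := by
    have h1 : g ^ 3 ≤ k ^ 3 * y ^ 6 := by
      calc g ^ 3 ≤ (k * y ^ 2) ^ 3 := Nat.pow_le_pow_left hy 3
        _ = k ^ 3 * y ^ 6 := by ring
    have h2 : k ^ 3 * y ^ 6 < g * y ^ 6 := Nat.mul_lt_mul_of_pos_right hg (by positivity)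
    have h3 : g * (g ^ 2) < g * ((y ^ 3) ^ 2) := by
      calc g * (g ^ 2) = g ^ 3 := by ring
        _ < g * y ^ 6 := lt_of_le_of_lt h1 h2
        _ = g * ((y ^ 3) ^ 2) := by ring
    have h4 : g ^ 2 < (y ^ 3) ^ 2 := lt_of_mul_lt_mul_left h3 hg0.le
    exact lt_of_pow_lt_pow_left₀ 2 (by positivity) h4
  have hsub : (Icc 1 g).filter (fun n => ∀ p ≤ y, p.Prime → ¬ p ∣ n) ⊆
      insert 1 ((range (g + 1)).filter Nat.Prime ∪
        (((range (Nat.sqrt g + 1)).filter Nat.Prime) ×ˢ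
          ((range (Nat.sqrt (k * g) + 1)).filter Nat.Prime)).image (fun q => q.1 * q.2)) := by
    intro n hn
    obtain ⟨hn1, hn2⟩ := mem_filter.mp hn
    obtain ⟨h1, hng⟩ := mem_Icc.mp hn1
    by_cases hne : n = 1
    · rw [hne]; exact mem_insert_self _ _
    apply mem_insert_of_mem
    rw [mem_union]
    by_cases hpr : n.Prime
    · left
      exact mem_filter.mpr ⟨mem_range.mpr (by omega), hpr⟩
    right
    have hp : n.minFac.Prime := Nat.minFac_prime hne
    have hpn : n.minFac ∣ n := Nat.minFac_dvd n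
    have hyp : y < n.minFac := by
      by_contra h
      exact hn2 _ (not_lt.mp h) hp hpn
    obtain ⟨p, hpe⟩ : ∃ p, p = n.minFac := ⟨_, rfl⟩
    rw [← hpe] at hp hpn hyp
    have hsq : p ^ 2 ≤ n := by
      rw [hpe]
      exact Nat.minFac_sq_le_self h1 hpr
    obtain ⟨m, hm⟩ := hpn
    have hp0 : 0 < p := hp.pos
    have hm1 : m ≠ 1 := by
      intro h
      rw [h, mul_one] at hm
      exact hpr (hm ▸ hp)
    have hm0 : 0 < m := by
      rcases Nat.eq_zero_or_pos m with h | h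
      · rw [h, mul_zero] at hm
        omega
      · exact h
    have hmp : m.Prime := by
      by_contra hmnp
      have hq : m.minFac.Prime := Nat.minFac_prime hm1
      have hqm : m.minFac ^ 2 ≤ m := Nat.minFac_sq_le_self hm0 hmnp
      have hqn : m.minFac ∣ n := (Nat.minFac_dvd m).trans ⟨p, by rw [hm]; ring⟩
      have hpq : p ≤ m.minFac := by
        rw [hpe]
        exact Nat.minFac_le_of_dvd hq.two_le hqn
      have h3 : p ^ 3 ≤ n := by
        calc p ^ 3 = p * p ^ 2 := by ring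
          _ ≤ p * m.minFac ^ 2 := Nat.mul_le_mul_left _ (Nat.pow_le_pow_left hpq 2)
          _ ≤ p * m := Nat.mul_le_mul_left _ hqm
          _ = n := hm.symm
      have h4 : y ^ 3 < p ^ 3 := Nat.pow_lt_pow_left hyp (by norm_num)
      omega
    refine mem_image.mpr ⟨(p, m), ?_, hm.symm⟩
    rw [mem_product]
    refine ⟨mem_filter.mpr ⟨mem_range.mpr ?_, hp⟩, mem_filter.mpr ⟨mem_range.mpr ?_, hmp⟩⟩
    · have : p ≤ Nat.sqrt g := by
        apply Nat.le_sqrt.mpr
        rw [← sq]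
        omega
      show p < Nat.sqrt g + 1
      omega
    · have hmy : m * y ≤ g := by
        calc m * y ≤ m * p := Nat.mul_le_mul_left _ hyp.le
          _ = n := by rw [hm]; ring
          _ ≤ g := hng
      have : m ≤ Nat.sqrt (k * g) := by
        apply Nat.le_sqrt.mpr
        apply Nat.le_of_mul_le_mul_right _ hg0
        calc m * m * g ≤ m * m * (k * y ^ 2) := Nat.mul_le_mul_left _ hy
          _ = k * ((m * y) * (m * y)) := by ring
          _ ≤ k * (g * g) := Nat.mul_le_mul_left _ (Nat.mul_le_mul hmy hmy)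
          _ = k * g * g := by ring
      show m < Nat.sqrt (k * g) + 1
      omega
  refine (card_le_card hsub).trans ?_
  refine (card_insert_le _ _).trans ?_
  have h1 := card_union_le ((range (g + 1)).filter Nat.Prime)
    ((((range (Nat.sqrt g + 1)).filter Nat.Prime) ×ˢ
          ((range (Nat.sqrt (k * g) + 1)).filter Nat.Prime)).image (fun q => q.1 * q.2))
  have h2 : ((((range (Nat.sqrt g + 1)).filter Nat.Prime) ×ˢ
          ((range (Nat.sqrt (k * g) + 1)).filter Nat.Prime)).image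
            (fun q : ℕ × ℕ => q.1 * q.2)).card ≤
      Nat.primeCounting (Nat.sqrt g) * Nat.primeCounting (Nat.sqrt (k * g)) := by
    refine card_image_le.trans (le_of_eq ?_)
    rw [card_product, card_primes, card_primes]
  rw [card_primes] at h1
  omega

theorem log_sqrt (X R : ℕ) (hR : R = Nat.sqrt X) (h4 : 4 ≤ R) :
    Real.log X ≤ 3 * Real.log R := by
  have h1 : X < (R + 1) * (R + 1) := by rw [hR]; exact Nat.lt_succ_sqrt X
  have h2 : X ≤ R ^ 3 := by nlinarith
  have h3 : Real.log X ≤ Real.log ((R : ℝ) ^ 3) := by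
    rcases Nat.eq_zero_or_pos X with h | h
    · subst h
      simp at hR
      omega
    · apply Real.log_le_log
      · exact_mod_cast h
      · exact_mod_cast h2
  rw [Real.log_pow] at h3
  exact_mod_cast h3

/-- the bound for `π(⌊√X⌋)` -/
theorem pi_sqrt {n0 : ℕ} (hn0 : ∀ n : ℕ, n0 ≤ n → (Nat.primeCounting n : ℝ) * Real.log n / n ≤ 2)
    (g X : ℕ) (hg : 1 < g) (hgX : g ≤ X) (h4 : 4 ≤ Nat.sqrt X) (h0 : n0 ≤ Nat.sqrt X) :
    (Nat.primeCounting (Nat.sqrt X) : ℝ) ≤ 6 * Real.sqrt X / Real.log g := by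
  obtain ⟨R, hR⟩ : ∃ R, R = Nat.sqrt X := ⟨_, rfl⟩
  have hl := log_sqrt X R hR (hR ▸ h4)
  have hpi := hn0 R (hR ▸ h0)
  rw [← hR] at h4 ⊢
  have hRpos : (0 : ℝ) < R := by
    have : 0 < R := by omega
    exact_mod_cast this
  have hg1 : (1 : ℝ) < g := by exact_mod_cast hg
  have hlg : 0 < Real.log g := Real.log_pos hg1
  have hgX' : Real.log g ≤ Real.log X := by
    apply Real.log_le_log (by linarith)
    exact_mod_cast hgX
  have hRs : (R : ℝ) ≤ Real.sqrt X := by
    apply Real.le_sqrt_of_sq_le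
    have : R * R ≤ X := by rw [hR]; exact Nat.sqrt_le X
    rw [sq]
    exact_mod_cast this
  rw [div_le_iff₀ hRpos] at hpi
  rw [le_div_iff₀ hlg]
  have hc : (0 : ℝ) ≤ (Nat.primeCounting R : ℝ) := Nat.cast_nonneg _
  calc (Nat.primeCounting R : ℝ) * Real.log g ≤
        (Nat.primeCounting R : ℝ) * (3 * Real.log R) :=
        mul_le_mul_of_nonneg_left (by linarith) hc
    _ = 3 * ((Nat.primeCounting R : ℝ) * Real.log R) := by ring
    _ ≤ 3 * (2 * R) := by linarith
    _ ≤ 6 * Real.sqrt X := by linarith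

end Phi

/-- **S_phi** -/
theorem t_phi : S_phi := by
  intro K ε hK hε
  obtain ⟨k, hk⟩ : ∃ k : ℕ, k = max 1 ⌈K⌉₊ := ⟨_, rfl⟩
  have hk1 : 1 ≤ k := by rw [hk]; exact le_max_left _ _
  have hkK : K ≤ k := by
    rw [hk]
    refine (Nat.le_ceil K).trans ?_
    exact_mod_cast le_max_right 1 ⌈K⌉₊
  have hpnt := Pool.Agent.T2H32.BF.pnt
  have e1 : ∀ᶠ n : ℕ in atTop, (Nat.primeCounting n : ℝ) * Real.log n / n ≤ 1 + ε / 3 :=
    hpnt.eventually_le_const (by linarith)
  have e2 : ∀ᶠ n : ℕ in atTop, (Nat.primeCounting n : ℝ) * Real.log n / n ≤ 2 :=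
    hpnt.eventually_le_const (by norm_num)
  obtain ⟨n0, hn0⟩ := eventually_atTop.mp e2
  have hlog : Tendsto (fun n : ℕ => Real.log (n : ℝ)) atTop atTop :=
    Real.tendsto_log_atTop.comp tendsto_natCast_atTop_atTop
  have e3 : ∀ᶠ n : ℕ in atTop, 108 * Real.sqrt k / ε + 1 ≤ Real.log (n : ℝ) :=
    hlog.eventually_ge_atTop _
  have e4 : ∀ᶠ n : ℕ in atTop, Real.log (n : ℝ) ≤ ε / 3 * n := by
    have ho : (fun x : ℝ => Real.log x) =o[atTop] (fun x : ℝ => x) := Real.isLittleO_log_id_atTop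
    have hb := ho.bound (show (0 : ℝ) < ε / 3 by positivity)
    have hb' := (tendsto_natCast_atTop_atTop (R := ℝ)).eventually hb
    filter_upwards [hb', hlog.eventually_ge_atTop 0] with n hn h0
    rw [Real.norm_of_nonneg h0, Real.norm_of_nonneg (Nat.cast_nonneg n)] at hn
    exact hn
  filter_upwards [e1, e3, e4, eventually_gt_atTop (k ^ 3), eventually_ge_atTop ((n0 + 4) * (n0 + 4))]
    with g hg1 hg3 hg4 hg5 hg6
  intro y hy
  have hgy : g ≤ k * y ^ 2 := by
    have : (g : ℝ) ≤ (k : ℝ) * (y : ℝ) ^ 2 := hy.trans (by gcongr)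
    exact_mod_cast this
  have hc := Phi.count k g y hg5 hgy
  have hgs : n0 + 4 ≤ Nat.sqrt g := Nat.le_sqrt.mpr hg6
  have hgk : g ≤ k * g := Nat.le_mul_of_pos_left g hk1
  have hgs' : n0 + 4 ≤ Nat.sqrt (k * g) := hgs.trans (Nat.sqrt_le_sqrt hgk)
  have hg0 : 1 < g := by nlinarith
  have hA := Phi.pi_sqrt hn0 g g hg0 le_rfl (by omega) (by omega)
  have hB := Phi.pi_sqrt hn0 g (k * g) hg0 hgk (by omega) (by omega)
  have hgR : (0 : ℝ) < g := by
    have : 0 < g := by omega
    exact_mod_cast this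
  have hkR : (0 : ℝ) ≤ Real.sqrt k := Real.sqrt_nonneg _
  obtain ⟨L, hL⟩ : ∃ L : ℝ, L = Real.log g := ⟨_, rfl⟩
  rw [← hL] at hg1 hg3 hg4 hA hB ⊢
  have hq : 0 ≤ 108 * Real.sqrt k / ε := by positivity
  have hL0 : 0 < L := by linarith
  have hcR : (((Icc 1 g).filter (fun n => ∀ p ≤ y, p.Prime → ¬ p ∣ n)).card : ℝ) ≤
      1 + (Nat.primeCounting g : ℝ) +
        (Nat.primeCounting (Nat.sqrt g) : ℝ) * (Nat.primeCounting (Nat.sqrt (k * g)) : ℝ) := by
    exact_mod_cast hc
  have hpi : (Nat.primeCounting g : ℝ) ≤ (1 + ε / 3) * g / L := by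
    rw [le_div_iff₀ hL0]
    rw [div_le_iff₀ hgR] at hg1
    exact hg1
  have hone : (1 : ℝ) ≤ ε / 3 * g / L := by
    rw [le_div_iff₀ hL0]
    linarith
  have hprod : (Nat.primeCounting (Nat.sqrt g) : ℝ) * (Nat.primeCounting (Nat.sqrt (k * g)) : ℝ) ≤
      ε / 3 * g / L := by
    have h1 : (Nat.primeCounting (Nat.sqrt g) : ℝ) * (Nat.primeCounting (Nat.sqrt (k * g)) : ℝ) ≤
        (6 * Real.sqrt g / L) * (6 * Real.sqrt ((k * g : ℕ) : ℝ) / L) :=
      mul_le_mul hA hB (Nat.cast_nonneg _) (by positivity)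
    have h2 : Real.sqrt ((k * g : ℕ) : ℝ) = Real.sqrt k * Real.sqrt g := by
      rw [Nat.cast_mul, Real.sqrt_mul (Nat.cast_nonneg k)]
    have h3 : Real.sqrt (g : ℝ) * Real.sqrt g = g := Real.mul_self_sqrt hgR.le
    have h4 : (6 * Real.sqrt g / L) * (6 * Real.sqrt ((k * g : ℕ) : ℝ) / L) =
        36 * Real.sqrt k * g / L / L := by
      rw [h2]
      calc (6 * Real.sqrt g / L) * (6 * (Real.sqrt k * Real.sqrt g) / L) =
            36 * Real.sqrt k * (Real.sqrt g * Real.sqrt g) / L / L := by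
            field_simp
            ring
        _ = _ := by rw [h3]
    rw [h4] at h1
    refine h1.trans ?_
    apply div_le_div_of_nonneg_right _ hL0.le
    rw [div_le_iff₀ hL0]
    have h5 : 108 * Real.sqrt k ≤ L * ε := by
      rw [← div_le_iff₀ hε]
      linarith
    nlinarith
  have hfin : (1 + ε) * g / L = ε / 3 * g / L + (1 + ε / 3) * g / L + ε / 3 * g / L := by ring
  rw [hfin]
  linarith

end Pool.Agent.H559.EG
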