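import Pool.Agent.H559.IX.StmM
import Pool.Agent.H559.GP.Two
import Pool.Agent.H559.BS.Main
import Pool.Graph.R_pool_sql_team_seeded_707910d6.T2H32.GB.FLg

set_option autoImplicit false

/-! # Exact gaps of the random sieve: the statements

`V n = ∏_{p ≤ n} (1 - 1/p)`; `mertens : V n * log n → exp (-γ)`, `pnt : π(n) log n / n → 1` (`Pool.Agent.T2H32.BF`);
`TT δ x = ⌊x^δ⌋` (`Pool.Agent.H559.BS`). -/

open Finset MeasureTheory ProbabilityTheory Filter Topology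
open Pool.Agent.T2H32.BF (Model V V_pos V_anti V_ratio mertens pnt cnt Surv)
open Pool.Agent.H559.BS (TT)
open Pool.Agent.H559.IX (R0 Lim)

namespace Pool.Agent.H559.EG

/-- `y = η log x` -/
noncomputable def yy (η : ℝ) (x : ℕ) : ℕ := ⌊η * Real.log x⌋₊

/-- the product of the primes `≤ η log x`; at most `4 ^ (η log x) = x ^ (1.3863 η)` (`primorial_le_four_pow`) -/
noncomputable def PP (η : ℝ) (x : ℕ) : ℕ := primorial (yy η x)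

noncomputable def w1 (c : ℝ) (x : ℕ) : ℕ := ⌊Real.log ((x : ℝ) / 2) ^ c⌋₊

noncomputable def w2 (c : ℝ) (x : ℕ) : ℕ := ⌊Real.log (x : ℝ) ^ c⌋₊

noncomputable def D0 (c : ℝ) (x : ℕ) : ℕ := ⌊Real.log (x : ℝ) ^ (c + 12)⌋₊

/-- strong survival of the sieve of the primes `≤ T` -/
def St (u1 u2 T : ℕ) (b : ℕ → ℕ) (v : ℕ) : Prop := ∀ p ≤ T, p.Prime → (p ≤ u2 → v % p ≠ 0) ∧ (u1 < p → v % p ≠ b p)

/-- weak survival of the sieve of the primes `≤ T` -/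
def Wk (u1 u2 T : ℕ) (b : ℕ → ℕ) (v : ℕ) : Prop := ∀ p ≤ T, p.Prime → (p ≤ u1 → v % p ≠ 0) ∧ (u2 < p → v % p ≠ b p)

/-- `∏ (1 - k / p)` over the primes `a < p ≤ b` -/
noncomputable def pr (k : ℝ) (a b : ℕ) : ℝ := ∏ p ∈ (Ioc a b).filter Nat.Prime, (1 - k / (p : ℝ))

open Classical in
/-- the candidates after the sieve of the primes `≤ T` -/
noncomputable def cand (u1 u2 T Q x g r M : ℕ) (b : ℕ → ℕ) : Finset ℕ :=
  (Ioc (x / 2) (x - g - 1)).filter (fun v => v % Q = r ∧ St u1 u2 T b v ∧ St u1 u2 T b (v + g) ∧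
    ((Ioo v (v + g)).filter (fun n => Wk u1 u2 T b n)).card ≤ M)

/-- all the elements of `B` are hit by the primes in `L`, while `v` and `v + g` are not hit -/
def Fv (b : ℕ → ℕ) (L B : Finset ℕ) (v g : ℕ) : Prop :=
  (∀ n ∈ B, ∃ p ∈ L, n % p = b p) ∧ ∀ p ∈ L, v % p ≠ b p ∧ (v + g) % p ≠ b p

open Classical in
/-- the number of the gaps of length exactly `g` between consecutive elements of `R` in `(x/2, x)` -/
noncomputable def gaps (R : Set ℕ) (x g : ℕ) : ℕ :=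
  ((Ioc (x / 2) (x - g - 1)).filter (fun v => v ∈ R ∧ v + g ∈ R ∧ ∀ n ∈ Ioo v (v + g), n ∉ R)).card

/-! ## The deterministic pattern -/

/-- ROUGH NUMBERS. PROOF. Let `n ≤ g` have no prime factor `≤ y`. For large `g`, `y³ ≥ (g/K)^(3/2) > g`, so `n` is `1`, a prime, or a
product `p₁ p₂`, `y < p₁ ≤ p₂` (the least prime factor `p₁ = n.minFac ≤ √g` and `p₂ = n / p₁ ≤ g / y ≤ √K √g` prime). So the number is
at most `1 + π(g) + π(√g) π(√K √g + 1) = (1 + o(1)) g / log g` by `pnt` (the last product is `O(g / log² g)`). -/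
def S_phi : Prop := ∀ K ε : ℝ, 0 < K → 0 < ε → ∀ᶠ g : ℕ in atTop, ∀ y : ℕ, (g : ℝ) ≤ K * (y : ℝ) ^ 2 →
  (((Icc 1 g).filter (fun n => ∀ p ≤ y, p.Prime → ¬ p ∣ n)).card : ℝ) ≤ (1 + ε) * g / Real.log g

/-- ROUGH NUMBERS TIMES `E`-SMOOTH NUMBERS (from `S_phi`). PROOF. Let `w = log g / 2`, `n = e ρ`, where `e` is composed of primes in `E`
and `ρ` has no prime factor `≤ y`. As the primes in `E` exceed `w` and their product is at most `g²`, `|E| ≤ 2 log g / log w = 4w / log w`,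
so `∑_{p ∈ E} 1/p ≤ 4 / log w → 0` and `∑_{e > 1} 1/e ≤ ∏_{p ∈ E} (1 - 1/p)⁻¹ - 1 → 0` (finite sums over the `E`-smooth `e ≤ g`; e.g.
`Nat.factoredNumbers`, or induction on `E`). For `e ≤ √g` use `S_phi` with `t = ⌊g/e⌋ ≥ √g - 1` in place of `g` (`t ≤ g ≤ K y²`):
at most `(1 + ε) t / log t ≤ (1 + 2ε)(g/e) / log (g/e)`, which is `≤ (1+ε) g / log g` for `e = 1` and `≤ 3 (g/e)/log g` for all `e ≤ √g`. For `e > √g`:
at most `g/e ≤ g^(3/4) e^(-1/2)`, and `∑_e e^(-1/2) ≤ ∏_{p ∈ E} (1 - p^(-1/2))⁻¹ ≤ exp (4 |E| / √w) ≤ exp (16 √w / log w) ≤ g^(1/8)` for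
large `g`. Total `≤ (1 + ε) g / log g + o(g / log g)`. (Use `ε/2`.) -/
def S_cnt : Prop := ∀ K ε : ℝ, 0 < K → 0 < ε → ∀ᶠ g : ℕ in atTop, ∀ y : ℕ, (g : ℝ) ≤ K * (y : ℝ) ^ 2 →
  ∀ E : Finset ℕ, (∀ p ∈ E, p.Prime ∧ Real.log g / 2 < p) → ∏ p ∈ E, (p : ℝ) ≤ (g : ℝ) ^ 2 →
    (((Icc 1 g).filter (fun n => ∀ p ≤ y, p.Prime → p ∣ n → p ∈ E)).card : ℝ) ≤ (1 + ε) * g / Real.log g

/-- CHOICE OF `s`. PROOF. `w = ⌊log g / 2⌋`; by the Chinese remainder theorem (`Nat.chineseRemainderOfFinset` or similar) there is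
`s < primorial w ≤ 4^w ≤ g^0.7` with `s ≡ 1 (mod 2)`, and for each odd prime `p ≤ w`: `s` modulo `p` is neither `0` nor `g` modulo `p` (possible, `p ≥ 3`).
For `p = 2`: `g` is even. `s ≥ 1` since `s` is odd (`w ≥ 2`); `s ≤ g^0.7 < g`. -/
def S_cho : Prop := ∀ᶠ g : ℕ in atTop, Even g → ∃ s : ℕ, 1 ≤ s ∧ (s : ℝ) ≤ (g : ℝ) ^ (7 / 10 : ℝ) ∧ s < g ∧
  ∀ p : ℕ, p.Prime → (p : ℝ) ≤ Real.log g / 2 → ¬ p ∣ s ∧ ¬ p ∣ g - s

/-- THE PATTERN (from `S_cho`, `S_cnt`). PROOF. Write `y = yy η x`, `ℓ = log x`. If `g ≤ ε ℓ²/log ℓ` then the bound is trivial: choose `r` by the Chinese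
remainder theorem with `r` odd and `r ≢ 0, -g` modulo the odd primes `p ≤ y` (there are at least 3 classes). Otherwise `g > ε ℓ²/log ℓ` is large, `log g ≥ (2 - o(1)) log ℓ`,
`g ≤ lam ℓ² ≤ K y²` with `K = 2 lam / η²`. Take `s` from `S_cho` and `E = {p ≤ y prime : p ∣ s (g - s)}`; these primes exceed `log g / 2` (so `≥ 5`) and their product is
at most `s (g - s) ≤ g²`. Choose `r < PP η x` with `r ≡ -s (mod p)` for the primes `p ≤ y` not in `E` and `r ≢ 0, -g (mod p)` for `p ∈ E`. Then `p ∤ r`, `p ∤ r + g`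
for all the primes `p ≤ y` (for `p ∉ E`: `p ∤ s`, `p ∤ g - s`). If `r + m` (`0 < m < g`) is coprime to all `p ≤ y` then `p ∤ m - s` for `p ∉ E`. The number of such `m ≤ s` is
`≤ s ≤ g^0.7`, and for `m > s` the number `n = m - s ∈ [1, g]` is counted by `S_cnt`: at most `(1 + ε') g / log g ≤ (1 + 2ε') lam ℓ² / (2 log ℓ)` (the function `t / log t` is
increasing). -/
def S_pat : Prop := ∀ lam ε η : ℝ, 0 < lam → 0 < ε → 0 < η → ∀ᶠ x : ℕ in atTop, ∀ g : ℕ, Even g → 2 ≤ g →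
  (g : ℝ) ≤ lam * Real.log x ^ 2 → ∃ r < PP η x, (∀ p ≤ yy η x, p.Prime → ¬ p ∣ r ∧ ¬ p ∣ r + g) ∧
    (((Ioo 0 g).filter (fun m => ∀ p ≤ yy η x, p.Prime → ¬ p ∣ r + m)).card : ℝ) ≤
      (lam / 2 + ε) * (Real.log x ^ 2 / Real.log (Real.log x))

/-! ## The first stage: the primes up to `x^δ` -/

/-- THE FUNDAMENTAL LEMMA IN A PROGRESSION. PROOF. From `Pool.Agent.T2H32.GB.flg` (`GB/FLg.lean`): `n = Q m + r`, `m` in an interval `(k', k' + y']` with `|y' - y/Q| ≤ 1`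
(`y'` = the number of the `n ∈ (k, k + y]` with `n % Q = r`); the condition `n % p ∉ Om p` is `m % p ∉ Om' p` with
`Om' p = {u < p : (Q u + r) % p ∈ Om p}`, of the same size as `Om p` (`p ∤ Q`: bijection; `p ∣ Q`: both empty). All products are in `[0, 1]`
(empty Om, card ≤ p), so the replacement of `y'` by `y/Q` costs at most `1 + ε`. -/
def S_ap : Prop := ∀ (κ : ℕ) (ε : ℝ), 0 < ε → ∃ B : ℕ, ∃ K : ℝ, 0 < K ∧ ∀ (T Q r : ℕ) (Om : ℕ → Finset ℕ), 0 < Q → r < Q →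
  (∀ p ≤ T, p.Prime → Om p ⊆ range p ∧ (Om p).card ≤ κ ∧ (p ∣ Q → Om p = ∅)) → ∀ k y : ℕ,
    |(((Ioc k (k + y)).filter (fun n => n % Q = r ∧ ∀ p ≤ T, p.Prime → n % p ∉ Om p)).card : ℝ) -
        (y / Q : ℝ) * ∏ p ∈ (range (T + 1)).filter Nat.Prime, (1 - ((Om p).card : ℝ) / p)| ≤
      ε * ((y / Q : ℝ) * ∏ p ∈ (range (T + 1)).filter Nat.Prime, (1 - ((Om p).card : ℝ) / p)) + K * ((T : ℝ) + 1) ^ B

open Classical in
/-- LOWER BOUND FOR THE PAIRS (from `S_ap`). PROOF. `y = yy η x ≤ w1 c x ≤ w2 c x ≤ D0 c x` for large `x` (`c > 1`). For the primes `p ≤ y`: `v % p = r % p` (`p ∣ PP η x`), so the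
conditions hold for `v`, `v + g`. Take `Om p = ∅` for `p ≤ y`; for `y < p ≤ D0`: `Om p = {0, -g mod p}` if `p ≤ w2`, together with the classes `b p`, `(b p - g) mod p` if `w1 < p` and
`b p < p` (if `b p ≥ p` nothing). So `|Om p| ≤ 2`, except that `|Om p| ≤ 4` for `w1 < p ≤ w2`. `w2 - w1 ≤ C log^(c-1) x + 1`, so `∑_{w1 < p ≤ w2} 1/p → 0` and
`∏ (1 - |Om p|/p) ≥ (1 - o(1)) pr 2 y D0` (`(1 - 4/p) ≥ (1 - 2/p)(1 - 4/p)` for `p > 4`, `y ≥ 4`). The interval has length `≥ x/2 - g - 2 = (1 - o(1)) x/2`. The error term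
`K (D0 + 1)^B` is a power of `log x`, the main term is at least `x^(1/2)` (`PP η x ≤ x^(1.39 η)`, `η ≤ 1/4`; `pr 2 y D0 ≥ (log x)^(-A)`, e.g. `(1 - 2/p) ≥ (1 - 1/p)^4` for `p ≥ 5`, `V (D0)^4`).
Use `S_ap` with `κ = 4` and `ε/4`. -/
def S_det1 : Prop := ∀ c η ε lam : ℝ, 1 < c → 0 < η → η ≤ 1 / 4 → 0 < ε → 0 < lam → ∀ᶠ x : ℕ in atTop, ∀ g : ℕ,
  (g : ℝ) ≤ lam * Real.log x ^ 2 → ∀ r < PP η x, (∀ p ≤ yy η x, p.Prime → ¬ p ∣ r ∧ ¬ p ∣ r + g) → ∀ b : ℕ → ℕ,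
    (1 - ε) * ((x : ℝ) / (2 * PP η x)) * pr 2 (yy η x) (D0 c x) ≤
      (((Ioc (x / 2) (x - g - 1)).filter (fun v => v % PP η x = r ∧ St (w1 c x) (w2 c x) (D0 c x) b v ∧
        St (w1 c x) (w2 c x) (D0 c x) b (v + g))).card : ℝ)

open Classical in
/-- UPPER BOUND FOR THE TRIPLES (from `S_ap`). PROOF. As `S_det1`: drop the conditions for `p ≤ y` (`Om p = ∅`) and for `w1 < p ≤ w2` (`Wk` has none); for the other primes `y < p ≤ D0` let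
`Om p` be the set of the classes `h, (h - m) mod p, (h - g) mod p` with `h = 0` (`p ≤ w1`) or `h = b p < p` (`p > w2`): three different classes unless `p ∣ m (g - m) g`. The number of the primes `p > y`
dividing `m (g - m) g ≤ g³ ≤ (lam log² x)³` is at most `7` for large `x` (`y^7 > lam³ log⁶ x`), and `(1 - 3/p)⁻¹ ≤ 1 + 6/p` (`p ≥ 6`), so together with `∑_{w1 < p ≤ w2} 1/p → 0`:
`∏ (1 - |Om p|/p) ≤ (1 + o(1)) pr 3 y D0`. The interval has length `≤ x/2 + 1`. The error term as in `S_det1`. -/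
def S_det3 : Prop := ∀ c η ε lam : ℝ, 1 < c → 0 < η → η ≤ 1 / 4 → 0 < ε → 0 < lam → ∀ᶠ x : ℕ in atTop, ∀ g : ℕ,
  (g : ℝ) ≤ lam * Real.log x ^ 2 → ∀ r < PP η x, ∀ b : ℕ → ℕ, (∀ p, p.Prime → b p < p) → ∀ m : ℕ, 0 < m → m < g →
    (((Ioc (x / 2) (x - g - 1)).filter (fun v => v % PP η x = r ∧ Wk (w1 c x) (w2 c x) (D0 c x) b v ∧
        Wk (w1 c x) (w2 c x) (D0 c x) b (v + m) ∧ Wk (w1 c x) (w2 c x) (D0 c x) b (v + g))).card : ℝ) ≤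
      (1 + ε) * ((x : ℝ) / (2 * PP η x)) * pr 3 (yy η x) (D0 c x)

/-- SECOND MOMENT. PROOF. `Pool.Agent.T2H32.BF.cheb` and `Surv_prob`. `P (Surv (A i)) = ∏_{p ∈ B} (1 - k0/p) =: W` (distinct classes), so `μ = |I| W`. For `i ≠ j`:
`Surv (A i) ∩ Surv (A j) = Surv (A i ∪ A j)`, and modulo `p ∈ B` the union has `2 k0 - c_p` classes, `c_p` = the number of the pairs `(n, n') ∈ A i × A j` with `n % p = n' % p`
(at least `2 k0 - c_p` is enough). `1 - (2 k0 - c_p)/p ≤ (1 - k0/p)² + c_p/p ≤ (1 - k0/p)² (1 + 4 c_p/p)` as `(1 - k0/p)² ≥ 1/4`. So `P(both) ≤ W² exp (4 ∑ c_p / D)`, `∑_p c_p` is the sum over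
the at most 9 pairs (`n ≠ n'` by disjointness) of the number of the `p ∈ B` dividing `|n - n'| ≤ Z`, at most `log Z / log D ≤ log Z / 4` each; so `≤ W² exp (9 log Z / D) ≤ W² (1 + 40 log Z / D)`
(`exp u ≤ 1 + 2u` for `u ≤ 1`). The diagonal contributes `μ`. (The case `I` empty or `Z ≤ 1` is included; compare `surv_conc` in `BF/Mom.lean`.) -/
def S_sec : Prop := ∀ (Ω : Type) [MeasurableSpace Ω] (P : Measure Ω) (a : ℕ → Ω → ℕ), Model P a →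
  ∀ (I : Finset ℕ) (A : ℕ → Finset ℕ) (k0 Z D : ℕ) (B : Finset ℕ), k0 ≤ 3 → 100 ≤ D → 1 ≤ Z → 40 * Real.log Z ≤ D →
  (∀ p ∈ B, p.Prime ∧ D < p) →
  (∀ i ∈ I, (A i).card = k0 ∧ (∀ n ∈ A i, n ≤ Z) ∧ ∀ p ∈ B, ∀ n ∈ A i, ∀ n' ∈ A i, n ≠ n' → n % p ≠ n' % p) →
  (∀ i ∈ I, ∀ j ∈ I, i ≠ j → Disjoint (A i) (A j)) → ∀ t : ℝ, 0 < t →
    P.real {ω | t ≤ |cnt I (fun i => Surv a B (A i)) ω - I.card * ∏ p ∈ B, (1 - (k0 : ℝ) / p)|} ≤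
      (I.card * ∏ p ∈ B, (1 - (k0 : ℝ) / p) + 40 * Real.log Z / D * (I.card * ∏ p ∈ B, (1 - (k0 : ℝ) / p)) ^ 2) / t ^ 2

open Classical in
/-- THE STRONG PAIRS AT LEVEL `T` (from `S_det1`, `S_sec`). PROOF. Notation: `Q = PP η x`, `y = yy η x`, `w1, w2, D = D0 c x, T = TT δ x`, `ℓ = log x`.
Let `I1(b)` be the set in `S_det1` (it depends only on the `b p`, `p ≤ D`; as `D ≥ w2`, for `p > D` the condition `St` is just `v % p ≠ b p`; `D ≤ T` for large `x`). The number `N1` in question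
is `cnt I1 (Surv a B {v, v + g})`, `B` = the primes in `(D, T]`. By `Pool.Agent.T2H32.BF.cond` (condition on the classes of the primes `≤ D`) and `S_sec` (`k0 = 2`, `Z = x`; the sets `{v, v + g}` are disjoint, as different
`v ≡ r (mod Q)` differ by at least `Q > g`: `Q ≥ 2^(π(y))` is larger than every power of `log x` by `pnt`; `0 < g < D < p` gives distinct classes) with `t = (θ/2) μ`, `μ = |I1| pr 2 D T ≥ (1 - θ/2)(x/2Q) pr 2 y T ≥ x^(1/2)`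
(`S_det1` with `ε = θ/2`): `N1 ≥ (1 - θ/2) μ` outside an event of probability `≤ 4 (1/μ + 40 ℓ/D)/θ² ≤ C/ℓ^5` (`D ≥ ℓ^(c+12)/2`). (`pr 2 y D * pr 2 D T = pr 2 y T`; `pr 2 y T ≥ V(T)^3`.) -/
def S_N1 : Prop := ∀ c lam δ η θ : ℝ, 1 < c → 0 < lam → 0 < δ → δ ≤ 1 / 4 → 0 < η → η ≤ 1 / 4 → 0 < θ → θ ≤ 1 / 2 →
  ∀ (Ω : Type) [MeasurableSpace Ω] (P : Measure Ω) (a : ℕ → Ω → ℕ), Model P a → ∃ C : ℝ, ∀ᶠ x : ℕ in atTop, ∀ g : ℕ,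
    2 ≤ g → (g : ℝ) ≤ lam * Real.log x ^ 2 → ∀ r < PP η x, (∀ p ≤ yy η x, p.Prime → ¬ p ∣ r ∧ ¬ p ∣ r + g) →
    P.real {ω | (((Ioc (x / 2) (x - g - 1)).filter (fun v => v % PP η x = r ∧ St (w1 c x) (w2 c x) (TT δ x) (fun q => a q ω) v ∧
        St (w1 c x) (w2 c x) (TT δ x) (fun q => a q ω) (v + g))).card : ℝ) <
      (1 - θ) * ((x : ℝ) / (2 * PP η x)) * pr 2 (yy η x) (TT δ x)} ≤ C / Real.log x ^ 5

open Classical in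
/-- THE WEAK TRIPLES AT LEVEL `T` (from `S_det3`, `S_sec`). PROOF. As `S_N1`. Let `I3(b)` be the set in `S_det3` (`D = D0 c x`). The number `N3` in question is `cnt I3 (Surv a B {v, v + m, v + g})`, `B` = the primes in `(D, T]`.
`P(∃ p prime, ¬ a p ω < p) = 0` (`Pool.Agent.H559.BS.ae_lt` in BS/Tail.lean), so the event may be intersected with `∀ p, p.Prime → a p ω < p` (for the use of `S_det3` after `cond`, for the `p ≤ D`). With `t = (θ/4) μ'`, where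
`μ' = (1 + θ/4)(x/2Q) pr 3 y T ≥ μ = |I3| pr 3 D T`: the probability of `N3 ≥ μ + t` is at most `16 (μ + (40 ℓ/D) μ²)/(θ μ')² ≤ 16 (1/μ' + 40 ℓ/D)/θ² ≤ C/ℓ^8`, and `μ + t ≤ (1 + θ/4)² (x/2Q) pr 3 y T ≤ (1 + θ)(x/2Q) pr 3 y T`. -/
def S_N3 : Prop := ∀ c lam δ η θ : ℝ, 1 < c → 0 < lam → 0 < δ → δ ≤ 1 / 4 → 0 < η → η ≤ 1 / 4 → 0 < θ → θ ≤ 1 / 2 →
  ∀ (Ω : Type) [MeasurableSpace Ω] (P : Measure Ω) (a : ℕ → Ω → ℕ), Model P a → ∃ C : ℝ, ∀ᶠ x : ℕ in atTop, ∀ g : ℕ,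
    2 ≤ g → (g : ℝ) ≤ lam * Real.log x ^ 2 → ∀ r < PP η x, ∀ m : ℕ, 0 < m → m < g →
    P.real {ω | (1 + θ) * ((x : ℝ) / (2 * PP η x)) * pr 3 (yy η x) (TT δ x) <
      (((Ioc (x / 2) (x - g - 1)).filter (fun v => v % PP η x = r ∧ Wk (w1 c x) (w2 c x) (TT δ x) (fun q => a q ω) v ∧
        Wk (w1 c x) (w2 c x) (TT δ x) (fun q => a q ω) (v + m) ∧ Wk (w1 c x) (w2 c x) (TT δ x) (fun q => a q ω) (v + g))).card : ℝ)} ≤
      C / Real.log x ^ 8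

/-- THE NUMERICAL COMPARISON (deterministic). PROOF. `pr 3 y T ≤ pr 2 y T * pr 1 y T` (`1 - 3/p ≤ (1 - 2/p)(1 - 1/p)`, `p > y ≥ 3`), `pr 1 y T = V T / V y`, and `V T log T`, `V y log y → e^(-γ)` (`mertens`), `log T ~ δ log x`, `log y ~ log log x`;
so `pr 1 y T * (ℓ²/log ℓ) * δ/ℓ → 1` (`ℓ = log x`) and the left side of the first inequality, divided by `pr 2 y T`, is at most `(1 + θ)(lam/2 + ε)/(lam/2 + 2ε) + o(1)`: choose `θ` with `(1 + θ)(lam/2 + ε)/(lam/2 + 2ε) < 1 - 3θ`.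
Second: `PP η x ≤ 4^(η log x) = x^(η log 4)`, `log 4 < 1.4`, `pr 2 y T ≥ V(T)^3 ≥ c ℓ^(-3)`. -/
def S_rat : Prop := ∀ lam ε δ η : ℝ, 0 < lam → 0 < ε → 0 < δ → δ ≤ 1 / 4 → 0 < η → η ≤ 1 / 4 → ∃ θ : ℝ, 0 < θ ∧ θ ≤ 1 / 2 ∧ ∀ᶠ x : ℕ in atTop,
  (1 + θ) * pr 3 (yy η x) (TT δ x) * ((lam / 2 + ε) * (Real.log x ^ 2 / Real.log (Real.log x))) ≤
      (1 - 2 * θ) * pr 2 (yy η x) (TT δ x) * ((⌊(lam / 2 + 2 * ε) * Real.log x / δ⌋₊ : ℝ) + 1) ∧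
    (x : ℝ) ^ (1 - 2 * η) ≤ θ * ((x : ℝ) / (2 * PP η x)) * pr 2 (yy η x) (TT δ x)

/-- THE FIRST STAGE (from `S_N1`, `S_N3`, `S_rat`). PROOF. `M = ⌊(lam/2 + 2ε) ℓ/δ⌋`, `θ` from `S_rat`. Outside an event of probability `≤ C/ℓ^5 + g C/ℓ^8 ≤ C'/ℓ^5` the inequality `N1 ≥ (1 - θ)(x/2Q) pr 2 y T` (`N1` = the number in `S_N1`) and, for all
`0 < m < g` with `r + m` coprime to the primes `≤ y`, `N3(m) ≤ (1 + θ)(x/2Q) pr 3 y T` hold. `St → Wk` (`w1 ≤ w2`), and if `v % Q = r` and `Wk (v + m)` then `r + m` is coprime to the primes `≤ y` (`y ≤ w1 ≤ T`, `p ∣ Q`). So the sum over the `v` counted by `N1` of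
`#{n ∈ (v, v+g) : Wk n}` is `≤ ∑_m N3(m) ≤ (lam/2 + ε)(ℓ²/log ℓ)(1 + θ)(x/2Q) pr 3 y T ≤ (1 - 2θ)(x/2Q) pr 2 y T (M + 1)` (`S_rat`), and the number of these `v` with at least `M + 1` such `n` is at most `(1 - 2θ)(x/2Q) pr 2 y T`.
Hence `|cand| ≥ θ (x/2Q) pr 2 y T ≥ x^(1 - 2η)`. -/
def S_st1 : Prop := ∀ c lam ε δ η : ℝ, 1 < c → 0 < lam → 0 < ε → 0 < δ → δ ≤ 1 / 4 → 0 < η → η ≤ 1 / 4 →
  ∀ (Ω : Type) [MeasurableSpace Ω] (P : Measure Ω) (a : ℕ → Ω → ℕ), Model P a → ∃ C : ℝ, ∀ᶠ x : ℕ in atTop, ∀ g : ℕ,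
    2 ≤ g → (g : ℝ) ≤ lam * Real.log x ^ 2 → ∀ r < PP η x, (∀ p ≤ yy η x, p.Prime → ¬ p ∣ r ∧ ¬ p ∣ r + g) →
    (((Ioo 0 g).filter (fun m => ∀ p ≤ yy η x, p.Prime → ¬ p ∣ r + m)).card : ℝ) ≤
      (lam / 2 + ε) * (Real.log x ^ 2 / Real.log (Real.log x)) →
    P.real {ω | ((cand (w1 c x) (w2 c x) (TT δ x) (PP η x) x g r ⌊(lam / 2 + 2 * ε) * Real.log x / δ⌋₊
      (fun q => a q ω)).card : ℝ) < (x : ℝ) ^ (1 - 2 * η)} ≤ C / Real.log x ^ 5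

/-! ## The second stage: the primes from `x^δ` to `z(x/2)` -/

/-- ALL THE ELEMENTS OF `B` ARE HIT. PROOF. `Pool.Agent.H559.GP.one_low`, `one_up` (`GP/Two.lean`) with `kl p n = {n % p}` (so `Gf kl L n = 1 - pr 1 T N = G` for all `n`, `P0 (Gf kl L) B = G ^ |B|`,
and `Ph P kl a L B` is the probability in question: check the definitions `Ev`, `Ph` in `GP/Pr.lean`, `HY`), `L` = the primes in `(T, N]`, `T = TT δ x`, `k = 1`, `M = ⌊C0 log x⌋`, `K0 = 2`, `γ = 1/2`,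
`β = M² (⌊1/δ⌋ + 2)`: if `¬ Gp kl p B` then `p ∣ |n - n'|` for some `n ≠ n' ∈ B`, and a nonzero number `≤ x` has at most `⌊1/δ⌋ + 2` prime factors `> T ≥ x^δ/2` (large `x`). All the relative errors
are `O(log³ x / T) ≤ x^(-δ/2)`. (If `B = ∅` both are `1`.) -/
def S_two : Prop := ∀ (Ω : Type) [MeasurableSpace Ω] (P : Measure Ω) (a : ℕ → Ω → ℕ), Model P a → ∀ δ C0 : ℝ, 0 < δ → δ ≤ 1 / 4 → 0 < C0 →
  ∀ᶠ x : ℕ in atTop, ∀ N : ℕ, 1 / 2 ≤ 1 - pr 1 (TT δ x) N → ∀ B : Finset ℕ, (∀ n ∈ B, n ≤ x) → (B.card : ℝ) ≤ C0 * Real.log x →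
    (∀ p, TT δ x < p → ∀ r, (B.filter (fun n => n % p = r)).card ≤ 2) →
    |P.real {ω | ∀ n ∈ B, ∃ p ∈ (Ioc (TT δ x) N).filter Nat.Prime, n % p = a p ω} - (1 - pr 1 (TT δ x) N) ^ B.card| ≤
      (x : ℝ) ^ (-(δ / 2)) * (1 - pr 1 (TT δ x) N) ^ B.card

open Classical in
/-- THE SECOND STAGE (from `S_two`). PROOF. `G = 1 - pr 1 T N`, `F_v` = the event `Fv`. By inclusion and exclusion (on `v` and `v + g` hit or not) `P(F_v)` is an alternating sum of four probabilities of `S_two` (the sets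
`B v`, `B v ∪ {v}`, `B v ∪ {v+g}`, `B v ∪ {v, v+g}`), so `|P(F_v) - G^|B v| (1-G)²| ≤ 4 x^(-δ/2) G^|B v|`; similarly (16 terms) `|P(F_v ∩ F_w) - G^(|B v| + |B w|) (1-G)⁴| ≤ 16 x^(-δ/2) G^(|B v| + |B w|)` for `v ≠ w`
(the windows `[v, v+g]`, `[w, w+g]` are disjoint and have length `g < T`, so every class modulo `p > T` contains at most one element of each). As `1 - G ≥ δ`: `P(F_v ∩ F_w) ≤ (1 + O(x^(-δ/2))) P(F_v) P(F_w)`,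
`μ = ∑ P(F_v) ≥ |𝒱| G^M δ²/2 ≥ δ² x^κ/2`; Chebyshev (`BF.cheb`, `t = μ/2`): `P(count ≤ μ/2) ≤ 4 (1/μ + O(x^(-δ/2))) ≤ x^(-ν)` with `ν = min κ δ / 4`. -/
def S_st2 : Prop := ∀ (Ω : Type) [MeasurableSpace Ω] (P : Measure Ω) (a : ℕ → Ω → ℕ), Model P a → ∀ δ C0 κ : ℝ, 0 < δ → δ ≤ 1 / 4 → 0 < C0 →
  0 < κ → ∃ ν : ℝ, 0 < ν ∧ ∀ᶠ x : ℕ in atTop, ∀ N : ℕ, 1 / 2 ≤ 1 - pr 1 (TT δ x) N → δ ≤ pr 1 (TT δ x) N →
    ∀ M g : ℕ, (M : ℝ) ≤ C0 * Real.log x → 1 ≤ g → (g : ℝ) ≤ Real.log x ^ 3 → ∀ (𝒱 : Finset ℕ) (B : ℕ → Finset ℕ),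
    (∀ v ∈ 𝒱, v + g ≤ x ∧ B v ⊆ Ioo v (v + g) ∧ (B v).card ≤ M) → (∀ v ∈ 𝒱, ∀ w ∈ 𝒱, v < w → v + g < w) →
    (x : ℝ) ^ κ ≤ 𝒱.card * (1 - pr 1 (TT δ x) N) ^ M →
    P.real {ω | ((𝒱.filter (fun v => Fv (fun q => a q ω) ((Ioc (TT δ x) N).filter Nat.Prime) (B v) v g)).card : ℝ) <
      δ ^ 2 / 4 * (x : ℝ) ^ κ} ≤ (x : ℝ) ^ (-ν)

/-! ## The third stage: the primes from `z(x/2)` to `z(x)` -/

open Classical in
/-- THE THIRD STAGE (from `S_sec`). PROOF. `N1 = z (x/2) ≥ x^(1/4)` and `z x ≤ x` for large `x`: `V (z k) log k → 1` and `mertens` (`V n log n → e^(-γ)`, `V` antitone; if `z (x/2) < x^(1/4)` then `V (z (x/2)) ≥ V (⌊x^(1/4)⌋) ~ 4 e^(-γ)/log x > 2/log x`).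
`pr 2 N1 (z x) ≥ 1/2` for large `x`: `pr 1 N1 (z x) = V (z x)/V (z (x/2)) → 1` and `1 - 2/p ≥ (1 - 1/p)² (1 - 2/p²)` (`p ≥ 5`). `S_sec` with `A v = {v, v+g}` (pairwise disjoint), `k0 = 2`, `Z = x`, `D = N1`, `t = μ/2`,
`μ ≥ |F|/2`: probability `≤ 4 (1/μ + 40 log x / N1) ≤ x^(-ν)`. -/
def S_st3 : Prop := ∀ z : ℕ → ℕ, Lim z → ∀ (Ω : Type) [MeasurableSpace Ω] (P : Measure Ω) (a : ℕ → Ω → ℕ), Model P a → ∀ κ : ℝ, 0 < κ →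
  ∃ ν : ℝ, 0 < ν ∧ ∀ᶠ x : ℕ in atTop, ∀ g : ℕ, 1 ≤ g → (g : ℝ) ≤ Real.log x ^ 3 → ∀ F : Finset ℕ, (∀ v ∈ F, v + g ≤ x) →
    (∀ v ∈ F, ∀ w ∈ F, v < w → v + g < w) → (x : ℝ) ^ κ ≤ F.card →
    P.real {ω | ((F.filter (fun v => ∀ p ∈ (Ioc (z (x / 2)) (z x)).filter Nat.Prime, v % p ≠ a p ω ∧ (v + g) % p ≠ a p ω)).card : ℝ) <
      (F.card : ℝ) / 4} ≤ (x : ℝ) ^ (-ν)

/-! ## The result -/

/-- THE PARAMETERS (deterministic). PROOF. Choose `κ < κ' < 1 - lam e^γ/2` and then `ε, δ, η > 0` small with `(lam/2 + 2ε) e^γ (1 + 4 δ e^γ) + 2η < 1 - κ'`, `δ ≤ 1/8`, `η ≤ 1/4`. `V (z k) log k → 1` (also along `k = x / 2`) and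
`V (TT δ x) log x → e^(-γ)/δ` (`mertens`; `TT δ x = ⌊x^δ⌋`, see BS/Main.lean), so `V (z (x/2)) / V (TT δ x) → δ e^γ ∈ (δ, 1/4)` (`e^γ < 2`: `Real.eulerMascheroniConstant_lt_two_thirds`; `γ > 1/2`). Since `V` is antitone this gives
`TT δ x < z (x/2)`, and then `pr 1 (TT δ x) (z (x/2)) = V (z (x/2)) / V (TT δ x)`. With `u = ` this number and `G = 1 - u`: `log (1/G) ≤ u + u²` (`u ≤ 1/2`), `M ≤ (lam/2 + 2ε) log x/δ`, so `G^M ≥ x^(-(lam/2 + 2ε)(u + u²)/δ)` and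
`(u + u²)/δ → e^γ (1 + δ e^γ)`. The last three: `log^3 x`, `log x ^ c` are `o(x^δ)`; `PP η x ≥ 2^π(yy η x)` is larger than every power of `log x` (`pnt`). -/
def S_num : Prop := ∀ c : ℝ, 1 < c → ∀ z : ℕ → ℕ, Lim z → ∀ lam κ : ℝ, 0 < lam → 0 < κ → κ < 1 - lam * Real.exp Real.eulerMascheroniConstant / 2 →
  ∃ ε δ η κ' : ℝ, 0 < ε ∧ 0 < δ ∧ δ ≤ 1 / 8 ∧ 0 < η ∧ η ≤ 1 / 4 ∧ κ < κ' ∧ ∀ᶠ x : ℕ in atTop,
    TT δ x < z (x / 2) ∧ z (x / 2) ≤ z x ∧ 1 / 2 ≤ 1 - pr 1 (TT δ x) (z (x / 2)) ∧ δ ≤ pr 1 (TT δ x) (z (x / 2)) ∧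
    (x : ℝ) ^ κ' ≤ (x : ℝ) ^ (1 - 2 * η) * (1 - pr 1 (TT δ x) (z (x / 2))) ^ ⌊(lam / 2 + 2 * ε) * Real.log x / δ⌋₊ ∧
    (x : ℝ) ^ κ ≤ δ ^ 2 / 16 * (x : ℝ) ^ κ' ∧ w2 c x ≤ TT δ x ∧ lam * Real.log x ^ 2 ≤ Real.log x ^ 3 ∧ lam * Real.log x ^ 2 < PP η x ∧ 6 ≤ x

/-- MEMBERSHIP (deterministic). PROOF. `R0 z c b = {v | 3 ≤ v ∧ ∀ q ≤ z v, q.Prime → v % q ≠ if (q : ℝ) ≤ log v ^ c then 0 else b q}`. For `x/2 < u ≤ x` (`x / 2` natural division, so `u > (x : ℝ)/2`, `u ≥ 3`): `z (x/2) ≤ z u ≤ z x`, `log (x/2)^c ≤ log u ^ c ≤ log x ^ c`.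
(1) `u ∈ {v, v+g}`, `q ≤ z u ≤ z x` prime: if `q ≤ log u ^ c` then `q ≤ w2 ≤ T` and `u % q ≠ 0` by `St`. Otherwise `q > log (x/2)^c`, so `q > w1`, and `u % q ≠ b q` by `St` if `q ≤ T`, by `Fv` if `T < q ≤ z (x/2)`, by the last hypothesis if `z (x/2) < q ≤ z x`.
(2) `v < n < v + g`: if `¬ Wk n`, there is a prime `p ≤ T < z (x/2) ≤ z n` with `p ≤ w1` and `n % p = 0` (then `p ≤ log n ^ c`) or `w2 < p` and `n % p = b p` (then `p > log n ^ c`); if `Wk n` then `Fv` gives a prime `p ∈ (T, z (x/2)]` with `n % p = b p`, `p ≤ z n`, `p > T ≥ w2`. -/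
def S_mem : Prop := ∀ c : ℝ, 1 < c → ∀ z : ℕ → ℕ, Lim z → ∀ x T : ℕ, 6 ≤ x → T < z (x / 2) → w2 c x ≤ T → ∀ (b : ℕ → ℕ) (v g : ℕ), x / 2 < v → v + g < x →
  St (w1 c x) (w2 c x) T b v → St (w1 c x) (w2 c x) T b (v + g) → ∀ B : Finset ℕ, (∀ n ∈ Ioo v (v + g), Wk (w1 c x) (w2 c x) T b n → n ∈ B) →
  Fv b ((Ioc T (z (x / 2))).filter Nat.Prime) B v g → (∀ p ∈ (Ioc (z (x / 2)) (z x)).filter Nat.Prime, v % p ≠ b p ∧ (v + g) % p ≠ b p) →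
    v ∈ R0 z c b ∧ v + g ∈ R0 z c b ∧ ∀ n ∈ Ioo v (v + g), n ∉ R0 z c b

/-- THE PROBABILITY (from `S_pat`, `S_st1`, `S_st2`, `S_st3`, `S_num`, `S_mem`). PROOF. Parameters from `S_num`; `T = TT δ x`, `N1 = z (x/2)`, `N2 = z x`, `M = ⌊(lam/2 + 2ε) log x/δ⌋`, `r` from `S_pat`.
Let `𝒱(b) = cand ...` (it depends on the `b p`, `p ≤ T`), `B v = (Ioo v (v+g)).filter (Wk ..)` (`≤ M` elements); different elements of `𝒱` are congruent modulo `PP η x > g`, so `v < w → v + g < w`. (1) By `S_st1` `|𝒱| ≥ x^(1-2η)` outside probability `C/log⁵ x`.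
(2) By `Pool.Agent.T2H32.BF.cond` (fix the classes of the primes `≤ T`: `S = range (T+1)`, the event `|𝒱(b)| ≥ x^(1-2η)` and the number of the `v ∈ 𝒱(b)` with `Fv b L1 (B v) v g` is `< (δ²/4) x^κ'`, `L1` = the primes in `(T, N1]`) and `S_st2` with `κ'` (note: `Fv` depends only on the classes of
the primes in `L1`; after fixing the classes `≤ T` the sets `𝒱`, `B v` are constant): probability `≤ x^(-ν)`. (3) By `cond` (fix the classes of the primes `≤ N1`) and `S_st3` (with `κ'/2`; `(δ²/4) x^κ' ≥ x^(κ'/2)`): if the set `F(b)` of these `v` has at least `(δ²/4) x^κ'` elements, then at least a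
quarter of them have `v, v+g` not hit by the primes in `(N1, N2]`, outside probability `x^(-ν')`. (4) By `S_mem` these `v` are counted by `gaps (R0 z c b) x g`, so `gaps ≥ (δ²/16) x^κ' ≥ x^κ`. Finally `x^(-ν) ≤ 1/log⁵ x`. -/
def S_prob : Prop := ∀ c : ℝ, 1 < c → ∀ z : ℕ → ℕ, Lim z → ∀ lam κ : ℝ, 0 < lam → 0 < κ → κ < 1 - lam * Real.exp Real.eulerMascheroniConstant / 2 →
  ∀ (Ω : Type) [MeasurableSpace Ω] (P : Measure Ω) (a : ℕ → Ω → ℕ), Model P a → ∃ C : ℝ, ∀ᶠ x : ℕ in atTop, ∀ g : ℕ,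
    Even g → 2 ≤ g → (g : ℝ) ≤ lam * Real.log x ^ 2 →
    P.real {ω | (gaps (R0 z c (fun q => a q ω)) x g : ℝ) < (x : ℝ) ^ κ} ≤ C / Real.log x ^ 5

/-- THE ALMOST SURE STATEMENT (from `S_prob`). PROOF. For rational `lam`, `κ` as in `S_prob`: by Borel-Cantelli (`MeasureTheory.measure_limsup_atTop_eq_zero` or `measure_setOf_frequently_eq_zero`) over the pairs `x = 2^j`, even `g ≤ lam log² x`
(`∑_j (lam (j log 2)² + 1) C/(j log 2)^5 < ∞`), almost surely for all large `j` and all even `2 ≤ g ≤ lam log² (2^j)`: `gaps (R0 ..) (2^j) g ≥ (2^j)^κ`. For a given real pair `(lam', κ')` with `0 < κ' < 1 - lam' e^γ/2` choose rationals `lam > lam'`, `κ > κ'` with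
`κ < 1 - lam e^γ/2` (if `lam' ≤ 0` nothing is to be proved, as `g ≥ 2`), `2^j ≤ X < 2^(j+1)`: `lam' log² X ≤ lam log² (2^j)` and `X^κ' ≤ (2^j)^κ` for large `X`, and the gaps in `(2^(j-1), 2^j)` are among those below `X`. -/
def S_main : Prop := ∀ c : ℝ, 1 < c → ∀ z : ℕ → ℕ, Lim z → ∀ (Ω : Type) [MeasurableSpace Ω] (P : Measure Ω) (a : ℕ → Ω → ℕ), Model P a →
  ∀ᵐ ω ∂P, ∀ lam κ : ℝ, 0 < κ → κ < 1 - lam * Real.exp Real.eulerMascheroniConstant / 2 → ∀ᶠ X : ℕ in atTop, ∀ g : ℕ, Even g → 2 ≤ g →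
    (g : ℝ) ≤ lam * Real.log X ^ 2 →
      (X : ℝ) ^ κ ≤ ({v : ℕ | v ∈ R0 z c (fun q => a q ω) ∧ v + g ∈ R0 z c (fun q => a q ω) ∧ v + g ≤ X ∧
        ∀ n, v < n → n < v + g → n ∉ R0 z c (fun q => a q ω)}.ncard : ℝ)

end Pool.Agent.H559.EG
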